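import Pool.Agent.MP_5c967c_co.H80R.D11

/-! Certificates. -/

namespace Pool.Agent.MP_5c967c_co.H80R

set_option maxRecDepth 100000

/-- certificate -/
def t11 : Tr :=
 (.der 0x5805a2410041c600420d01c29c01029b01026801023900420f004
 (.leaf [0xb05b0083,
 0x128060002,
 0xb0040002,
 0x30000027] [0x9b00789302,
 0xb5aec75403] [0xd625b97b6a0871b59f2f500304e,
 0x8024c7710a0231bd2f82502e806,
 0x11a236aebca06918d824d500284d,
 0x441854628a03f1e63697502e005,
 0x6f0ec33c1500204c,
 0x5a0ec33c1502d804] [0x93ef09fb,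
 0x8099d8727fedda37,
 0x80b96cde80bc76238076e2b5,
 0x94d4ce2978bb60318caaa05e7c4dc769,
 0x9c6a28c48081739e5db5421b569fe27b65ac849f,
 0x9c6a28c480000000883eea418e739d317fb97763a34328ac,
 0xb37c4f3677310c81ac85a4c37d5ed24ba8ca8363cf9a767b81eb1cff,
 0xb37c4f3680000000ac85a4c388cef37f8cd913497e9cab607a4727b96d5dd5b4]
 0x1a88b3012 0x866dc32b47e 46 0xadd22850b7c4f000000))

theorem c11 : top P11 [] t11 = true := by decide +kernel

end Pool.Agent.MP_5c967c_co.H80R
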