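import Pool.Agent.MP_5c967c_co.H80R.D13

/-! Certificates. -/

namespace Pool.Agent.MP_5c967c_co.H80R

set_option maxRecDepth 100000

/-- certificate -/
def t13 : Tr :=
 (.der 0x21102c06806a2a300427d03427d02430c0102120082aa00421100427d00027503427502427402427302427202427102421101c26701c3140143130142d201431401031301026c0102d10102a20082120082a200421200426900427500027400027300027200027100027000026f000268000
 (.leaf [0xd06b00a3,
 0xc0040b63,
 0xd06a0083,
 0x48020002,
 0x68040b63,
 0x40020002,
 0x88030002,
 0x10003,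
 0x786b00a3,
 0x10002,
 0xd0040002,
 0x118050002,
 0x158060002,
 0x40000028] [0xdc402a510c96df9c9106928cb59209928cb59207,
 0x900c701103a20aff9209a20aff9207,
 0x9f633dd20bfda43e120af778e45306,
 0xf521ee110dadffa69208,
 0x839f40d20c,
 0xc4009f920a,
 0xf62490930d] [0x3c848828f260883b6290530b81ddfe5698ab11b1ae84c0285c,
 0x87388a9724c35805,
 0xba088fd209840239aad04c0305d,
 0xa527e29604c36006,
 0x2a8129d541307c0a7c40898211007b7f4c0205b,
 0x6919ed2d34c35004] [0xad5029fe,
 0x80871b9a7ffe2484,
 0x8116317280e4c8b47ff53ad3,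
 0x8051748f7f9ac4647fb4d27f8002aea9,
 0x805e2d49801737437f21591c7f251e078009c17d,
 0x951c9287832037787bfae6fc6d101f4767eab58082e475ae,
 0x92f48943926091918c1e309f856898882305504b3539254185203c08,
 0x9e8730498cc6ce1298055bd375400f217784bef68edd4aa4ae7210478009b962]
 0x1eaea06ce 0x4336e1a99de 45 0x3baa643105e3b200000))

theorem c13 : top P13 [] t13 = true := by decide +kernel

end Pool.Agent.MP_5c967c_co.H80R
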