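import Pool.Agent.MP_5c967c_co.H80R.D17

/-! Certificates. -/

namespace Pool.Agent.MP_5c967c_co.H80R

set_option maxRecDepth 100000

/-- certificate -/
def t17 : Tr :=
 (.der 0x8808a36600433100033102431b01c36d0043310003290243280243270243260243250242a701c31b01c3200103a30103650042a800431d00432900032800032700032600032500032400032300031c000
 (.leaf [0x88040f23,
 0x110880083,
 0x1c8060002,
 0x110040002,
 0x58020002,
 0x50000029] [0xb71f8d9204,
 0xf118e81303,
 0xf4b483d405] [0xbc1dd05b6a83215eec725445006,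
 0x14e19c40faa8d217f4ed0540307b,
 0x6216544fca85d147cc8c5444805,
 0x1b01af3024a8a5122d6f8540287a,
 0xb807bd3eca88707a37b25444004,
 0xab0b821a85402079] [0x8f34b1ff,
 0x8090a4e98012800a,
 0x80f9be3f80fa48cf803007d0,
 0x8c1caa3d6c9f3d5b7807d9e5858909ae,
 0x9a38ddf87aa5cab55b90a1ae4d81f2d57004a1a6,
 0x9a38ddf88000000081fa64f38a45155d813948bfb4d7ce76,
 0xbfb1d37f764611d8b72621167cc34b4db35315f6dd2f67ff826924c7,
 0xbfb1d37f80000000b726211689b9ee2894b88b3c8066ba887b986d067297320f]
 0x19ac60a92 0x866dc343b8f 46 0xf70ec10cc1d6e200000))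

theorem c17 : top P17 [] t17 = true := by decide +kernel

end Pool.Agent.MP_5c967c_co.H80R
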