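import Pool.Agent.MP_5c967c_co.H80R.Trig
import Pool.Agent.MP_5c967c_co.H80R.C3_0
import Pool.Agent.MP_5c967c_co.H80R.C3_1
import Pool.Agent.MP_5c967c_co.H80R.C3_2
import Pool.Agent.MP_5c967c_co.H80R.C3_3
import Pool.Agent.MP_5c967c_co.H80R.C3_4
import Pool.Agent.MP_5c967c_co.H80R.C3_5
import Pool.Agent.MP_5c967c_co.H80R.C3_6
import Pool.Agent.MP_5c967c_co.H80R.C3_7
import Pool.Agent.MP_5c967c_co.H80R.C3_8
import Pool.Agent.MP_5c967c_co.H80R.C3_9
import Pool.Agent.MP_5c967c_co.H80R.C3_10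
import Pool.Agent.MP_5c967c_co.H80R.C3_11
import Pool.Agent.MP_5c967c_co.H80R.C3_12
import Pool.Agent.MP_5c967c_co.H80R.C3_13
import Pool.Agent.MP_5c967c_co.H80R.C3_14
import Pool.Agent.MP_5c967c_co.H80R.C3_15
import Pool.Agent.MP_5c967c_co.H80R.C3_16
import Pool.Agent.MP_5c967c_co.H80R.C3_17
import Pool.Agent.MP_5c967c_co.H80R.C3_18
import Pool.Agent.MP_5c967c_co.H80R.C3_19
import Pool.Agent.MP_5c967c_co.H80R.C3_20
import Pool.Agent.MP_5c967c_co.H80R.C3_21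
import Pool.Agent.MP_5c967c_co.H80R.C3_22
import Pool.Agent.MP_5c967c_co.H80R.C3_23
import Pool.Agent.MP_5c967c_co.H80R.C3_24
import Pool.Agent.MP_5c967c_co.H80R.C3_25
import Pool.Agent.MP_5c967c_co.H80R.C3_26
import Pool.Agent.MP_5c967c_co.H80R.C5_0
import Pool.Agent.MP_5c967c_co.H80R.C7_0
import Pool.Agent.MP_5c967c_co.H80R.C11_0
import Pool.Agent.MP_5c967c_co.H80R.C13_0
import Pool.Agent.MP_5c967c_co.H80R.C17_0
import Pool.Agent.MP_5c967c_co.H80R.C19_0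

/-! The certificates put together. -/

namespace Pool.Agent.MP_5c967c_co.H80R

theorem w3 : WF P3 := wf_of (by decide +kernel)

theorem w5 : WF P5 := wf_of (by decide +kernel)

theorem w7 : WF P7 := wf_of (by decide +kernel)

theorem w11 : WF P11 := wf_of (by decide +kernel)

theorem w13 : WF P13 := wf_of (by decide +kernel)

theorem w17 : WF P17 := wf_of (by decide +kernel)

theorem w19 : WF P19 := wf_of (by decide +kernel)

theorem n3_0 (g : Geo P3) : ¬Sat g s3_0 := nref w3 (List.forall_mem_nil _) c3_0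

theorem n3_1 (g : Geo P3) : ¬Sat g s3_1 := nref w3 (List.forall_mem_nil _) c3_1

theorem n3_2 (g : Geo P3) : ¬Sat g s3_2 := nref w3 (List.forall_mem_nil _) c3_2

theorem n3_3 (g : Geo P3) : ¬Sat g s3_3 := nref w3 (fc (n3_2 g) (List.forall_mem_nil _)) c3_3

theorem n3_4 (g : Geo P3) : ¬Sat g s3_4 := nref w3 (List.forall_mem_nil _) c3_4

theorem n3_5 (g : Geo P3) : ¬Sat g s3_5 := nref w3 (fc (n3_4 g) (List.forall_mem_nil _)) c3_5

theorem n3_6 (g : Geo P3) : ¬Sat g s3_6 := nref w3 (List.forall_mem_nil _) c3_6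

theorem n3_7 (g : Geo P3) : ¬Sat g s3_7 := nref w3 (fc (n3_6 g) (List.forall_mem_nil _)) c3_7

theorem n3_8 (g : Geo P3) : ¬Sat g s3_8 := nref w3 (List.forall_mem_nil _) c3_8

theorem n3_9 (g : Geo P3) : ¬Sat g s3_9 := nref w3 (List.forall_mem_nil _) c3_9

theorem n3_10 (g : Geo P3) : ¬Sat g s3_10 := nref w3 (List.forall_mem_nil _) c3_10

theorem n3_11 (g : Geo P3) : ¬Sat g s3_11 := nref w3 (List.forall_mem_nil _) c3_11

theorem n3_12 (g : Geo P3) : ¬Sat g s3_12 := nref w3 (List.forall_mem_nil _) c3_12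

theorem n3_13 (g : Geo P3) : ¬Sat g s3_13 := nref w3 (fc (n3_11 g) (fc (n3_12 g) (List.forall_mem_nil _))) c3_13

theorem n3_14 (g : Geo P3) : ¬Sat g s3_14 := nref w3 (List.forall_mem_nil _) c3_14

theorem n3_15 (g : Geo P3) : ¬Sat g s3_15 := nref w3 (List.forall_mem_nil _) c3_15

theorem n3_16 (g : Geo P3) : ¬Sat g s3_16 := nref w3 (List.forall_mem_nil _) c3_16

theorem n3_17 (g : Geo P3) : ¬Sat g s3_17 := nref w3 (List.forall_mem_nil _) c3_17

theorem n3_18 (g : Geo P3) : ¬Sat g s3_18 := nref w3 (fc (n3_0 g) (fc (n3_1 g) (fc (n3_3 g) (fc (n3_5 g) (fc (n3_7 g) (fc (n3_8 g) (fc (n3_9 g) (fc (n3_10 g) (fc (n3_13 g) (fc (n3_14 g) (fc (n3_15 g) (fc (n3_16 g) (fc (n3_17 g) (List.forall_mem_nil _)))))))))))))) c3_18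

theorem n3_19 (g : Geo P3) : ¬Sat g s3_19 := nref w3 (List.forall_mem_nil _) c3_19

theorem n3_20 (g : Geo P3) : ¬Sat g s3_20 := nref w3 (List.forall_mem_nil _) c3_20

theorem n3_21 (g : Geo P3) : ¬Sat g s3_21 := nref w3 (fc (n3_20 g) (List.forall_mem_nil _)) c3_21

theorem n3_22 (g : Geo P3) : ¬Sat g s3_22 := nref w3 (fc (n3_19 g) (fc (n3_21 g) (List.forall_mem_nil _))) c3_22

theorem n3_23 (g : Geo P3) : ¬Sat g s3_23 := nref w3 (List.forall_mem_nil _) c3_23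

theorem n3_24 (g : Geo P3) : ¬Sat g s3_24 := nref w3 (List.forall_mem_nil _) c3_24

theorem n3_25 (g : Geo P3) : ¬Sat g s3_25 := nref w3 (List.forall_mem_nil _) c3_25

theorem n3_26 (g : Geo P3) : ¬Sat g s3_26 := nref w3 (List.forall_mem_nil _) c3_26

theorem n3_27 (g : Geo P3) : ¬Sat g s3_27 := nref w3 (List.forall_mem_nil _) c3_27

theorem n3_28 (g : Geo P3) : ¬Sat g s3_28 := nref w3 (List.forall_mem_nil _) c3_28

theorem n3_29 (g : Geo P3) : ¬Sat g s3_29 := nref w3 (List.forall_mem_nil _) c3_29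

theorem n3_30 (g : Geo P3) : ¬Sat g s3_30 := nref w3 (List.forall_mem_nil _) c3_30

theorem n3_31 (g : Geo P3) : ¬Sat g s3_31 := nref w3 (List.forall_mem_nil _) c3_31

theorem n3_32 (g : Geo P3) : ¬Sat g s3_32 := nref w3 (List.forall_mem_nil _) c3_32

theorem n3_33 (g : Geo P3) : ¬Sat g s3_33 := nref w3 (List.forall_mem_nil _) c3_33

theorem n3_34 (g : Geo P3) : ¬Sat g s3_34 := nref w3 (List.forall_mem_nil _) c3_34

theorem n3_35 (g : Geo P3) : ¬Sat g s3_35 := nref w3 (List.forall_mem_nil _) c3_35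

theorem n3_36 (g : Geo P3) : ¬Sat g s3_36 := nref w3 (fc (n3_34 g) (fc (n3_35 g) (List.forall_mem_nil _))) c3_36

theorem n3_37 (g : Geo P3) : ¬Sat g s3_37 := nref w3 (List.forall_mem_nil _) c3_37

theorem n3_38 (g : Geo P3) : ¬Sat g s3_38 := nref w3 (List.forall_mem_nil _) c3_38

theorem n3_39 (g : Geo P3) : ¬Sat g s3_39 := nref w3 (fc (n3_37 g) (fc (n3_38 g) (List.forall_mem_nil _))) c3_39

theorem n3_40 (g : Geo P3) : ¬Sat g s3_40 := nref w3 (List.forall_mem_nil _) c3_40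

theorem n3_41 (g : Geo P3) : ¬Sat g s3_41 := nref w3 (List.forall_mem_nil _) c3_41

theorem n3_42 (g : Geo P3) : ¬Sat g s3_42 := nref w3 (List.forall_mem_nil _) c3_42

theorem n3_43 (g : Geo P3) : ¬Sat g s3_43 := nref w3 (fc (n3_31 g) (fc (n3_32 g) (fc (n3_33 g) (fc (n3_36 g) (fc (n3_39 g) (fc (n3_40 g) (fc (n3_41 g) (fc (n3_42 g) (List.forall_mem_nil _))))))))) c3_43

theorem n3_44 (g : Geo P3) : ¬Sat g s3_44 := nref w3 (fc (n3_22 g) (fc (n3_23 g) (fc (n3_24 g) (fc (n3_25 g) (fc (n3_26 g) (fc (n3_27 g) (fc (n3_28 g) (fc (n3_29 g) (fc (n3_30 g) (fc (n3_43 g) (List.forall_mem_nil _))))))))))) c3_44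

theorem n3_45 (g : Geo P3) : ¬Sat g s3_45 := nref w3 (List.forall_mem_nil _) c3_45

theorem n3_46 (g : Geo P3) : ¬Sat g s3_46 := nref w3 (List.forall_mem_nil _) c3_46

theorem n3_47 (g : Geo P3) : ¬Sat g s3_47 := nref w3 (List.forall_mem_nil _) c3_47

theorem n3_48 (g : Geo P3) : ¬Sat g s3_48 := nref w3 (List.forall_mem_nil _) c3_48

theorem n3_49 (g : Geo P3) : ¬Sat g s3_49 := nref w3 (List.forall_mem_nil _) c3_49

theorem n3_50 (g : Geo P3) : ¬Sat g s3_50 := nref w3 (List.forall_mem_nil _) c3_50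

theorem n3_51 (g : Geo P3) : ¬Sat g s3_51 := nref w3 (List.forall_mem_nil _) c3_51

theorem n3_52 (g : Geo P3) : ¬Sat g s3_52 := nref w3 (fc (n3_44 g) (fc (n3_45 g) (fc (n3_46 g) (fc (n3_47 g) (fc (n3_48 g) (fc (n3_49 g) (fc (n3_50 g) (fc (n3_51 g) (List.forall_mem_nil _))))))))) c3_52

theorem n3_53 (g : Geo P3) : ¬Sat g s3_53 := nref w3 (List.forall_mem_nil _) c3_53

theorem n3_54 (g : Geo P3) : ¬Sat g s3_54 := nref w3 (fc (n3_53 g) (List.forall_mem_nil _)) c3_54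

theorem n3_55 (g : Geo P3) : ¬Sat g s3_55 := nref w3 (List.forall_mem_nil _) c3_55

theorem n3_56 (g : Geo P3) : ¬Sat g s3_56 := nref w3 (List.forall_mem_nil _) c3_56

theorem n3_57 (g : Geo P3) : ¬Sat g s3_57 := nref w3 (List.forall_mem_nil _) c3_57

theorem n3_58 (g : Geo P3) : ¬Sat g s3_58 := nref w3 (List.forall_mem_nil _) c3_58

theorem n3_59 (g : Geo P3) : ¬Sat g s3_59 := nref w3 (fc (n3_55 g) (fc (n3_56 g) (fc (n3_57 g) (fc (n3_58 g) (List.forall_mem_nil _))))) c3_59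

theorem n3_60 (g : Geo P3) : ¬Sat g s3_60 := nref w3 (List.forall_mem_nil _) c3_60

theorem n3_61 (g : Geo P3) : ¬Sat g s3_61 := nref w3 (List.forall_mem_nil _) c3_61

theorem n3_62 (g : Geo P3) : ¬Sat g s3_62 := nref w3 (List.forall_mem_nil _) c3_62

theorem n3_63 (g : Geo P3) : ¬Sat g s3_63 := nref w3 (List.forall_mem_nil _) c3_63

theorem n3_64 (g : Geo P3) : ¬Sat g s3_64 := nref w3 (List.forall_mem_nil _) c3_64

theorem n3_65 (g : Geo P3) : ¬Sat g s3_65 := nref w3 (List.forall_mem_nil _) c3_65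

theorem n3_66 (g : Geo P3) : ¬Sat g s3_66 := nref w3 (fc (n3_64 g) (fc (n3_65 g) (List.forall_mem_nil _))) c3_66

theorem n3_67 (g : Geo P3) : ¬Sat g s3_67 := nref w3 (List.forall_mem_nil _) c3_67

theorem n3_68 (g : Geo P3) : ¬Sat g s3_68 := nref w3 (List.forall_mem_nil _) c3_68

theorem n3_69 (g : Geo P3) : ¬Sat g s3_69 := nref w3 (List.forall_mem_nil _) c3_69

theorem n3_70 (g : Geo P3) : ¬Sat g s3_70 := nref w3 (List.forall_mem_nil _) c3_70

theorem n3_71 (g : Geo P3) : ¬Sat g s3_71 := nref w3 (List.forall_mem_nil _) c3_71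

theorem n3_72 (g : Geo P3) : ¬Sat g s3_72 := nref w3 (List.forall_mem_nil _) c3_72

theorem n3_73 (g : Geo P3) : ¬Sat g s3_73 := nref w3 (List.forall_mem_nil _) c3_73

theorem n3_74 (g : Geo P3) : ¬Sat g s3_74 := nref w3 (List.forall_mem_nil _) c3_74

theorem n3_75 (g : Geo P3) : ¬Sat g s3_75 := nref w3 (List.forall_mem_nil _) c3_75

theorem n3_76 (g : Geo P3) : ¬Sat g s3_76 := nref w3 (List.forall_mem_nil _) c3_76

theorem n3_77 (g : Geo P3) : ¬Sat g s3_77 := nref w3 (List.forall_mem_nil _) c3_77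

theorem n3_78 (g : Geo P3) : ¬Sat g s3_78 := nref w3 (List.forall_mem_nil _) c3_78

theorem n3_79 (g : Geo P3) : ¬Sat g s3_79 := nref w3 (fc (n3_60 g) (fc (n3_61 g) (fc (n3_62 g) (fc (n3_63 g) (fc (n3_66 g) (fc (n3_67 g) (fc (n3_68 g) (fc (n3_69 g) (fc (n3_70 g) (fc (n3_71 g) (fc (n3_72 g) (fc (n3_73 g) (fc (n3_74 g) (fc (n3_75 g) (fc (n3_76 g) (fc (n3_77 g) (fc (n3_78 g) (List.forall_mem_nil _)))))))))))))))))) c3_79

theorem no3 (g : Geo P3) (h : ∀ a ∈ roots P3, g.k a.1 ≤ g.k a.2) : False :=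
  have ⟨s, h1, h2⟩ := top_sound w3 h c3
  ((fc (n3_18 g) (fc (n3_52 g) (fc (n3_54 g) (fc (n3_59 g) (fc (n3_79 g) (List.forall_mem_nil _)))))) :
    ∀ s ∈ _, ¬Sat g s) s h1 h2

theorem no5 (g : Geo P5) (h : ∀ a ∈ roots P5, g.k a.1 ≤ g.k a.2) : False := by
  simpa using top_sound w5 h c5

theorem no11 (g : Geo P11) (h : ∀ a ∈ roots P11, g.k a.1 ≤ g.k a.2) : False := by
  simpa using top_sound w11 h c11

theorem no13 (g : Geo P13) (h : ∀ a ∈ roots P13, g.k a.1 ≤ g.k a.2) : False := by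
  simpa using top_sound w13 h c13

theorem no17 (g : Geo P17) (h : ∀ a ∈ roots P17, g.k a.1 ≤ g.k a.2) : False := by
  simpa using top_sound w17 h c17

theorem no19 (g : Geo P19) (h : ∀ a ∈ roots P19, g.k a.1 ≤ g.k a.2) : False := by
  simpa using top_sound w19 h c19

theorem no7 (g : Geo P7) (h : ∀ a ∈ roots P7, g.k a.1 ≤ g.k a.2) : Sat g box := by
  simpa using top_sound w7 h c7

end Pool.Agent.MP_5c967c_co.H80R
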