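import Pool.Agent.MP_5c967c_co.H80R.D19

/-! Certificates. -/

namespace Pool.Agent.MP_5c967c_co.H80R

set_option maxRecDepth 100000

/-- certificate -/
def t19 : Tr :=
 (.der 0x2f202c09809a3c00083c000437e00038c03438b03438c02438b02438b02037501c3c70083c700438b00038303438302438202438102438002437f02438302038202038102038002037f02037e0202f201c37501c37a01040c0103bf0083bf0042f300437700438300038200038100038000037f00037e00037d000376000
 (.leaf [0x50000029,
 0x1309800a3,
 0x130970083,
 0x68020002,
 0x98041103,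
 0x10003,
 0xa89800a3,
 0x10002,
 0xc8030002,
 0x130040002,
 0x198050002,
 0x1f8060002] [0xd585a91308eadd3613039f6b3c91079f6b3c9105,
 0xb427995308a99124d207a99124d205,
 0xecfb23520ab1ad5dd20991d859d408,
 0xc11c0d9309927e30d206,
 0xd6a08f520b] [0x2d4273a0d940621cf605ea0f611649c85002889,
 0xc329ae22d504c005,
 0xf01ef72c5504c806,
 0x16c0aec02ca05e19812af500308a,
 0x1ea0f97b74a05c08f83e95002088,
 0x9610c41a3504b804] [0xe5be803e,
 0x80f51bfa800aed65,
 0x82af0f99815d40b28122f257,
 0x80b63cea804430b38081a1047fb55988,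
 0x8e2f2b407ce8e3669f5a229095ff77df99f78605,
 0xb1a36371747c382e6a7c397f1b7fe55c319bb9ea7a0cf982,
 0xd657de1b6f3e11becf8108428dd806823e58a423d97840b38cb2336a,
 0xd657de1b80000000c966bfb95ed9f1198fae3928901305bba6db339685740a51]
 0x1e39e474f 0x4336e19c338 43 0x2a21e19714ca4e80000))

theorem c19 : top P19 [] t19 = true := by decide +kernel

end Pool.Agent.MP_5c967c_co.H80R
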