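import Pool.Agent.MP_5c967c_co.H80R.Sup
import Pool.Agent.MP_5c967c_co.H80L.G

/-! The longest chord in a direction and the extreme chords of half its length. -/

namespace Pool.Agent.MP_5c967c_co.H80R

open H80L Real Set Pointwise
open Complex hiding sin cos exp

/-- the middle one among the longest horizontal chords -/
structure Base (K : Set ℂ) (l : ℝ) (M : ℂ) (n : ℝ) : Prop where
  l0 : 0 < l
  s0 : Sup K (M + (2 * l : ℝ)) n
  s3 : Sup K M (n + π)
  w1 : -(π / 2) < n
  w2 : n < π / 2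
  mx : ∀ p ∈ K, ∀ t : ℝ, p + t ∈ K → t ≤ 2 * l
  mid : ∃ a b, M = (a + b) / 2 ∧ a ∈ K ∧ a + (2 * l : ℝ) ∈ K ∧ b ∈ K ∧ b + (2 * l : ℝ) ∈ K ∧
    ∀ z ∈ K, z + (2 * l : ℝ) ∈ K → a.im ≤ z.im ∧ z.im ≤ b.im

/-- the highest horizontal chord of length `l` -/
structure Side (K : Set ℂ) (l : ℝ) (U : ℂ) (n1 n2 : ℝ) : Prop where
  s1 : Sup K (U + l) n1
  s2 : Sup K U n2
  top : ∀ z ∈ K, z + l ∈ K → z.im ≤ U.im
  w1 : -(π / 2) < n1
  w2 : n1 ≤ π / 2
  w3 : π / 2 ≤ n2
  w4 : n2 < 3 * π / 2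
  m1 : ∀ μ ≤ π / 2, Sup K (U + l) μ → μ ≤ n1
  m2 : ∀ μ, π / 2 ≤ μ → Sup K U μ → n2 ≤ μ

/-- the rotated set -/
def Kr (K : Set ℂ) (t : ℝ) : Set ℂ := {z | ex t * z ∈ K}

variable {K : Set ℂ} {x y M M' U U' : ℂ} {l l' n n' n1 n2 n1' n2' ν μ d : ℝ}

theorem mv (h : x ∈ interior K) (d : ℂ) : ∃ t : ℝ, 0 < t ∧ t ≤ 1 ∧ x + t * d ∈ K := by
  have h1 : ∀ᶠ t : ℝ in nhds 0, x + t * d ∈ K :=
    (by fun_prop : Continuous fun t : ℝ => x + t * d).continuousAt.eventually
      (by simpa using mem_interior_iff_mem_nhds.1 h)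
  obtain ⟨t, h2, h3⟩ := ((h1.filter_mono nhdsWithin_le_nhds).and
    (Ioc_mem_nhdsGT zero_lt_one)).exists
  exact ⟨t, h3.1, h3.2, h2⟩

theorem cmb (hK : Convex ℝ K) (hx : x ∈ K) (hy : y ∈ K) {t : ℝ} (h0 : 0 ≤ t) (h1 : t ≤ 1) :
    x + t * (y - x) ∈ K := by
  simpa only [real_smul] using hK.add_smul_sub_mem hx hy ⟨h0, h1⟩

theorem hb {s : Set ℂ} (hs : Convex ℝ s) (ho : IsOpen s) (hx : x ∉ s) :
    ∃ w, ∀ a ∈ s, ip w a < ip w x := by
  obtain ⟨f, hf⟩ := geometric_hahn_banach_open_point hs ho hx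
  have e : ∀ z, f z = ip ⟨f 1, f I⟩ z := fun z => by
    conv_lhs => rw [show z = z.re • (1 : ℂ) + z.im • I by simp, map_add, map_smul, map_smul]
    simp [ip, mul_comm]
  exact ⟨⟨f 1, f I⟩, fun a ha => by rw [← e, ← e]; exact hf a ha⟩

theorem clo (hK : Convex ℝ K) (hi : (interior K).Nonempty) {w : ℂ} {c : ℝ}
    (h : ∀ a ∈ interior K, ip w a < c) : ∀ a ∈ K, ip w a ≤ c := fun a ha =>
  closure_minimal (t := {a | ip w a ≤ c}) (fun a ha => (h a ha).le)
    (isClosed_le (by unfold ip; fun_prop) continuous_const)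
    (hK.closure_interior_eq_closure_of_nonempty_interior hi ▸ subset_closure ha)

theorem ip_polar (w z : ℂ) (α : ℝ) :
    ip w z = ‖w‖ * ip (ex (α + arg (ex (-α) * w))) z := by
  have := polar (ex (-α) * w)
  rw [norm_mul, norm_ex, one_mul] at this
  have e : w = ‖w‖ * ex (α + arg (ex (-α) * w)) := by
    rw [ex_add, mul_left_comm, ← this, ← mul_assoc, ← ex_add, add_neg_cancel, ex_zero, one_mul]
  conv_lhs => rw [e]
  simp [ip]
  ring

theorem nrm (hK : Convex ℝ K) (hi : (interior K).Nonempty) (hx : x ∈ K)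
    (hn : x ∉ interior K) {α : ℝ} (l0 : 0 < l) (h : x - l * ex α ∈ K) :
    IsCompact {μ ∈ Icc (α - π / 2) (α + π / 2) | Sup K x μ} ∧
      {μ ∈ Icc (α - π / 2) (α + π / 2) | Sup K x μ}.Nonempty := by
  refine ⟨isCompact_Icc.inter_right (t := {μ | Sup K x μ}) ?_, ?_⟩
  · simp only [Sup, hx, true_and, ofPred_forall]
    exact isClosed_iInter fun z => isClosed_iInter fun _ =>
      isClosed_le (by simp only [ip, ex]; fun_prop) (by simp only [ip, ex]; fun_prop)
  obtain ⟨w, hw⟩ := hb hK.interior isOpen_interior hn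
  have w0 : 0 < ‖w‖ := norm_pos_iff.2 fun e => by
    obtain ⟨a, ha⟩ := hi
    simpa [e, ip] using hw a ha
  have h1 := clo hK hi hw
  have h2 := abs_le.1 ((abs_arg_le_pi_div_two_iff (z := ex (-α) * w)).2 (by
    have := h1 _ h
    simp only [ip, ex, sub_re, sub_im, mul_re, mul_im, ofReal_re, ofReal_im, Real.cos_neg,
      Real.sin_neg] at this ⊢
    exact nonneg_of_mul_nonneg_right (a := l) (by linarith) l0))
  refine ⟨α + arg (ex (-α) * w), ⟨by linarith, by linarith⟩, hx, fun z hz => ?_⟩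
  have := h1 z hz
  rw [ip_polar w z α, ip_polar w x α] at this
  exact le_of_mul_le_mul_left this w0

theorem off (hi : (interior K).Nonempty) (t : ℝ) : ∃ z ∈ K, z.im ≠ t := by
  obtain ⟨a, ha⟩ := hi
  obtain ⟨s, s0, -, hs⟩ := mv ha I
  by_contra! h
  have h1 := h _ hs
  have h2 := h _ (interior_subset ha)
  simp at h1
  linarith

theorem half (hK : Convex ℝ K) (hM : M ∈ K) (hT : M + (2 * l : ℝ) ∈ K) (hx : x ∈ K) :
    M + (1 / 2 : ℝ) * (x - M) ∈ K ∧ M + (1 / 2 : ℝ) * (x - M) + l ∈ K :=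
  ⟨cmb hK hM hx (by norm_num) (by norm_num), by
    convert cmb hK hT hx (t := 1 / 2) (by norm_num) (by norm_num) using 1
    push_cast
    ring⟩

theorem exists_base (hc : IsCompact K) (hK : Convex ℝ K) (hi : (interior K).Nonempty) :
    ∃ l M n, Base K l M n := by
  obtain ⟨l, M, -, -, -, hM, hT, mx, -⟩ := exists_con hc hK (hi.mono interior_subset)
  have ⟨q, hq⟩ := hi
  have l0 : 0 < l := by
    obtain ⟨t, t0, -, ht⟩ := mv hq 1
    linarith [mx q (interior_subset hq) t (by simpa using ht)]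
  have cB : IsCompact (K ∩ (fun p : ℂ => p + (2 * l : ℝ)) ⁻¹' K) :=
    hc.inter_right (hc.isClosed.preimage (by fun_prop))
  obtain ⟨a, ha, ma⟩ := cB.exists_isMinOn ⟨M, hM, hT⟩ (f := im) (by fun_prop)
  obtain ⟨b, hb', mb⟩ := cB.exists_isMaxOn ⟨M, hM, hT⟩ (f := im) (by fun_prop)
  obtain ⟨w, hw⟩ := hb (s := interior K - K) (x := (2 * l : ℝ)) (hK.interior.sub hK)
    isOpen_interior.sub_right (by
      rintro ⟨x, hx, y, hy, e⟩
      obtain ⟨t, t0, -, ht⟩ := mv hx 1
      have := mx y hy (2 * l + t) (by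
        convert ht using 1
        rw [eq_add_of_sub_eq e]
        push_cast
        ring)
      linarith)
  have h1 : ∀ y ∈ K, ∀ x ∈ K, ip w x ≤ ip w (y + (2 * l : ℝ)) := fun y hy =>
    clo hK hi fun x hx => by
      have := hw _ ⟨x, hx, y, hy, rfl⟩
      simp only [ip, sub_re, sub_im, add_re, add_im] at this ⊢
      linarith
  have w0 : 0 < w.re := by
    have := hw _ ⟨q, hq, q, interior_subset hq, rfl⟩
    simp only [ip, sub_self, zero_re, zero_im, ofReal_re, ofReal_im] at this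
    exact (mul_pos_iff_of_pos_right (by linarith : 0 < 2 * l)).1 (by linarith)
  have w1 : 0 < ‖w‖ := w0.trans_le (re_le_norm w)
  have w2 := abs_lt.1 (abs_arg_lt_pi_div_two_iff.2 (Or.inl w0))
  have e : ∀ z, ip w z = ‖w‖ * ip (ex (arg w)) z := fun z => by
    simpa [ex_zero] using ip_polar w z 0
  have m1 : (a + b) / 2 ∈ K := by
    convert cmb hK ha.1 hb'.1 (t := 1 / 2) (by norm_num) (by norm_num) using 1
    push_cast
    ring
  have m2 : (a + b) / 2 + (2 * l : ℝ) ∈ K := by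
    convert cmb hK ha.2 hb'.2 (t := 1 / 2) (by norm_num) (by norm_num) using 1
    push_cast
    ring
  refine ⟨l, _, arg w, l0, ⟨m2, fun z hz => ?_⟩, ⟨m1, fun z hz => ?_⟩, w2.1, w2.2, mx, a, b, rfl,
    ha.1, ha.2, hb'.1, hb'.2, fun z hz hz' => ⟨ma (a := z) ⟨hz, hz'⟩, mb (a := z) ⟨hz, hz'⟩⟩⟩
  · exact le_of_mul_le_mul_left (by simpa only [e] using h1 _ m1 z hz) w1
  · have := le_of_mul_le_mul_left (by simpa only [e] using h1 z hz _ m2) w1
    simp only [ip, ex_add, ex_pi, add_re, add_im, mul_neg, mul_one, neg_re, neg_im] at this ⊢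
    linarith

theorem exists_side (hc : IsCompact K) (hK : Convex ℝ K) (hi : (interior K).Nonempty)
    (h : Base K l M n) : ∃ U n1 n2, Side K l U n1 n2 := by
  have hM := half hK h.s3.1 h.s0.1 h.s3.1
  obtain ⟨U, hU, mU⟩ := (hc.inter_right (hc.isClosed.preimage (f := fun p : ℂ => p + l)
    (by fun_prop))).exists_isMaxOn ⟨_, hM⟩ (f := im) (by fun_prop)
  have top : ∀ z ∈ K, z + l ∈ K → z.im ≤ U.im := fun z hz hz' => mU (a := z) ⟨hz, hz'⟩
  have low : ∃ z ∈ K, z.im < U.im := by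
    obtain ⟨z, hz, e⟩ := off hi M.im
    have h1 := half hK h.s3.1 h.s0.1 hz
    have h2 := top _ h1.1 h1.2
    have h3 := top _ hM.1 hM.2
    simp at h2 h3
    rcases e.lt_or_gt with e | e
    exacts [⟨z, hz, by linarith⟩, ⟨M, h.s3.1, by linarith⟩]
  obtain ⟨z, hz, low⟩ := low
  obtain ⟨c1, c2⟩ := nrm hK hi hU.2 (α := 0) (fun hq => by
    obtain ⟨s, s0, -, hs⟩ := mv hq I
    obtain ⟨t, t0, t1, ht⟩ := mv hq (U + l + s * I - U)
    have := top _ (cmb hK hU.1 hs t0.le t1) (by convert ht using 1; ring)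
    simp at this
    linarith [mul_pos t0 s0]) h.l0 (by simpa [ex_zero] using hU.1)
  obtain ⟨c3, c4⟩ := nrm hK hi hU.1 (α := π) (fun hq => by
    obtain ⟨s, s0, -, hs⟩ := mv hq I
    obtain ⟨t, t0, t1, ht⟩ := mv hq (U + s * I - (U + l))
    have := top _ ht (by convert cmb hK hU.2 hs t0.le t1 using 1; ring)
    simp at this
    linarith [mul_pos t0 s0]) h.l0 (by simpa [ex_pi] using hU.2)
  obtain ⟨n1, ⟨⟨a1, a2⟩, a3⟩, a4⟩ := c1.exists_isGreatest c2
  obtain ⟨n2, ⟨⟨b1, b2⟩, b3⟩, b4⟩ := c3.exists_isLeast c4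
  refine ⟨U, n1, n2, a3, b3, top, lt_of_le_of_ne (by linarith) fun e => ?_, by linarith,
    by linarith, lt_of_le_of_ne (by linarith) fun e => ?_, fun μ h1 h2 => ?_, fun μ h1 h2 => ?_⟩
  · have := a3.2 z hz
    simp [← e, ip, ex] at this
    linarith
  · have := b3.2 z hz
    rw [e, show 3 * π / 2 = π / 2 + π by ring] at this
    simp [ip, ex] at this
    linarith
  · exact (le_total μ (0 - π / 2)).elim (·.trans a1) fun h3 => a4 ⟨⟨h3, by linarith⟩, h2⟩
  · exact (le_total (π + π / 2) μ).elim b2.trans fun h3 => b4 ⟨⟨by linarith, h3⟩, h2⟩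

theorem Sup.neg (h : Sup K x (ν + π)) : Sup (Kr K π) (-x) ν := by
  refine ⟨by simpa [Kr, ex_pi] using h.1, fun z hz => ?_⟩
  have := h.2 _ hz
  simp only [ip, ex_add, ex_pi, mul_neg, mul_one, neg_mul, one_mul, neg_re, neg_im] at this ⊢
  linarith

theorem Base.neg (h : Base K l M n) : Base (Kr K π) l (-(M + (2 * l : ℝ))) n := by
  obtain ⟨a, b, e, a1, a2, b1, b2, m⟩ := h.mid
  have k : ∀ z, z ∈ Kr K π ↔ -z ∈ K := fun z => by simp [Kr, ex_pi]
  refine ⟨h.l0, by simpa using h.s3.neg, Sup.neg (by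
      simpa only [add_assoc, two_mul] using h.s0.turn), h.w1, h.w2, fun p hp t ht => ?_,
    -(b + (2 * l : ℝ)), -(a + (2 * l : ℝ)), by rw [e]; ring, by simpa [k] using b2,
    by simpa [k] using b1, by simpa [k] using a2, by simpa [k] using a1, fun z hz hz' => ?_⟩
  · exact h.mx _ ((k _).1 ht) t (by simpa [k] using hp)
  · have := m _ ((k _).1 hz') (by simpa [k] using hz)
    simp at this ⊢
    constructor <;> linarith [this.1, this.2]

theorem kl (hx : Sup K x ν) (hy : Sup K y μ) (h : ¬key x ν ≤ key y μ) : x = y ∧ μ < ν ∨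
    ∃ s κ : ℝ, 0 < s ∧ μ ≤ κ ∧ κ ≤ ν ∧ x - y = s * (I * ex κ) := by
  obtain ⟨s, κ, s0, k1, k2, e⟩ := chord hy hx (le_of_not_ge h)
  rcases s0.eq_or_lt with rfl | s0
  · obtain rfl : x = y := by simpa [sub_eq_zero] using e
    exact Or.inl ⟨rfl, (k1.trans k2).lt_of_ne fun e => h (e ▸ le_rfl)⟩
  · exact Or.inr ⟨s, κ, s0, k1, k2, e⟩

theorem ord (hK : Convex ℝ K) (h : Base K l M n) (g : Side K l U n1 n2) :
    key (M + (2 * l : ℝ)) n ≤ key (U + l) n1 ∧ key (U + l) n1 ≤ key U n2 ∧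
      key U n2 ≤ key M (n + π) := by
  have hM := half hK h.s3.1 h.s0.1 h.s3.1
  have t := g.top _ hM.1 hM.2
  simp only [sub_self, mul_zero, add_zero] at t
  refine ⟨by_contra fun c => ?_, lex_le.2 ?_, by_contra fun c => ?_⟩
  · rcases kl h.s0 g.s1 c with ⟨e, c⟩ | ⟨s, κ, s0, k1, k2, e⟩
    · exact c.not_ge (g.m1 _ h.w2.le (e ▸ h.s0))
    · have := congrArg im e
      simp [ex] at this
      linarith [mul_pos s0 (cos_pos_of_mem_Ioo (x := κ) ⟨by linarith [g.w1], by linarith [h.w2]⟩)]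
  · rcases (g.w2.trans g.w3).lt_or_eq with c | c
    · exact Or.inl c
    · refine Or.inr ⟨c, ?_⟩
      rw [← c, g.w2.antisymm (c ▸ g.w3)]
      simpa [dt, ex] using h.l0.le
  · rcases kl g.s2 h.s3 c with ⟨e, c⟩ | ⟨s, κ, s0, k1, k2, e⟩
    · exact c.not_ge (g.m2 _ (by linarith [h.w1]) (e ▸ h.s3))
    · have := congrArg im e
      simp [ex] at this
      linarith [mul_neg_of_pos_of_neg s0 (cos_neg_of_pi_div_two_lt_of_lt (x := κ)
        (by linarith [h.w1]) (by linarith [g.w4]))]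

theorem core (hK : Convex ℝ K) {w w' e : ℂ} (hM : M ∈ K) (hT : M + 2 * w' ∈ K) (hx : x ∈ K)
    (hx' : x - w ∈ K) (hD : dt w' w * dt w' (x - M) < 0) (sup : ∀ z ∈ K, ip e z ≤ ip e x)
    (e0 : 0 < ip e w') (mx : ∀ a ∈ K, ∀ r : ℝ, a + r * w ∈ K → r ≤ 2) : x - w' ∈ K := by
  have D0 : dt w' w ≠ 0 := fun h => by simp [h] at hD
  obtain ⟨a, b, b0, rfl⟩ : ∃ a b : ℝ, 0 < b ∧ x = M + a * w' - b * w := by
    refine ⟨dt (x - M) w / dt w' w, -dt w' (x - M) / dt w' w, ?_, ?_⟩
    · rw [← mul_div_mul_left _ _ D0]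
      exact div_pos (by linarith) (mul_self_pos.2 D0)
    · apply Complex.ext <;> simp only [add_re, add_im, sub_re, sub_im, mul_re, mul_im, ofReal_re,
        ofReal_im] <;> field_simp <;> simp only [dt, sub_re, sub_im] <;> ring
  have b1 : 0 < b + 1 := by linarith
  have b2 : (b : ℂ) + 1 ≠ 0 := by exact_mod_cast b1.ne'
  have b3 : b / (b + 1) ≤ 1 := (div_le_one b1).2 (by linarith)
  have a2 : 2 ≤ a := by
    have := sup _ (cmb hK hT hx' (t := b / (b + 1)) (by positivity) b3)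
    rw [show M + 2 * w' + (b / (b + 1) : ℝ) * (M + a * w' - b * w - w - (M + 2 * w')) =
      M + a * w' - b * w + ((2 - a) / (b + 1) : ℝ) * w' by push_cast; field_simp; ring] at this
    have h2 : (2 - a) / (b + 1) * ip e w' ≤ 0 := by
      simp only [ip, add_re, add_im, mul_re, mul_im, ofReal_re, ofReal_im] at this ⊢
      linarith
    have h3 := nonpos_of_mul_nonpos_left h2 e0
    rw [div_nonpos_iff] at h3
    rcases h3 with h3 | h3 <;> linarith [h3.1, h3.2]
  have a3 : (a : ℂ) ≠ 0 := by exact_mod_cast (by linarith : a ≠ 0)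
  rcases le_or_gt (b + 1) a with h | h
  · convert cmb hK hx (cmb hK hM hx' (t := b / (b + 1)) (by positivity) b3) (t := (b + 1) / a)
      (by positivity) ((div_le_one (by linarith)).2 h) using 1
    push_cast
    field_simp
    ring
  · have := mx _ (cmb hK hM hx' (t := 2 / a) (by positivity) ((div_le_one (by linarith)).2 a2))
      (2 * (b + 1) / a) (by
        convert hT using 1
        push_cast
        field_simp
        ring)
    rw [div_le_iff₀ (by linarith)] at this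
    linarith

theorem unr {t : ℝ} (h : Sup (Kr K t) x ν) : Sup K (ex t * x) (ν + t) := h.rot t fun _ => Iff.rfl

theorem kr_inv (t : ℝ) (z : ℂ) : ex t * (ex (-t) * z) = z := by
  rw [← mul_assoc, ← ex_add, add_neg_cancel, ex_zero, one_mul]

theorem mono1 (hK : Convex ℝ K) (d0 : 0 < d) (d1 : d < π / 2) (h : Base K l M n)
    (g : Side K l U n1 n2) (h' : Base (Kr K d) l' M' n') (g' : Side (Kr K d) l' U' n1' n2') :
    key (U + l) n1 ≤ key (ex d * (U' + l')) (n1' + d) ∧ key U n2 ≤ key (ex d * U') (n2' + d) := by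
  have sd : 0 < sin d := sin_pos_of_pos_of_lt_pi d0 (by linarith)
  have hM := half hK h.s3.1 h.s0.1 h.s3.1
  have t := g.top _ hM.1 hM.2
  have hM' := half (K := Kr K d) (hK.linear_preimage (LinearMap.mulLeft ℝ (ex d))) h'.s3.1 h'.s0.1
    h'.s3.1
  have t' := g'.top _ hM'.1 hM'.2
  simp only [sub_self, mul_zero, add_zero] at t t'
  have ll := mul_pos (mul_pos h.l0 h'.l0) sd
  have cs := Real.cos_sq_add_sin_sq d
  refine ⟨by_contra fun c => ?_, by_contra fun c => ?_⟩
  · rcases kl g.s1 (unr g'.s1) c with ⟨e, c⟩ | ⟨s, κ, s0, k1, k2, e⟩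
    · have := g'.m1 (n1 + -d) (by linarith [g.w2]) (by
        have := g.s1.rot (K' := Kr K d) (-d) fun z => by simp only [Kr, mem_ofPred_eq, kr_inv]
        rwa [e, ← mul_assoc, ← ex_add, neg_add_cancel, ex_zero, one_mul] at this)
      linarith
    have c1 := mul_pos s0 (cos_pos_of_mem_Ioo (x := κ - d)
      ⟨by linarith [g'.w1], by linarith [g.w2]⟩)
    have c2 := mul_pos h'.l0 (cos_pos_of_mem_Ioo (x := n1 - d)
      ⟨by linarith [g'.w1], by linarith [g.w2]⟩)
    have e2 : U + l - ex d * l' = ex d * (U' + s * (I * ex (κ - d))) := by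
      rw [mul_add, mul_left_comm, mul_left_comm (ex d), ← ex_add, add_sub_cancel, ← e]; ring
    have m := core hK (w := l) (w' := ex d * l') (e := ex n1) (M := ex d * M') h'.s3.1
      (by convert h'.s0.1.out using 1; push_cast; ring) g.s1.1 (by simpa using g.s2.1)
      (by
        rw [eq_add_of_sub_eq e2, ← mul_add, ← mul_sub, dt_ex]
        simp [dt, ex] at c1 ⊢
        nlinarith [mul_pos (mul_pos ll h'.l0) (by linarith : 0 < U'.im + s * cos (κ - d) - M'.im)])
      g.s1.2 (by rw [Real.cos_sub] at c2; simp [ip, ex]; linarith) fun a ha r hr => by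
        have := h.mx a ha (r * l) (by simpa using hr)
        exact le_of_mul_le_mul_right this h.l0
    have := g'.top (U' + s * (I * ex (κ - d))) (by rwa [e2] at m) (by
      show ex d * _ ∈ K
      rw [mul_add, ← e2]
      simpa using g.s1.1)
    simp [ex] at this
    linarith
  · rcases kl g.s2 (unr g'.s2) c with ⟨e, c⟩ | ⟨s, κ, s0, k1, k2, e⟩
    · exact c.not_ge (g.m2 _ (by linarith [g'.w3]) (e ▸ unr g'.s2))
    have c1 := mul_neg_of_pos_of_neg s0 (cos_neg_of_pi_div_two_lt_of_lt (x := κ)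
      (by linarith [g'.w3]) (by linarith [g.w4]))
    have c2 := mul_neg_of_pos_of_neg h.l0 (cos_neg_of_pi_div_two_lt_of_lt (x := n2' + d)
      (by linarith [g'.w3]) (by linarith [g.w4]))
    have e2 : (ex d * U').im = U.im - s * cos κ := by
      have := congrArg im e
      simp [ex] at this ⊢
      linarith
    have m := core hK (w := -(ex d * l')) (w' := -l) (e := ex (n2' + d)) (M := M + (2 * l : ℝ))
      (x := ex d * U') h.s0.1 (by simpa using h.s3.1) g'.s2.1
      (by convert g'.s1.1.out using 1; ring)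
      (by
        simp only [dt, sub_im, e2]
        simp [ex]
        nlinarith [mul_pos (mul_pos ll h.l0) (by linarith : 0 < U.im - s * cos κ - M.im)])
      (unr g'.s2).2 (by simp [ip, ex]; linarith) fun a ha r hr => by
        have := h'.mx (ex (-d) * (a + r * -(ex d * l'))) (by
          simpa only [Kr, mem_ofPred_eq, kr_inv] using hr) (r * l') (by
            show ex d * _ ∈ K
            rw [mul_add, kr_inv]
            convert ha using 1
            push_cast
            ring)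
        exact le_of_mul_le_mul_right this h'.l0
    have := g.top _ g'.s2.1 (by simpa using m)
    linarith

theorem line (hK : Convex ℝ K) {a b z : ℂ} (ha : a ∈ K) (hb : b ∈ K) (h1 : ip (ex ν) a = ip (ex ν) z)
    (h2 : ip (ex ν) b = ip (ex ν) z) (h3 : dt (ex ν) a < dt (ex ν) z)
    (h4 : dt (ex ν) z < dt (ex ν) b) : z ∈ K := by
  have h5 : 0 < dt (ex ν) b - dt (ex ν) a := by linarith
  convert cmb hK ha hb (t := (dt (ex ν) z - dt (ex ν) a) / (dt (ex ν) b - dt (ex ν) a))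
    (div_nonneg (by linarith) h5.le) ((div_le_one h5).2 (by linarith)) using 1
  conv_lhs => rw [decomp ν z]
  conv_rhs => enter [1]; rw [decomp ν a]
  conv_rhs => enter [2, 2]; rw [decomp ν a, decomp ν b]
  rw [← mul_sub, mul_left_comm, ← mul_add, h1, h2]
  congr 1
  apply Complex.ext <;> simp only [add_re, add_im, sub_re, sub_im, mul_re, mul_im, ofReal_re,
    ofReal_im] <;> field_simp <;> ring

theorem mono0 (hK : Convex ℝ K) (d0 : 0 < d) (d1 : d < π / 2) (h : Base K l M n)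
    (h' : Base (Kr K d) l' M' n') :
    key (M + (2 * l : ℝ)) n ≤ key (ex d * (M' + (2 * l' : ℝ))) (n' + d) := by
  have sd : 0 < sin d := sin_pos_of_pos_of_lt_pi d0 (by linarith)
  have a1 := h.s0.2 _ h'.s0.1
  have a2 := h.s3.2 _ h'.s3.1
  have a3 := (unr h'.s0).2 _ h.s0.1
  have a4 := (unr h'.s3).2 _ h.s3.1
  have ipi : ∀ t z, ip (ex (t + π)) z = -ip (ex t) z := fun t z => by simp [ip, ex]; ring
  have iad : ∀ w y z, ip w (y + z) = ip w y + ip w z := fun w y z => by simp [ip]; ring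
  have dad : ∀ w y z, dt w (y + z) = dt w y + dt w z := fun w y z => by simp [dt]; ring
  have i1 : ∀ t s : ℝ, ip (ex t) s = s * cos t := fun t s => by simp [ip, ex]; ring
  have i2 : ∀ t s : ℝ, ip (ex t) (ex d * s) = s * cos (t - d) := fun t s => by
    simp [ip, ex, Real.cos_sub]; ring
  rw [add_right_comm] at a4
  simp only [ipi, mul_add, iad, i1, i2, add_sub_cancel_right] at a1 a2 a3 a4
  have c1 : 0 < cos n := cos_pos_of_mem_Ioo ⟨h.w1, h.w2⟩
  have c2 : 0 < cos n' := cos_pos_of_mem_Ioo ⟨h'.w1, h'.w2⟩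
  rcases lt_trichotomy n (n' + d) with c | rfl | c
  · exact lex_le.2 (Or.inl c)
  swap
  · have c3 : 0 < cos (n - d) := cos_pos_of_mem_Ioo ⟨by linarith [h'.w1], by linarith [h.w2]⟩
    have c4 : 0 < cos (n' + d) := cos_pos_of_mem_Ioo ⟨by linarith [h'.w1], by linarith [h.w2]⟩
    have c5 := mul_pos sd (sin_pos_of_pos_of_lt_pi (x := n - (n' + d)) (by linarith)
      (by linarith [h'.w1, h.w2]))
    have c6 := mul_le_mul (by linarith : l' * cos (n - d) ≤ l * cos n)
      (by linarith : l * cos (n' + d) ≤ l' * cos n') (by linarith [mul_pos h.l0 c4])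
      (by linarith [mul_pos h.l0 c1])
    have c7 : cos (n - d) * cos (n' + d) - cos n * cos n' = sin d * sin (n - (n' + d)) := by
      rw [show cos n' = cos (n' + d - d) by simp, Real.cos_sub n, Real.cos_sub (n' + d),
        Real.sin_sub]
      ring
    nlinarith [mul_pos (mul_pos h.l0 h'.l0) c5]
  refine lex_le.2 (Or.inr ⟨rfl, ?_⟩)
  obtain ⟨a, b, rfl, p1, p2, p3, p4, p5⟩ := h.mid
  obtain ⟨a', b', rfl, q1, q2, q3, q4, q5⟩ := h'.mid
  rw [add_sub_cancel_right] at a1
  have f : ∀ z ∈ K, ∀ u, z + u ∈ K → ip (ex (n' + d)) u = 2 * l * cos (n' + d) →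
      ip (ex (n' + d)) z = ip (ex (n' + d)) ((a + b) / 2) := fun z hz u hu e => by
    have b1 := h.s0.2 _ hu
    have b2 := h.s3.2 _ hz
    simp only [ipi, iad, i1] at b1 b2
    linarith
  have e0 : ip (ex (n' + d)) (ex d * (2 * l' : ℝ)) = 2 * l * cos (n' + d) := by
    rw [i2, add_sub_cancel_right]; linarith
  have fa := f a p1 _ p2 (i1 _ _)
  have fb := f b p3 _ p4 (i1 _ _)
  have fa' := f _ q1 _ (by simpa only [mul_add] using q2.out) e0
  have fb' := f _ q3 _ (by simpa only [mul_add] using q4.out) e0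
  have s1 : dt (ex (n' + d)) (2 * l : ℝ) < dt (ex (n' + d)) (ex d * (2 * l' : ℝ)) := by
    refine lt_of_mul_lt_mul_right ?_ c1.le
    have := Real.cos_sq_add_sin_sq (n' + d)
    simp only [ip, dt, ex, mul_re, mul_im, ofReal_re, ofReal_im] at e0 ⊢
    have e3 : 2 * l' * sin d = (cos (n' + d) * (cos d * 0 + sin d * (2 * l')) - sin (n' + d) *
        (cos d * (2 * l') - sin d * 0)) * cos (n' + d) -
        (cos (n' + d) * 0 - sin (n' + d) * (2 * l)) * cos (n' + d) := by
      linear_combination (-2 * l' * sin d) * this + sin (n' + d) * e0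
    linarith [mul_pos h'.l0 sd]
  have iz : ∀ (s t : ℝ), (s * (I * ex t)).im = s * cos t := fun s t => by simp [ex]
  have dz : ∀ y z, ip (ex (n' + d)) y = ip (ex (n' + d)) z →
      y = z + (dt (ex (n' + d)) y - dt (ex (n' + d)) z : ℝ) * (I * ex (n' + d)) := fun y z e => by
    conv_lhs => rw [decomp (n' + d) y, e]
    conv_rhs => enter [1]; rw [decomp (n' + d) z]
    simp [Complex.ext_iff]; constructor <;> ring
  have isb : ∀ w y z, ip w (y - z) = ip w y - ip w z := fun w y z => by simp [ip]; ring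
  have dsb : ∀ w y z, dt w (y - z) = dt w y - dt w z := fun w y z => by simp [dt]; ring
  have k1 : dt (ex (n' + d)) (a + (2 * l : ℝ)) ≤ dt (ex (n' + d)) (ex d * a' + ex d * (2 * l' : ℝ)) := by
    by_contra! c
    rw [dad, dad] at c
    have e1 : ip (ex (n' + d)) (ex d * a' + ex d * (2 * l' : ℝ) - (2 * l : ℝ)) =
      ip (ex (n' + d)) a := by rw [isb, iad, i1]; linarith
    have := (p5 _ (line hK q1 p1 (by linarith) e1.symm (by rw [dsb, dad]; linarith)
      (by rw [dsb, dad]; linarith)) (by simpa only [mul_add, sub_add_cancel] using q2.out)).1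
    rw [dz _ _ e1, dsb, dad, add_im, iz, le_add_iff_nonneg_right] at this
    linarith [nonneg_of_mul_nonneg_left this c1]
  have k2 : dt (ex (n' + d)) (b + (2 * l : ℝ)) ≤ dt (ex (n' + d)) (ex d * b' + ex d * (2 * l' : ℝ)) := by
    by_contra! c
    rw [dad, dad] at c
    have e1 : ip (ex (n' + d)) (b + (2 * l : ℝ) - ex d * (2 * l' : ℝ)) =
      ip (ex (n' + d)) (ex d * b') := by rw [isb, iad, i1]; linarith
    have m := line hK q3 p3 e1.symm (by linarith) (by rw [dsb, dad]; linarith)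
      (by rw [dsb, dad]; linarith)
    have := (q5 (ex (-d) * (b + (2 * l : ℝ) - ex d * (2 * l' : ℝ)))
      (by simpa only [Kr, mem_ofPred_eq, kr_inv] using m)
      (by simpa only [Kr, mem_ofPred_eq, kr_inv, mul_add, sub_add_cancel] using p4)).2
    rw [dz _ _ e1, dsb, dad, mul_add, ← mul_assoc, ← ex_add, neg_add_cancel, ex_zero, one_mul,
      mul_left_comm, mul_left_comm (ex (-d)), ← ex_add, neg_add_cancel_comm_assoc, add_im, iz,
      add_le_iff_nonpos_right] at this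
    linarith [nonpos_of_mul_nonpos_left this c2]
  simp only [dt, add_re, add_im, mul_re, mul_im, div_ofNat_re, div_ofNat_im] at k1 k2 ⊢
  linarith

end Pool.Agent.MP_5c967c_co.H80R
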