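import Pool.Agent.MP_5c967c_co.H44.Chk

/-! A checker for branch and bound certificates on cyclically ordered boundary points
(definitions only), written for evaluation by the kernel. -/

namespace Pool.Agent.MP_5c967c_co.H80R

open H44

/-- the parameters -/
structure Par where
  p : ℕ
  N : ℕ
  G : ℕ
  NG : ℕ
  q : ℕ
  r : ℕ
  m : ℕ
  n : ℕ
  Lm : ℕ
  CT : ℕ

/-- index of a marker -/
def mk (P : Par) (h : ℕ) : ℕ :=
  Nat.add (Nat.mul (Nat.div h (Nat.mul 2 P.G)) P.m) (Nat.add P.r (Nat.mod h (Nat.mul 2 P.G)))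

/-- index of the first point of a half configuration -/
def lo (P : Par) (c : ℕ) : ℕ :=
  Nat.add (Nat.mul (Nat.div (Nat.div c P.N) 2) P.m) (Nat.add (Nat.succ (Nat.mul 6 (Nat.mod c P.N)))
    (Nat.mul 3 (Nat.mod (Nat.div c P.N) 2)))

/-- index of the last point of a half configuration -/
def hi (P : Par) (c : ℕ) : ℕ :=
  Nat.add (Nat.mul (Nat.add (Nat.div (Nat.div c P.N) 2) (Nat.mul (Nat.mod (Nat.div c P.N) 2) P.p))
    P.m) (Nat.add (Nat.succ (Nat.mul 6 (Nat.mod c P.N)))
      (Nat.mul 3 (Nat.sub 1 (Nat.mod (Nat.div c P.N) 2))))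

/-- direction of a half configuration -/
def ang (P : Par) (c : ℕ) : ℕ := c % P.N + c / P.N % 2 * (2 * P.q) + c / P.N / 2 * P.G

/-- the initial order relations -/
def roots (P : Par) : List (ℕ × ℕ) :=
  (0, 1) :: (mk P 0, 0) :: (0, mk P 1) :: ((List.range P.m).flatMap fun a => [(a, a), (a, a + P.m)]) ++
  ((List.range (2 * P.G)).map fun h => (mk P h, mk P (h + 1))) ++
  (List.range' (2 * P.N * P.p) (2 * P.N)).flatMap fun c =>
    [(mk P (2 * (ang P c - P.q) + 1), lo P c), (lo P c, mk P (2 * (ang P c + P.q))),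
      (lo P c, lo P c + 1), (lo P c + 1, lo P c + 2), (lo P c + 2, hi P c),
      (lo P c + 1, mk P (2 * (ang P c + P.q) + 1)), (mk P (2 * (ang P c + P.q)), lo P c + 2)] ++
    ((List.range (4 * P.N * P.p)).filter fun d => ang P c < ang P d ∧ ang P d ≤ ang P c + 2).flatMap
      fun d => [(lo P c, lo P d), (lo P c + 1, lo P d + 1), (lo P c + 2, lo P d + 2)]

/-- a bit -/
def bit (T i : ℕ) : Bool := Nat.beq 1 (Nat.mod (Nat.shiftRight T i) 2)

/-- position of a relation in the table -/
noncomputable def pos (P : Par) (a b : ℕ) (k : ℕ → Bool) : Bool :=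
  frc a fun a => frc b fun b => frc (Nat.mod a P.m) fun t =>
  band (Nat.ble a P.Lm) (band (Nat.ble (Nat.succ b) P.Lm)
    (k (Nat.add (Nat.mul t (Nat.mul 2 P.Lm)) (Nat.sub (Nat.add (Nat.add b P.Lm) t) a))))

/-- query -/
noncomputable def le (P : Par) (T a b : ℕ) : Bool := pos P a b (bit T)

/-- record a relation -/
noncomputable def put (P : Par) (T a b : ℕ) (k : ℕ → Bool) : Bool :=
  pos P a b fun i => frc (Nat.lor T (Nat.shiftLeft 1 i)) k

/-- record a list of relations -/
noncomputable def puts (P : Par) (l : List (ℕ × ℕ)) (k : ℕ → Bool) : ℕ → Bool :=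
  List.rec (motive := fun _ => ℕ → Bool) k (fun a _ ih T => put P T a.1 a.2 ih) l

/-- one deduction -/
noncomputable def step (P : Par) (T ty a b : ℕ) (k : ℕ → Bool) : Bool :=
  Nat.rec (motive := fun _ => Bool)
    (frc (Nat.mul 2 P.Lm) fun R => band (Nat.ble (Nat.succ b) R)
      (band (bit T (Nat.add (Nat.mul a R) b)) (frc (Nat.mod b P.m) fun t =>
        frc (Nat.lor T (Nat.shiftLeft (Nat.mod (Nat.shiftRight
          (Nat.shiftLeft (look R T t) (Nat.sub b t)) P.Lm) (Nat.shiftLeft 1 R)) (Nat.mul a R))) k)))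
    (fun ty _ => Nat.rec (motive := fun _ => Bool)
      (band (le P T (lo P a) (mk P b)) (put P T (hi P a) (mk P (Nat.add b P.NG)) k))
      (fun _ _ => band (le P T (mk P b) (lo P a)) (put P T (mk P (Nat.add b P.NG)) (hi P a) k))
      ty) ty

/-- a sequence of deductions -/
noncomputable def der (P : Par) (k : ℕ → Bool) (f : ℕ) : ℕ → ℕ → Bool :=
  Nat.rec (motive := fun _ => ℕ → ℕ → Bool) (fun _ _ => false)
    (fun _ ih g T => Nat.rec (motive := fun _ => Bool) (k T) (fun _ _ =>
      frc (Nat.mod (Nat.shiftRight g 2) 1024) fun a =>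
      frc (Nat.mod (Nat.shiftRight g 12) 4096) fun b => frc (Nat.shiftRight g 24) fun g' =>
      step P T (Nat.mod g 4) a b (ih g')) g) f

/-- the index is that of a point -/
def real (P : Par) (a : ℕ) : Bool := Nat.ble (Nat.succ (Nat.mod a P.m)) P.r

/-- a coordinate of a rotated point, as a difference of two packed forms -/
noncomputable def xp (P : Par) (s t ρ : ℕ) (k : ℕ → ℕ → Bool) : Bool :=
  frc ρ fun ρ => frc (look 32 P.CT (Nat.mod ρ P.NG)) fun c =>
  Nat.rec (motive := fun _ => Bool) (k (Nat.mul 8 c) 17179869184) (fun t _ =>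
    frc (look 32 P.CT (Nat.mod (Nat.add ρ P.q) P.NG)) fun d => frc (Nat.mod t 6) fun e =>
    frc (Nat.mul s (Nat.succ (Nat.mul 7 (Nat.div t 6)))) fun o => frc (look 2 1030 e) fun κ =>
    frc (Nat.mul s (look 3 185049 e)) fun u => frc (look 5 406851984 e) fun a =>
    frc (look 4 1150968 e) fun b =>
    frc (Nat.add (Nat.shiftLeft (Nat.add (Nat.mul κ c)
      (Nat.shiftLeft (Nat.add c (Nat.shiftLeft d s)) u)) o)
      (Nat.add (Nat.add (Nat.mul c a) (Nat.mul d b)) 34359738368)) fun U =>
    frc (Nat.add (Nat.shiftLeft (Nat.add κ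
      (Nat.shiftLeft (Nat.succ (Nat.shiftLeft 1 s)) u)) (Nat.add o 31))
      (Nat.add (Nat.mul 8 (Nat.add c d)) (Nat.shiftLeft (Nat.add a b) 31))) fun O => k U O) t

/-- the same for a lifted index -/
noncomputable def xq (P : Par) (s a g : ℕ) (k : ℕ → ℕ → Bool) : Bool :=
  frc (Nat.mod a P.m) fun t =>
  xp P s t (Nat.add (Nat.add (Nat.mul (Nat.div a P.m) P.G) (Nat.div (Nat.pred t) 6)) g) k

/-- a coordinate of a difference of two points -/
noncomputable def two (P : Par) (s a g b h : ℕ) (k : ℕ → ℕ → Bool) : Bool :=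
  xq P s a g fun U O => xq P s b h fun U' O' =>
  frc (Nat.add U O') fun x => frc (Nat.add O U') fun y => k x y

/-- entry of a list -/
noncomputable def nth (l : List ℕ) : ℕ → (ℕ → Bool) → Bool :=
  List.rec (motive := fun _ => ℕ → (ℕ → Bool) → Bool) (fun _ _ => false)
    (fun a _ ih i k => Nat.rec (motive := fun _ => Bool) (k a) (fun j _ => ih j k) i) l

/-- a signed cut -/
noncomputable def cutv (s n c : ℕ) : ℤ :=
  Int.mul (Int.subNatNat 1048576 (Nat.mul 2097152 (Nat.mod c 2))) (pk 16 s n (Nat.div c 2))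

/-- the packed form of a linear constraint -/
noncomputable def lval (P : Par) (cs : List ℕ) (ty a b g s : ℕ) (k : ℤ → Bool) : Bool :=
  Nat.rec (motive := fun _ => Bool) (k (Int.ofNat 8589934592)) (fun ty _ =>
    Nat.rec (motive := fun _ => Bool) (nth cs a fun c => frcI (cutv s P.n c) k) (fun ty _ =>
      frc (Nat.mul (Nat.pred P.NG) g) fun h =>
      Nat.rec (motive := fun _ => Bool)
        (two P s 0 0 b h fun x y => frcI (Int.subNatNat (Nat.add x 2048) y) k)
        (fun _ _ => two P s a h b h fun x y => frcI (Int.subNatNat (Nat.add x 2048) y) k)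
        ty) ty) ty

/-- validity of a linear constraint -/
noncomputable def lok (P : Par) (T ty a b g : ℕ) : Bool :=
  Nat.rec (motive := fun _ => Bool) true (fun ty _ =>
    Nat.rec (motive := fun _ => Bool) true (fun ty _ => band (real P b)
      (Nat.rec (motive := fun _ => Bool) true (fun ty _ => band (real P a)
        (Nat.rec (motive := fun _ => Bool)
          (band (le P T (mk P (Nat.mul 2 g)) a) (band (le P T a b)
            (le P T b (mk P (Nat.succ (Nat.add (Nat.mul 2 g) P.NG))))))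
          (fun ty _ => band (Nat.beq 0 (Nat.mod b P.m)) (band (Nat.ble ty P.p)
            (band (Nat.beq (Nat.mul 2 g) (Nat.mul (Nat.add (Nat.mul 2 (Nat.div b P.m)) ty) P.G))
              (band (le P T b a) (le P T a (Nat.add b (Nat.mul ty P.m))))))) ty)) ty)) ty) ty

/-- the tables of linear constraints -/
noncomputable def mkL (P : Par) (T : ℕ) (cs : List ℕ) (W O : ℕ) (ls : List ℕ) :
    (ℕ → ℕ → List ℤ → Bool) → Bool :=
  List.rec (motive := fun _ => (ℕ → ℕ → List ℤ → Bool) → Bool)
    (fun k => k Nat.zero Nat.zero [])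
    (fun d _ ih k => ih fun A c H => frc (Nat.mod d 32) fun ty =>
      frc (Nat.mod (Nat.shiftRight d 5) 2048) fun a =>
      frc (Nat.mod (Nat.shiftRight d 16) 2048) fun b => frc (Nat.shiftRight d 27) fun g =>
      band (lok P T ty a b g) (lval P cs ty a b g W fun h => lval P cs ty a b g 128 fun z =>
        Int.rec (motive := fun _ => Bool) (fun u => band (Nat.beq 0 (Nat.shiftRight u W))
          (frc (Nat.add u (Nat.shiftLeft A W)) fun A' => frc (Nat.succ c) fun c' =>
            k A' c' (h :: H))) (fun _ => false) (Int.add z (Int.ofNat O)))) ls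

/-- a multiplier -/
def mu (g : ℕ) : ℕ := Nat.shiftLeft (Nat.mod (Nat.shiftRight g 6) 67108864) (Nat.mod g 64)

/-- the points lie in the unit disc -/
noncomputable def disc (P : Par) (W : ℕ) (k : ℤ → ℕ → Bool) (f : ℕ) : ℕ → ℤ → ℕ → Bool :=
  Nat.rec (motive := fun _ => ℕ → ℤ → ℕ → Bool) (fun _ _ _ => false)
    (fun _ ih g Q M => Nat.rec (motive := fun _ => Bool) (k Q M) (fun _ _ =>
      frc (mu g) fun μ => frc (Nat.mod (Nat.shiftRight g 32) 2048) fun a => band (real P a)
      (xq P W a 0 fun x x' => xq P W a (Nat.mul 3 P.q) fun y y' =>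
        xq P 128 a 0 fun z z' => xq P 128 a (Nat.mul 3 P.q) fun u u' =>
        frcI (Int.add Q (Int.mul (Int.ofNat μ) (Int.sub
          (Int.add (Int.mul (Int.subNatNat x x') (Int.subNatNat z z'))
            (Int.mul (Int.subNatNat y y') (Int.subNatNat u u')))
          (Int.ofNat 73786985090931228672)))) fun Q' =>
        frc (Nat.add M μ) fun M' => frc (Nat.shiftRight g 43) fun g' => ih g' Q' M')) g) f

/-- the lattice cells -/
noncomputable def cell (W g : ℕ) (k : ℤ → ℕ → ℕ → Bool) (N : ℕ) : ℤ → ℕ → ℕ → Bool :=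
  Nat.rec (motive := fun _ => ℤ → ℕ → ℕ → Bool) k
    (fun j ih Q M S => frc (look 64 g j) fun μ => frc (Nat.succ (Nat.mul 7 j)) fun o =>
      frcI (Int.sub Q (Int.mul (Int.ofNat (Nat.mul (Nat.shiftLeft μ 62)
        (Nat.add (Nat.shiftLeft 1 (Nat.mul W o)) 8)))
        (Int.subNatNat (Nat.add (Nat.shiftLeft 1 (Nat.mul 128 (Nat.add o 4))) 14)
          (Nat.shiftLeft 1 (Nat.mul 128 (Nat.add o 6)))))) fun Q' =>
      frc (Nat.add M μ) fun M' => frc (Nat.add S μ) fun S' => ih Q' M' S') N

/-- validity of a determinant constraint between two chords -/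
noncomputable def dok (P : Par) (T ty a b x y c : ℕ) : Bool :=
  band (real P y) (band (le P T b x) (band (le P T x y)
    (Nat.rec (motive := fun _ => Bool)
      (band (le P T (mk P (Nat.mul 2 c)) a)
        (le P T y (mk P (Nat.succ (Nat.add (Nat.mul 2 c) P.NG)))))
      (fun _ _ => band (le P T (lo P c) a) (le P T y (hi P c))) ty)))

/-- the second factors of the determinant constraints with a common chord -/
noncomputable def ent (P : Par) (T a b : ℕ) (k : ℕ → ℕ → ℕ → ℕ → ℕ → ℕ → Bool) (f : ℕ) :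
    ℕ → ℕ → ℕ → ℕ → ℕ → ℕ → ℕ → Bool :=
  Nat.rec (motive := fun _ => ℕ → ℕ → ℕ → ℕ → ℕ → ℕ → ℕ → Bool) (fun _ _ _ _ _ _ _ => false)
    (fun _ ih g x x' y y' M S => Nat.rec (motive := fun _ => Bool) (k x x' y y' M S) (fun _ _ =>
      frc (mu g) fun μ => frc (Nat.mod (Nat.shiftRight g 34) 2048) fun z => band (real P z)
      ((fun (go : ℕ → ℕ → ℕ → ℕ → ℕ → ℕ → Bool) => Nat.rec (motive := fun _ => Bool)
        (xq P 128 z 0 fun u u' => xq P 128 z (Nat.mul 3 P.q) fun w w' =>
          go u u' w w' (Nat.add S μ) 45)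
        (fun ty _ => Nat.rec (motive := fun _ => Bool)
          (band (le P T b z) (band (le P T z (Nat.add a (Nat.mul P.p P.m)))
            (two P 128 z 0 a 0 fun u u' => two P 128 z (Nat.mul 3 P.q) a (Nat.mul 3 P.q)
              fun w w' => go u u' w w' S 45)))
          (fun ty _ => frc (Nat.mod (Nat.shiftRight g 45) 2048) fun z' =>
            frc (Nat.mod (Nat.shiftRight g 56) 2048) fun c => band (dok P T ty a b z z' c)
            (two P 128 z' 0 z 0 fun u u' => two P 128 z' (Nat.mul 3 P.q) z (Nat.mul 3 P.q)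
              fun w w' => go u u' w w' S 67)) ty) (Nat.mod (Nat.shiftRight g 32) 4))
      fun u u' w w' S' e => frc (Nat.add x (Nat.mul μ u)) fun x => frc (Nat.add x' (Nat.mul μ u'))
        fun x' => frc (Nat.add y (Nat.mul μ w)) fun y => frc (Nat.add y' (Nat.mul μ w')) fun y' =>
        frc (Nat.add M μ) fun M => frc S' fun S => frc (Nat.shiftRight g e) fun g' =>
        ih g' x x' y y' M S)) g) f

/-- the code of a potential -/
def ev (P : Par) (a : ℕ) : ℕ :=
  Nat.add (Nat.shiftLeft 1 (Nat.mul 128 (Nat.mod a P.m)))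
    (Nat.shiftLeft (Nat.div a P.m) (Nat.mul 128 P.m))

/-- the determinant constraints -/
noncomputable def dets (P : Par) (T W : ℕ) (k : ℤ → ℕ → ℕ → ℕ → Bool) (ds : List ℕ) :
    ℤ → ℕ → ℕ → ℕ → Bool :=
  List.rec (motive := fun _ => ℤ → ℕ → ℕ → ℕ → Bool) k
    (fun g _ ih Q M F F' => frc (Nat.mod g 2048) fun a =>
      frc (Nat.mod (Nat.shiftRight g 11) 2048) fun b =>
      band (real P a) (band (real P b) (band (le P T a b)
        (ent P T a b (fun x x' y y' M' S => two P W b 0 a 0 fun u u' =>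
          two P W b (Nat.mul 3 P.q) a (Nat.mul 3 P.q) fun w w' =>
          frcI (Int.sub (Int.add Q (Int.mul (Int.subNatNat w w') (Int.subNatNat x x')))
            (Int.add (Int.mul (Int.subNatNat u u') (Int.subNatNat y y'))
              (Int.ofNat (Nat.shiftLeft M' 43)))) fun Q' => frc (Nat.add M M') fun M =>
          frc (Nat.add F (Nat.mul S (ev P b))) fun F => frc (Nat.add F' (Nat.mul S (ev P a)))
            fun F' => ih Q' M F F') 4096 (Nat.shiftRight g 22) 0 0 0 0 0 0)))) ds

/-- subtract the squares -/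
noncomputable def sqs (W : ℕ) (ls : List ℕ) : ℕ → ℤ → (ℕ → ℤ → Bool) → Bool :=
  List.rec (motive := fun _ => ℕ → ℤ → (ℕ → ℤ → Bool) → Bool) (fun m Q k => k m Q)
    (fun a _ ih m Q k => frc (Nat.succ m) fun m' =>
      frcI (pk 32 W m' a) fun h => frcI (pk 32 128 m' a) fun l =>
      frcI (Int.sub Q (Int.mul h l)) fun Q' => ih m' Q' k) ls

/-- diagonal dominance of the digits -/
noncomputable def dom (n W τ A : ℕ) : Bool :=
  allLt n fun i => frc (look W A i) fun r =>
    band (Nat.ble (Nat.add 340282366920938463463374607431768211456 (Nat.mul n τ))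
      (Nat.mul 2 (look 128 r i)))
    (allLt i fun j => frc (Nat.add (look 128 r j) (look 128 (look W A j) i)) fun s =>
      band (Nat.ble s (Nat.add 340282366920938463463374607431768211456 τ))
        (Nat.ble 340282366920938463463374607431768211456 (Nat.add s τ)))

/-- check a leaf -/
noncomputable def leaf (P : Par) (T : ℕ) (cs ls gs ds sq : List ℕ) (de ge sh τ : ℕ) : Bool :=
  frc (Nat.mul 128 P.n) fun W => frc (ones 128 P.n) fun o => frc (Nat.shiftLeft o 37) fun O =>
  mkL P T cs W O ls fun A c H => band (Nat.ble 1 c) <|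
  prods W O A c gs H (Int.negSucc 0) Nat.zero fun Q M =>
  disc P W (fun Q M => cell W ge (fun Q M S => dets P T W (fun Q M F F' =>
    frc (Nat.shiftRight (Nat.sub F F') (Nat.mul 128 P.m)) fun w =>
    band (Nat.beq F (Nat.add F' (Nat.shiftLeft w (Nat.mul 128 P.m))))
    (band (Nat.ble (Nat.mul w 892691) (Nat.mul (Nat.mul S P.p) 1000000))
    (band (Nat.ble M 1125899906842624) (band (Nat.ble sh 56)
      (sqs W sq Nat.zero (Int.ofNat 0) fun m R => band (Nat.ble m P.n)
        (frc (Int.toNat (Int.add (Int.add Q (Int.mul (Int.ofNat (Nat.shiftLeft 1 sh)) R))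
          (Int.ofNat (Nat.mul (ones W P.n) (Nat.shiftLeft o 127))))) fun A =>
          dom P.n W τ A)))))) ds Q M 0 0) P.N Q M 0) 4096 de Q M

/-- certificate trees -/
inductive Tr where
  | leaf : List ℕ → List ℕ → List ℕ → List ℕ → ℕ → ℕ → ℕ → ℕ → Tr
  | ord : ℕ → ℕ → Tr → Tr → Tr
  | cut : ℕ → Tr → Tr → Tr
  | der : ℕ → Tr → Tr
  | bad : ℕ → ℕ → ℕ → Tr
  | ref : ℕ → Tr

/-- membership -/
noncomputable def mem (c : ℕ) (l : List ℕ) : Bool :=
  List.rec (motive := fun _ => Bool) false
    (fun a _ ih => Bool.rec (motive := fun _ => Bool) ih true (Nat.beq a c)) l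

/-- the state is stronger than a listed one -/
noncomputable def refOk (T : ℕ) (cs : List ℕ) (R : List (ℕ × List ℕ)) : ℕ → Bool :=
  List.rec (motive := fun _ => ℕ → Bool) (fun _ => false)
    (fun a _ ih i => Nat.rec (motive := fun _ => Bool)
      (band (Nat.beq a.1 (Nat.land a.1 T))
        (List.rec (motive := fun _ => Bool) true (fun c _ ih => band (mem c cs) ih) a.2))
      (fun j _ => ih j) i) R

/-- check a tree -/
noncomputable def chk (P : Par) (R : List (ℕ × List ℕ)) (t : Tr) : List ℕ → ℕ → Bool :=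
  Tr.rec (motive := fun _ => List ℕ → ℕ → Bool)
    (fun ls gs ds sq de ge sh τ cs T => leaf P T cs ls gs ds sq de ge sh τ)
    (fun a b _ _ i1 i2 cs T => band (put P T a b (i1 cs)) (put P T b a (i2 cs)))
    (fun c _ _ i1 i2 cs T => band (frc (Nat.mul 2 c) fun c => i1 (c :: cs) T)
      (frc (Nat.succ (Nat.mul 2 c)) fun c => i2 (c :: cs) T))
    (fun g _ i cs T => der P (i cs) 1000000 g T)
    (fun a h h' _ T => band (real P a) (band (Nat.ble h' h)
      (band (le P T (mk P h) a) (le P T a (mk P h')))))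
    (fun i cs T => refOk T cs R i) t

/-- check a tree from the initial state -/
noncomputable def top (P : Par) (R : List (ℕ × List ℕ)) (t : Tr) : Bool :=
  puts P (roots P) (chk P R t []) 0

end Pool.Agent.MP_5c967c_co.H80R
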