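import Pool.Agent.MP_5c967c_co.H80R.Chk

/-! Certificates. -/

namespace Pool.Agent.MP_5c967c_co.H80R

set_option maxRecDepth 100000

/-- parameters -/
def P11 : Par := ⟨11, 1, 4, 44, 11, 7, 15, 8, 525,
 0xbf593c08bd685538ba37691eb5d7190fb05e3376a9e93cffa299dbf19a9628da9207e7fd891bafb28000000076e4504e6df818036569d7265d66240f5616c3014fa1cc8a4a28e6f145c896e24297aac840a6c3f84000000040a6c3f84297aac845c896e24a28e6f14fa1cc8a5616c3015d66240f6569d7266df8180376e4504e80000000891bafb29207e7fd9a9628daa299dbf1a9e93cffb05e3376b5d7190fba37691ebd685538bf593c08c0000000⟩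

end Pool.Agent.MP_5c967c_co.H80R
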