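import Pool.Agent.MP_5c967c_co.H80R.Chk

/-! Certificates. -/

namespace Pool.Agent.MP_5c967c_co.H80R

set_option maxRecDepth 100000

/-- parameters -/
def P13 : Par := ⟨13, 1, 4, 52, 13, 7, 15, 8, 615,
 0xbf888acdbe23e926bbd74e5eb8ab4fc0b4abc485afe799a0aa709a05a45b2c3d9dbe064296b1d8b28f50f2a687b6df7b800000007849208570af0d5a694e274e6241f9be5ba4d3c3558f65fb501866604b543b7b4754b0404428b1a241dc16da40777533400000004077753341dc16da4428b1a24754b0404b543b7b50186660558f65fb5ba4d3c36241f9be694e274e70af0d5a784920858000000087b6df7b8f50f2a696b1d8b29dbe0642a45b2c3daa709a05afe799a0b4abc485b8ab4fc0bbd74e5ebe23e926bf888acdc0000000⟩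

end Pool.Agent.MP_5c967c_co.H80R
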