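import Pool.Agent.MP_5c967c_co.H80R.Chk

/-! Certificates. -/

namespace Pool.Agent.MP_5c967c_co.H80R

set_option maxRecDepth 100000

/-- parameters -/
def P17 : Par := ⟨17, 1, 4, 68, 17, 7, 15, 8, 795,
 0xbfba1bd7bee90801bd8e8d24bbada000b94a5af9b669f522b312b6d9af4bec0fab1dd455a69190dea1b110879c86fa2b971e955e9183b1c68bc28d5685e7b98d800000007a184673743d72aa6e7c4e3a68e16aa2637905d55e4eef79596e6f2254e22bab50b413f14ced492749960ade46b5a50744526000427172dc4116f7ff4045e429400000004045e4294116f7ff427172dc4452600046b5a50749960ade4ced492750b413f154e22bab596e6f225e4eef79637905d568e16aa26e7c4e3a743d72aa7a1846738000000085e7b98d8bc28d569183b1c6971e955e9c86fa2ba1b11087a69190deab1dd455af4bec0fb312b6d9b669f522b94a5af9bbada000bd8e8d24bee90801bfba1bd7c0000000⟩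

end Pool.Agent.MP_5c967c_co.H80R
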