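import Pool.Agent.MP_5c967c_co.H80R.Chk

/-! Certificates. -/

namespace Pool.Agent.MP_5c967c_co.H80R

set_option maxRecDepth 100000

/-- parameters -/
def P19 : Par := ⟨19, 1, 4, 76, 19, 7, 15, 8, 885,
 0xbfc80a53bf208b29be0aa76abc88450aba9c07bab8494c46b59422b5b2814732af1619beab5894cea74f42d6a30132d99e75ec0e99b560ba94c7e0488fb608c38a88b7c08548fae1800000007ab7051f757748407049f73d6b381fb8664a9f46618a13f25cfecd2758b0bd2a54a76b3250e9e6424d7eb8ce4a6bdd4b47b6b3ba4563f8464377baf641f5589640df74d74037f5ad400000004037f5ad40df74d741f558964377baf64563f84647b6b3ba4a6bdd4b4d7eb8ce50e9e64254a76b3258b0bd2a5cfecd27618a13f2664a9f466b381fb87049f73d757748407ab7051f800000008548fae18a88b7c08fb608c394c7e04899b560ba9e75ec0ea30132d9a74f42d6ab5894ceaf1619beb2814732b59422b5b8494c46ba9c07babc88450abe0aa76abf208b29bfc80a53c0000000⟩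

end Pool.Agent.MP_5c967c_co.H80R
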