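import Pool.Agent.MP_5c967c_co.H80R.Chk

/-! Certificates. -/

namespace Pool.Agent.MP_5c967c_co.H80R

set_option maxRecDepth 100000

/-- parameters -/
def P5 : Par := ⟨5, 1, 4, 20, 5, 7, 15, 8, 255,
 0xbcde1c27b3c6ef37a59e460993c6ef37800000006c3910c95a61b9f74c3910c94321e3d9400000004321e3d94c3910c95a61b9f76c3910c98000000093c6ef37a59e4609b3c6ef37bcde1c27c0000000⟩

end Pool.Agent.MP_5c967c_co.H80R
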