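import Pool.Agent.MP_5c967c_co.H80R.Chk

/-! Certificates. -/

namespace Pool.Agent.MP_5c967c_co.H80R

set_option maxRecDepth 100000

/-- parameters -/
def P7 : Par := ⟨7, 1, 4, 28, 7, 7, 15, 8, 345,
 0xbe65380bb9a97954b20986eaa7e741c59bc4c04d8e3dc8728000000071c2378e643b3fb35818be3b4df67916465686ac419ac7f540000000419ac7f5465686ac4df679165818be3b643b3fb371c2378e800000008e3dc8729bc4c04da7e741c5b20986eab9a97954be65380bc0000000⟩

/-- the box -/
def box : ℕ × List ℕ := (0, [0x100010001000100010001000120010d30,
 0x1000100010001000100010000e000f3d6,
 0x10001000100010001000120010000e7ac,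
 0x100010001000100010000e00100011a60,
 0x100010001000100012001000100010106,
 0x10001000100010000e001000100010106,
 0x10001000100012001000100010000f016,
 0x1000100010000e00100010001000111f6,
 0x1000100012001000100010001000112a0,
 0x100010000e0010001000100010000ef6c,
 0x10001200100010001000100010000f016,
 0x10000e0010001000100010001000111f6,
 0x12001000100010001000100010000ef6c,
 0xe00100010001000100010001000112a0])

end Pool.Agent.MP_5c967c_co.H80R
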