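import Pool.Agent.MP_5c967c_co.H80R.Snd2
import Pool.Agent.MP_5c967c_co.H80R.Cfg

/-! Construction of the geometric data. -/

namespace Pool.Agent.MP_5c967c_co.H80R

open H44 H80L Real Set
open Complex hiding sin cos exp

variable {P : Par}

/-- the points of a half configuration -/
def HC (g : Geo P) (c : ℕ) : Prop := ∃ l M n U n1 n2, Base (Kr g.K (ang P c * P.γ)) l M n ∧
  Side (Kr g.K (ang P c * P.γ)) l U n1 n2 ∧
  (g.x (lo P c) = ex (ang P c * P.γ) * (M + (2 * l : ℝ)) ∧ g.ν (lo P c) = n + ang P c * P.γ) ∧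
  (g.x (lo P c + 1) = ex (ang P c * P.γ) * (U + l) ∧ g.ν (lo P c + 1) = n1 + ang P c * P.γ) ∧
  (g.x (lo P c + 2) = ex (ang P c * P.γ) * U ∧ g.ν (lo P c + 2) = n2 + ang P c * P.γ) ∧
  g.x (hi P c) = ex (ang P c * P.γ) * M ∧ g.ν (hi P c) = n + π + ang P c * P.γ

theorem kr_cvx {K : Set ℂ} (hK : Convex ℝ K) (t : ℝ) : Convex ℝ (Kr K t) :=
  hK.linear_preimage (LinearMap.mulLeft ℝ (ex t))

theorem kr_add (K : Set ℂ) (t u : ℝ) : Kr (Kr K t) u = Kr K (t + u) := by
  ext z; simp [Kr, ex_add, mul_assoc]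

theorem lo_real (w : WF P) (c e : ℕ) (he : e ≤ 2) : (lo P c + e) % P.m < P.r := by
  have h1 := Nat.mod_lt c w.hN
  have h2 := w.er
  have h3 := w.em
  have h4 := Nat.mod_lt (c / P.N) two_pos
  show (c / P.N / 2 * P.m + (6 * (c % P.N) + 1 + 3 * (c / P.N % 2)) + e) % P.m < _
  rw [add_assoc, Nat.mul_add_mod_self_right, Nat.mod_eq_of_lt (by omega)]
  omega

theorem roots_ok (g : Geo P) (w : WF P) (hq : 2 < P.q) (hK : Convex ℝ g.K) (h01 : g.k 0 ≤ g.k 1)
    (hc : ∀ c, HC g c) : ∀ a ∈ roots P, g.k a.1 ≤ g.k a.2 := by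
  have γ0 := w.γ0
  have q2 := w.q2
  have r0 : 0 % P.m < P.r := by have := w.er; rw [Nat.zero_mod]; omega
  simp only [roots, List.forall_mem_cons, List.forall_mem_append, List.forall_mem_flatMap,
    List.forall_mem_map, List.forall_mem_filter, List.mem_range, List.mem_range'_1,
    decide_eq_true_eq, List.not_mem_nil, IsEmpty.forall_iff, implies_true, and_true]
  refine ⟨⟨⟨h01, (mk_le r0).2 (by simp [g.ν0]), (le_mk r0).2 (by simp [g.ν0]), fun a _ =>
    ⟨le_rfl, lex_le.2 (Or.inl ?_)⟩⟩, fun h _ => lex_le.2 ?_⟩, fun c ⟨c1, c2⟩ => ?_⟩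
  · have := g.νs a 1
    rw [one_mul, Nat.cast_one] at this
    linarith [mul_pos (by exact_mod_cast w.hG : (0 : ℝ) < P.G) γ0]
  · rw [(g.mkr h).2, (g.mkr (h + 1)).2, (g.mkr h).1, (g.mkr (h + 1)).1]
    rcases Nat.mod_two_eq_zero_or_one h with e | e
    · exact Or.inr ⟨by rw [show (h + 1) / 2 = h / 2 by omega], by
        rw [if_pos e, if_neg (by omega)]; norm_num⟩
    · refine Or.inl ?_
      rw [show (h + 1) / 2 = h / 2 + 1 by omega]
      push_cast
      linarith
  obtain ⟨l, M, n, U, n1, n2, b, s, e0, e1, e2, e3⟩ := hc c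
  have o := ord (kr_cvx hK _) b s
  have aq : P.q ≤ ang P c := by
    have : P.p ≤ c / P.N / 2 := by
      rw [Nat.div_div_eq_div_mul, Nat.le_div_iff_mul_le (by have := w.hN; omega)]
      linarith
    have := Nat.mul_le_mul_right P.G this
    have := mul_comm P.G _ ▸ w.eG
    have := w.eq
    unfold ang
    omega
  have f1 : (((2 * (ang P c - P.q) + 1) / 2 : ℕ) : ℝ) * P.γ = ang P c * P.γ - π / 2 := by
    rw [show (2 * (ang P c - P.q) + 1) / 2 = ang P c - P.q by omega, Nat.cast_sub aq]; linarith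
  have f2 : ((2 * (ang P c + P.q) / 2 : ℕ) : ℝ) * P.γ = ang P c * P.γ + π / 2 := by
    rw [show 2 * (ang P c + P.q) / 2 = ang P c + P.q by omega, Nat.cast_add]; linarith
  have f3 : (((2 * (ang P c + P.q) + 1) / 2 : ℕ) : ℝ) * P.γ = ang P c * P.γ + π / 2 := by
    rw [← f2]; congr 2; omega
  refine ⟨⟨(mk_le (w.lohi c).1).2 (Or.inl (by linarith [b.w1, e0.2])),
    (le_mk (w.lohi c).1).2 (Or.inl (by linarith [b.w2, e0.2])), ?_, ?_, ?_,
    (le_mk (lo_real w c 1 one_le_two)).2 ?_, (mk_le (lo_real w c 2 le_rfl)).2 ?_⟩,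
    fun d _ ⟨d1, d2⟩ => ?_⟩
  · simpa only [Geo.k, e0, e1, key_rot] using o.1
  · simpa only [Geo.k, e1, e2, key_rot] using o.2.1
  · simpa only [Geo.k, e2, e3, key_rot] using o.2.2
  · exact s.w2.lt_or_eq.imp (fun h => by linarith [e1.2]) fun h => ⟨by linarith [e1.2], by omega⟩
  · exact s.w3.lt_or_eq.imp (fun h => by linarith [e2.2]) fun h => ⟨by linarith [e2.2], by omega⟩
  obtain ⟨l', M', n', U', n1', n2', b', s', e0', e1', e2', -⟩ := hc d
  obtain ⟨δ, hδ⟩ : ∃ δ, ang P d * P.γ = ang P c * P.γ + δ := ⟨_, (add_sub_cancel _ _).symm⟩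
  have d1 : (ang P c : ℝ) < ang P d := by exact_mod_cast d1
  have d2 : (ang P d : ℝ) ≤ ang P c + 2 := by exact_mod_cast d2
  have hq : (2 : ℝ) < P.q := by exact_mod_cast hq
  have δ0 : 0 < δ := by nlinarith
  have δ1 : δ < π / 2 := by nlinarith
  rw [hδ, ← kr_add] at b' s'
  have m0 := mono0 (kr_cvx hK _) δ0 δ1 b b'
  have m1 := mono1 (kr_cvx hK _) δ0 δ1 b s b' s'
  simp only [Geo.k, e0, e1, e2, e0', e1', e2', hδ, ex_add, mul_assoc, ← add_assoc,
    add_right_comm _ _ δ, key_rot]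
  exact ⟨m0, m1⟩

theorem kr_body {K : Set ℂ} (hc : IsCompact K) (hi : (interior K).Nonempty) (t : ℝ) :
    IsCompact (Kr K t) ∧ (interior (Kr K t)).Nonempty := by
  have h : ex t ≠ 0 := norm_ne_zero_iff.1 (by rw [norm_ex]; exact one_ne_zero)
  refine ⟨(Homeomorph.mulLeft₀ _ h).isCompact_preimage.2 hc, ?_⟩
  rw [show Kr K t = Homeomorph.mulLeft₀ _ h ⁻¹' K from rfl, ← Homeomorph.preimage_interior]
  exact hi.preimage (Homeomorph.surjective _)

theorem con_pos {K : Set ℂ} {l : ℝ} {M U L : ℂ} (hK : Convex ℝ K) (hi : (interior K).Nonempty)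
    (h : Con K l M U L) : 0 < 2 * l * (U.im - L.im) := by
  have ⟨q, hq⟩ := hi
  obtain ⟨t, t0, -, ht⟩ := mv hq 1
  have l0 : 0 < l := by linarith [h.mx q (interior_subset hq) t (by simpa using ht)]
  obtain ⟨z, hz, e⟩ := off hi M.im
  have h1 := half hK h.hM h.hT hz
  have h2 := half hK h.hM h.hT h.hM
  have h3 := h.ex _ h1.1 h1.2
  have h4 := h.ex _ h2.1 h2.2
  simp at h3 h4
  refine mul_pos (by linarith) ?_
  rcases e.lt_or_gt with e | e <;> linarith [h3.1, h3.2, h4.1, h4.2]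

theorem con_of {K : Set ℂ} {l n n1 n2 m1 m2 : ℝ} {M U U' : ℂ} (b : Base K l M n)
    (s : Side K l U n1 n2) (s' : Side (Kr K π) l U' m1 m2) : Con K l M U (-(U' + l)) := by
  have k : ∀ z, z ∈ Kr K π ↔ -z ∈ K := fun z => by simp [Kr, ex_pi]
  refine ⟨b.s3.1, b.s0.1, b.mx, s.s2.1, s.s1.1, (k _).1 s'.s1.1, by simpa [k] using s'.s2.1,
    fun p hp hq => ⟨?_, s.top p hp hq⟩⟩
  have := s'.top (-(p + l)) (by simpa [k] using hq) (by simpa [k] using hp)
  simp at this ⊢
  linarith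

theorem link (w : WF P) (hq : 2 < P.q) {K : Set ℂ} {A : ℝ} (hc : IsCompact K) (hK : Convex ℝ K)
    (hI : (interior K).Nonempty) (hd : ∀ z ∈ K, ‖z‖ ≤ 1) (h1 : 1 ∈ K)
    (inv : ∀ (k : ℤ) z, ex (k * (P.G * P.γ)) * z ∈ K ↔ z ∈ K) (hA : Ar K A)
    (H0 : ∃ l M n, Base K l M n ∧ key 1 0 ≤ key (M + (2 * l : ℝ)) n)
    (har : ∀ t l M U L, Con (Kr K t) l M U L → A ≤ 0.892691 * (2 * l * (U.im - L.im))) :
    ∃ g : Geo P, (∀ a ∈ roots P, g.k a.1 ≤ g.k a.2) ∧ Con K ((g.v 1 + 8) / 8)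
      ⟨(g.v 2 - 8) / 8, g.v 3 / 8⟩ ⟨(g.v 4 - 4) / 8, (g.v 5 + 7) / 8⟩
      ⟨(g.v 6 - 4) / 8, (g.v 7 - 7) / 8⟩ := by
  have k0 : Kr K ((0 : ℕ) * P.γ) = K := by ext z; simp [Kr, ex_zero]
  have hB : ∀ j : ℕ, ∃ l M n, Base (Kr K (j * P.γ)) l M n ∧
      (j = 0 → key 1 0 ≤ key (M + (2 * l : ℝ)) n) := fun j => by
    rcases j with _ | j
    · simpa only [k0, forall_const] using H0
    · obtain ⟨l, M, n, h⟩ := exists_base (kr_body hc hI _).1 (kr_cvx hK _) (kr_body hc hI _).2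
      exact ⟨l, M, n, h, by simp⟩
  choose l M0 n b0 h0 using hB
  obtain ⟨M, b, eM⟩ : ∃ M : ℕ → ℕ → ℂ, (∀ j f : ℕ, f < 2 → Base (Kr K (j * P.γ + f * π)) (l j) (M j f)
      (n j)) ∧ ∀ j, M j 0 = M0 j ∧ M j 1 = -(M0 j + (2 * l j : ℝ)) :=
    ⟨fun j f => if f = 0 then M0 j else -(M0 j + (2 * l j : ℝ)), fun j f hf => by
      interval_cases f
      · simpa using b0 j
      · simpa [kr_add] using (b0 j).neg, fun j => ⟨rfl, rfl⟩⟩
  choose! U n1 n2 s using fun j f hf =>
    exists_side (kr_body hc hI _).1 (kr_cvx hK _) (kr_body hc hI _).2 (b j f hf)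
  have con : ∀ j : ℕ, Con (Kr K (j * P.γ)) (l j) (M0 j) (U j 0) (-(U j 1 + l j)) := fun j =>
    con_of (b0 j) (by simpa using s j 0 two_pos) (by simpa [kr_add] using s j 1 one_lt_two)
  let v : ℕ → ℝ := fun i => match i with
    | 0 => 1
    | i + 1 => match i % 7 with
      | 0 => 8 * l (i / 7) - 8
      | 1 => 8 * (M0 (i / 7)).re + 8
      | 2 => 8 * (M0 (i / 7)).im
      | 3 => 8 * (U (i / 7) 0).re + 4
      | 4 => 8 * (U (i / 7) 0).im - 7
      | 5 => 8 * (-(U (i / 7) 1 + l (i / 7))).re + 4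
      | _ => 8 * (-(U (i / 7) 1 + l (i / 7))).im + 7
  have ev : ∀ j, v (7 * j + 1) = 8 * l j - 8 ∧ v (7 * j + 2) = 8 * (M0 j).re + 8 ∧
      v (7 * j + 3) = 8 * (M0 j).im ∧ v (7 * j + 4) = 8 * (U j 0).re + 4 ∧
      v (7 * j + 5) = 8 * (U j 0).im - 7 ∧ v (7 * j + 6) = 8 * (-(U j 1 + l j)).re + 4 ∧
      v (7 * j + 7) = 8 * (-(U j 1 + l j)).im + 7 := fun j => by
    simp [v, Nat.mul_add_div]
  let y : ℕ → ℕ → ℕ → ℂ × ℝ := fun j f e => match e with
    | 0 => (M j f + (2 * l j : ℝ), n j)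
    | 1 => (U j f + l j, n1 j f)
    | _ => (U j f, n2 j f)
  let z : ℕ → ℂ × ℝ := fun t => if t < P.r then (match t with
    | 0 => (1, 0)
    | t + 1 => (ex ((t / 6 : ℕ) * P.γ + (t % 6 / 3 : ℕ) * π) * (y (t / 6) (t % 6 / 3) (t % 3)).1,
      (y (t / 6) (t % 6 / 3) (t % 3)).2 + ((t / 6 : ℕ) * P.γ + (t % 6 / 3 : ℕ) * π)))
    else ((if (t - P.r) % 2 = 0 then -2 else 2 : ℝ) * (I * ex (((t - P.r) / 2 : ℕ) * P.γ)),
      ((t - P.r) / 2 : ℕ) * P.γ)
  have er := w.er
  have em := w.em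
  have γ0 := w.γ0
  have m0 : 0 < P.m := by omega
  have zs : ∀ t < P.r, Sup K (z t).1 (z t).2 ∧ -π ≤ (z t).2 := by
    rintro (_ | t) ht <;> simp only [z, if_pos ht]
    · refine ⟨⟨h1, fun u hu => ?_⟩, by linarith [pi_pos]⟩
      simpa [ip, ex] using (re_le_norm u).trans (hd u hu)
    have f2 : t % 6 / 3 < 2 := by omega
    have b := b (t / 6) _ f2
    have s := s (t / 6) _ f2
    have : 0 ≤ (t / 6 : ℕ) * P.γ + (t % 6 / 3 : ℕ) * π := by positivity
    simp only [y]
    split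
    exacts [⟨unr b.s0, by linarith [b.w1, pi_pos]⟩, ⟨unr s.s1, by linarith [s.w1, pi_pos]⟩,
      ⟨unr s.s2, by linarith [s.w3, pi_pos]⟩]
  obtain ⟨σ, Sp, p1, p2⟩ := pot hA w.hp (r := P.r) (by omega) w.pg inv (fun t => (z t).1)
    (fun t => (z t).2) (fun t h => (zs t h).1) fun t h => (zs t h).2
  have zl : ∀ a j f e : ℕ, j < P.N → f < 2 → e < 3 →
      (a * P.m + (6 * j + 1 + 3 * f) + e) / P.m = a ∧ z ((a * P.m + (6 * j + 1 + 3 * f) + e) % P.m) =
        (ex (j * P.γ + f * π) * (y j f e).1, (y j f e).2 + (j * P.γ + f * π)) := by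
    intro a j f e hj hf he
    rw [add_assoc, Nat.mul_add_mod_self_right, Nat.mod_eq_of_lt (by omega), add_comm,
      Nat.add_mul_div_right _ _ m0, Nat.div_eq_of_lt (by omega), zero_add,
      show 6 * j + 1 + 3 * f + e = 6 * j + 3 * f + e + 1 by omega]
    simp only [z, if_pos (show 6 * j + 3 * f + e + 1 < P.r by omega), true_and]
    rw [show (6 * j + 3 * f + e) / 6 = j by omega, show (6 * j + 3 * f + e) % 6 / 3 = f by omega,
      show (6 * j + 3 * f + e) % 3 = e by omega]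
  have ea : ∀ c, ang P c * P.γ = (c / P.N / 2 : ℕ) * (P.G * P.γ) +
      ((c % P.N : ℕ) * P.γ + (c / P.N % 2 : ℕ) * π) := fun c => by
    simp only [ang, Nat.cast_add, Nat.cast_mul, Nat.cast_ofNat]
    linear_combination 2 * (c / P.N % 2 : ℕ) * w.q2
  have zh : ∀ c, ex ((hi P c / P.m : ℕ) * (P.G * P.γ)) * (z (hi P c % P.m)).1 =
      ex (ang P c * P.γ) * M (c % P.N) (c / P.N % 2) ∧
      (z (hi P c % P.m)).2 + (hi P c / P.m : ℕ) * (P.G * P.γ) = n (c % P.N) + π + ang P c * P.γ := by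
    intro c
    have := zl (c / P.N / 2 + c / P.N % 2 * P.p) (c % P.N) (1 - c / P.N % 2) 0 (Nat.mod_lt _ w.hN)
      (by omega) three_pos
    change hi P c / _ = _ ∧ z (hi P c % _) = _ at this
    rw [this.1, this.2, ea]
    rcases Nat.mod_two_eq_zero_or_one (c / P.N) with e | e <;> simp only [e, y, eM, ex_add] <;>
      push_cast
    · exact ⟨by simp [ex_pi, ex_zero, mul_assoc], by ring⟩
    · rw [add_mul, one_mul, w.pg]
      exact ⟨by simp [ex_pi, ex_zero, ex_add, ex_two_pi]; ring, by ring⟩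
  let g : Geo P :=
    { K := K
      A := A
      v := v
      x := fun a => ex ((a / P.m : ℕ) * (P.G * P.γ)) * (z (a % P.m)).1
      ν := fun a => (z (a % P.m)).2 + (a / P.m : ℕ) * (P.G * P.γ)
      S := fun t => if t = P.m then Sp else σ t
      v0 := rfl
      x0 := by simp [z, er, ex_zero]
      ν0 := by simp [z, er]
      xs := fun a k => by
        rw [Nat.add_mul_mod_self_right, Nat.add_mul_div_right _ _ m0, ← mul_assoc (ex _), ← ex_add]
        push_cast
        congr 2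
        ring
      νs := fun a k => by
        rw [Nat.add_mul_mod_self_right, Nat.add_mul_div_right _ _ m0]
        push_cast
        ring
      mkr := fun h => by
        have G0 := w.hG
        have e1 := Nat.mod_lt h (show 0 < 2 * P.G by omega)
        have e2 := Nat.div_add_mod h (2 * P.G)
        rw [show mk P h = h / (2 * P.G) * P.m + (P.r + h % (2 * P.G)) from rfl,
          Nat.mul_add_mod_self_right, Nat.mod_eq_of_lt (by omega), add_comm (_ * _),
          Nat.add_mul_div_right _ _ m0, Nat.div_eq_of_lt (by omega), zero_add]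
        simp only [z, if_neg (show ¬P.r + h % (2 * P.G) < P.r by omega), Nat.add_sub_cancel_left]
        rw [mul_assoc] at e2
        refine ⟨?_, ?_⟩
        · rw [show h / 2 = P.G * (h / (2 * P.G)) + h % (2 * P.G) / 2 by omega]
          push_cast
          ring
        · rw [add_comm, ex_add, dt_ex, show h % (2 * P.G) % 2 = h % 2 by omega]
          have := Real.cos_sq_add_sin_sq ((h % (2 * P.G) / 2 : ℕ) * P.γ)
          split_ifs <;> simp [dt, ex] <;> linarith
      sup := fun a ha => (zs _ ha).1.rot _ (by simpa only [Int.cast_natCast] using inv (a / P.m : ℕ))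
      dsc := hd
      crd := fun t ht => by
        have e := zl 0 (t / 6) (t % 6 / 3) (t % 3) (by omega) (by omega) (by omega)
        rw [show _ + t % 3 = t + 1 by omega] at e
        rw [e.1, e.2, cA, cB, show t % 3 = t % 6 % 3 by omega]
        have ev := ev (t / 6)
        have : t % 6 < 6 := by omega
        clear e
        generalize t % 6 = e at *
        generalize t / 6 = j at *
        simp only [Nat.cast_zero, zero_mul, ex_zero, one_mul, ex_add, mul_assoc]
        rw [mul_left_comm]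
        congr 1
        interval_cases e <;>
          simp [y, eM, look, mod_eq, ev, add_assoc, ex_pi, ex_zero, Complex.ext_iff] <;>
          (try constructor) <;> ring
      opp := fun c => by
        have := zl (c / P.N / 2) (c % P.N) (c / P.N % 2) 0 (Nat.mod_lt _ w.hN) (by omega) three_pos
        change lo P c / _ = _ ∧ z (lo P c % _) = _ at this
        rw [(zh c).2, this.1, this.2, ea]
        simp only [y]
        ring
      pt := fun a b c ha hb hc h => by
        simpa only [if_pos, if_neg (Nat.mod_lt _ m0).ne] using p2 _ ha _ hb _ hc _ _ _ h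
      A0 := by simpa using hA 0 (fun _ => 1) (fun _ _ => h1) (by simp [dt])
      sA := by simpa using p1
      ar := fun j _ => by
        have := har _ _ _ _ _ (con j)
        simp only [ev]
        linarith }
  refine ⟨g, roots_ok g w hq hK ?_ fun c => ?_, ?_⟩
  · have := zl 0 0 0 0 w.hN two_pos three_pos
    simp only [zero_mul, mul_zero, add_zero, zero_add, Nat.cast_zero, ex_zero, one_mul, y, eM]
      at this
    rw [Geo.k, g.x0, g.ν0]
    simpa only [Geo.k, g, this, Nat.cast_zero, zero_mul, ex_zero, one_mul, add_zero]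
      using h0 0 rfl
  · have hj := Nat.mod_lt c w.hN
    have hf := Nat.mod_lt (c / P.N) two_pos
    have ek : Kr g.K (ang P c * P.γ) = Kr K ((c % P.N : ℕ) * P.γ + (c / P.N % 2 : ℕ) * π) := by
      ext u
      simpa only [ea, Kr, mem_ofPred_eq, ex_add _ (_ + _), mul_assoc, Int.cast_natCast]
        using inv (c / P.N / 2 : ℕ) _
    have t : ∀ e < 3, g.x (lo P c + e) = ex (ang P c * P.γ) * (y (c % P.N) (c / P.N % 2) e).1 ∧
        g.ν (lo P c + e) = (y (c % P.N) (c / P.N % 2) e).2 + ang P c * P.γ := fun e he => by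
      have := zl (c / P.N / 2) _ _ e hj hf he
      change (lo P c + e) / _ = _ ∧ z ((lo P c + e) % _) = _ at this
      simp only [g, this, ea, ex_add _ (_ + _), mul_assoc, true_and]
      ring
    exact ⟨_, _, _, _, _, _, ek ▸ b _ _ hf, ek ▸ s _ _ hf, t 0 three_pos, t 1 (by omega),
      t 2 (by omega), zh c⟩
  · have := con 0
    have ev := ev 0
    rw [k0] at this
    simp only [mul_zero, zero_add] at ev
    convert this using 1 <;> simp [g, ev, Complex.ext_iff]
    ring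

end Pool.Agent.MP_5c967c_co.H80R
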