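import Pool.Agent.MP_5c967c_co.H80L.K

/-! The local estimate for sets with a symmetry of order seven. -/

namespace Pool.Agent.MP_5c967c_co.H80R

open H46 H80L Set MeasureTheory

variable {C : Set Plane}

theorem edge2 (hC : Convex ℝ C) (hf : volume C ≠ ⊤) (h0 : 0 ∈ C) (φ : ℂ →ₗ[ℝ] Plane) {a b : ℂ}
    (ha : φ a ∈ C) (hb : φ b ∈ C) (hD : 0 ≤ det2 (φ a) (φ b)) {h1 h2 h3 h4 h5 : ℝ}
    (n1 : Nr (φ ⁻¹' C) a b 0.11 0.14 h1) (n2 : Nr (φ ⁻¹' C) a b 0.295 0.325 h2)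
    (n3 : Nr (φ ⁻¹' C) a b 0.49 0.51 h3) (n4 : Nr (φ ⁻¹' C) a b 0.675 0.705 h4)
    (n5 : Nr (φ ⁻¹' C) a b 0.86 0.89 h5) :
    det2 (φ a) (φ b) / 2 * (1 + (0.48 * (h1 + h5) + 0.165 * (h2 + h4) + 0.388 * h3)) ≤
      (volume (C ∩ Sec (φ a) (φ b))).toReal := by
  simp only [Nr, mem_preimage, map_smul, map_add] at n1 n2 n3 n4 n5
  obtain ⟨p1, t1, a1, b1, m1⟩ := n1
  obtain ⟨p2, t2, a2, b2, m2⟩ := n2
  obtain ⟨p3, t3, a3, b3, m3⟩ := n3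
  obtain ⟨p4, t4, a4, b4, m4⟩ := n4
  obtain ⟨p5, t5, a5, b5, m5⟩ := n5
  have f1 := fan3 hC hf h0 ha hb hD (by linarith) (by linarith) (by linarith) (by linarith)
    p1 p3 p5 m1 m3 m5
  have f2 := fan3 hC hf h0 ha hb hD (by linarith) (by linarith) (by linarith) (by linarith)
    p1 p2 p5 m1 m2 m5
  have f3 := fan3 hC hf h0 ha hb hD (by linarith) (by linarith) (by linarith) (by linarith)
    p1 p4 p5 m1 m4 m5
  have k : 1 + (0.48 * (h1 + h5) + 0.165 * (h2 + h4) + 0.388 * h3) ≤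
      0.54 * (1 + h1 * t3 + h3 * (t5 - t1) + h5 * (1 - t3)) +
      0.23 * (1 + h1 * t2 + h2 * (t5 - t1) + h5 * (1 - t2)) +
      0.23 * (1 + h1 * t4 + h4 * (t5 - t1) + h5 * (1 - t4)) := by
    have q : 0.72 ≤ t5 - t1 := by linarith
    have := mul_le_mul_of_nonneg_left a2 p1
    have := mul_le_mul_of_nonneg_left a3 p1
    have := mul_le_mul_of_nonneg_left a4 p1
    have := mul_le_mul_of_nonneg_left b2 p5
    have := mul_le_mul_of_nonneg_left b3 p5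
    have := mul_le_mul_of_nonneg_left b4 p5
    have := mul_le_mul_of_nonneg_left q p2
    have := mul_le_mul_of_nonneg_left q p3
    have := mul_le_mul_of_nonneg_left q p4
    linarith
  have := mul_le_mul_of_nonneg_left k (by positivity : 0 ≤ det2 (φ a) (φ b) / 2)
  linarith

theorem dt_w (e d : ℕ) : dt (w ^ e) (w ^ (e + d)) = (w ^ d).im := by
  simpa [dt, pow_add] using dt_rot e 1 (w ^ d)

theorem w_pos (φ : ℂ →ₗ[ℝ] Plane) {D : ℝ} (D0 : 0 < D) (hD : ∀ z y, det2 (φ z) (φ y) = D * dt z y)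
    (n d : ℕ) (d1 : 1 ≤ d) (d3 : d ≤ 3) : 0 < det2 (φ (w ^ n)) (φ (w ^ (n + d))) := by
  obtain ⟨-, h1, h2, h3, -⟩ := tb_cl
  rw [hD, dt_w]
  refine mul_pos D0 ?_
  interval_cases d <;> linarith [h1.2.2.1, h2.2.2.1, h3.2.2.1]

theorem arith {l Y τ σ h1 h2 h3 : ℝ} (l1 : 0.9484 ≤ l) (l2 : l ≤ 0.9525) (p1 : 0 ≤ h1)
    (p2 : 0 ≤ h2) (p3 : 0 ≤ h3) (t1 : τ ≤ h1 * 0.7819) (t2 : σ ≤ h2 * 0.7819)
    (t3 : 2 * l ≤ 1 + c + c * h3)
    (e : Y = (2 * (4 * c ^ 2 - 2) + 2 * (-20 / 7 - 12 / 7 * c + 36 / 7 * c ^ 2) * l) * s +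
      (-8 / 7 - 2 / 7 * c + 20 / 7 * c ^ 2) * τ + (-6 / 7 + 2 / 7 * c + 8 / 7 * c ^ 2) * σ) :
    dn * (2 * l * Y) ≤ 7 * s / 2 + 1.23 * h1 + 0.44 * h2 + 1.03 * h3 := by
  obtain ⟨c1, c2⟩ := c_bd
  obtain ⟨c3, c4⟩ := c2_bd
  obtain ⟨s1, s2⟩ := s_bd
  obtain ⟨d1, d2⟩ := dn_bd
  have b1 := mul_le_mul_of_nonneg_right
    (show -8 / 7 - 2 / 7 * c + 20 / 7 * c ^ 2 ≤ 0.919 by linarith) p1
  have b2 := mul_le_mul_of_nonneg_right
    (show -6 / 7 + 2 / 7 * c + 8 / 7 * c ^ 2 ≤ 0.328 by linarith) p2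
  have b3 := mul_le_mul_of_nonneg_left t1 (show 0 ≤ -8 / 7 - 2 / 7 * c + 20 / 7 * c ^ 2 by linarith)
  have b4 := mul_le_mul_of_nonneg_left t2 (show 0 ≤ -6 / 7 + 2 / 7 * c + 8 / 7 * c ^ 2 by linarith)
  have b5 : Y ≤ (2 * (4 * c ^ 2 - 2) + 2 * (-20 / 7 - 12 / 7 * c + 36 / 7 * c ^ 2) * l) * s +
      (0.7186 * h1 + 0.2565 * h2) := by linarith
  have b6 : l - (1 + c) / 2 ≤ 0.4505 * h3 := by linarith [mul_le_mul_of_nonneg_right c2 p3]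
  have b8 : dn * ((1 + c) * (2 * (4 * c ^ 2 - 2) + (-20 / 7 - 12 / 7 * c + 36 / 7 * c ^ 2) * (1 + c)))
      = 7 / 2 := by
    rw [dn]
    linear_combination (16559 / 1358 + 3646 / 679 * c - 7498 / 679 * c ^ 2 - 3204 / 679 * c ^ 3) * hc
  have a1 : 0 ≤ 4 * (4 * c ^ 2 - 2) + 4 * (-20 / 7 - 12 / 7 * c + 36 / 7 * c ^ 2) * (1 + c) := by
    linarith [hc]
  have a2 : 4 * (4 * c ^ 2 - 2) + 4 * (-20 / 7 - 12 / 7 * c + 36 / 7 * c ^ 2) * (1 + c) ≤ 3.263 := by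
    linarith [hc]
  have a3 : -20 / 7 - 12 / 7 * c + 36 / 7 * c ^ 2 ≤ 0 := by linarith
  clear e b1 b2 b3 b4 t1 t2 t3 c1 c2 c3 c4
  generalize -20 / 7 - 12 / 7 * c + 36 / 7 * c ^ 2 = k at *
  generalize 4 * c ^ 2 - 2 = y at *
  have b7 : 2 * l * (2 * y + 2 * k * l) ≤ (1 + c) * (2 * y + k * (1 + c)) + 1.47 * h3 := by
    linarith [mul_nonpos_of_nonpos_of_nonneg a3 (sq_nonneg (l - (1 + c) / 2)),
      mul_le_mul_of_nonneg_left b6 a1, mul_le_mul_of_nonneg_right a2 p3]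
  generalize (1 + c) * (2 * y + k * (1 + c)) = u at *
  generalize 2 * y + 2 * k * l = t at *
  have b13 : 2 * l * Y ≤ u * s + (1.37 * h1 + 0.49 * h2 + 1.15 * h3) := by
    linarith [mul_le_mul_of_nonneg_left b5 (show 0 ≤ 2 * l by linarith),
      mul_le_mul_of_nonneg_right b7 s_pos.le, mul_le_mul_of_nonneg_right s2 p3,
      mul_le_mul_of_nonneg_right l2 p1, mul_le_mul_of_nonneg_right l2 p2]
  have b14 := mul_le_mul_of_nonneg_left b13 (show 0 ≤ dn by linarith)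
  rw [mul_add, ← mul_assoc dn _ s, b8] at b14
  linarith [mul_le_mul_of_nonneg_right d2 (show 0 ≤ 1.37 * h1 + 0.49 * h2 + 1.15 * h3 by linarith)]

theorem frame2 {K : Set ℂ} (hK : Convex ℝ K) (hV : ∀ j, w ^ j ∈ K) (hd : ∀ z ∈ K, ‖z‖ ≤ 1)
    {l : ℝ} {M U L : ℂ} (h : Con K l M U L) (l1 : 0.9484 ≤ l) (l2 : l ≤ 0.9525)
    (cM : Cl M (-0.90097) 0 0.0041) (cU : Cl U (-0.43385) 0.80624 0.0041)
    (cL : Cl L (-0.43385) (-0.80624) 0.0041) : ∃ h1 h2 h3 h4 h5,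
      Nr K (w ^ 1) (w ^ 2) 0.11 0.14 h1 ∧ Nr K (w ^ 2) (w ^ 3) 0.295 0.325 h2 ∧
      Nr K (w ^ 3) (w ^ 4) 0.49 0.51 h3 ∧ Nr K (w ^ 4) (w ^ 5) 0.675 0.705 h4 ∧
      Nr K (w ^ 5) (w ^ 6) 0.86 0.89 h5 ∧ dn * (2 * l * (U.im - L.im)) ≤
        7 * s / 2 + 1.23 * (h1 + h5) + 0.44 * (h2 + h4) + 1.03 * h3 := by
  obtain ⟨-, w1, w2, w3, w4, w5, w6⟩ := tb_cl
  have nr : ∀ {z : ℂ} {A B : ℝ}, Cl z A B 0.000001 → Cl z A B 0.00002 := fun h =>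
    h.near (by norm_num)
  have cU' : Cl (U + l) 0.5166 0.80624 0.0062 := by
    obtain ⟨_, _, _, _⟩ := cU
    refine ⟨?_, ?_, ?_, ?_⟩ <;> simp only [Complex.add_re, Complex.add_im, Complex.ofReal_re,
      Complex.ofReal_im] <;> linarith
  have cL' : Cl (L + l) 0.5166 (-0.80624) 0.0062 := by
    obtain ⟨_, _, _, _⟩ := cL
    refine ⟨?_, ?_, ?_, ?_⟩ <;> simp only [Complex.add_re, Complex.add_im, Complex.ofReal_re,
      Complex.ofReal_im] <;> linarith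
  have r1 := rep' hK (hV 1) (hV 2) h.hU' (nr w1) (nr w2) cU' 0.11 0.14
  have r2 := rep' hK (hV 2) (hV 3) h.hU (nr w2) (nr w3) cU 0.295 0.325
  have r3 := rep' hK (hV 3) (hV 4) h.hM (nr w3) (nr w4) cM 0.49 0.51
  have r4 := rep' hK (hV 4) (hV 5) h.hL (nr w4) (nr w5) cL 0.675 0.705
  have r5 := rep' hK (hV 5) (hV 6) h.hL' (nr w5) (nr w6) cL' 0.86 0.89
  obtain ⟨_, _, _, _⟩ := w1
  obtain ⟨_, _, _, _⟩ := w2
  obtain ⟨_, _, y3, _⟩ := w3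
  obtain ⟨_, _, _, _⟩ := w4
  obtain ⟨_, _, _, _⟩ := w5
  obtain ⟨_, _, _, _⟩ := w6
  obtain ⟨h1, n1, t1, D1⟩ := r1 (by
    obtain ⟨_, _, _, _⟩ := cU'
    rintro D S T ⟨_, _⟩ ⟨_, _⟩ ⟨_, _⟩
    refine ⟨?_, ?_, ?_, ?_, ?_, ?_, ?_⟩ <;> linarith)
  obtain ⟨h2, n2, t2, D2⟩ := r2 (by
    obtain ⟨_, _, _, _⟩ := cU
    rintro D S T ⟨_, _⟩ ⟨_, _⟩ ⟨_, _⟩
    refine ⟨?_, ?_, ?_, ?_, ?_, ?_, ?_⟩ <;> linarith)
  obtain ⟨h3, n3, t3, -⟩ := r3 (by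
    obtain ⟨_, _, _, _⟩ := cM
    rintro D S T ⟨_, _⟩ ⟨_, _⟩ ⟨_, _⟩
    refine ⟨?_, ?_, ?_, ?_, ?_, ?_, ?_⟩ <;> linarith)
  obtain ⟨h4, n4, t4, D4⟩ := r4 (by
    obtain ⟨_, _, _, _⟩ := cL
    rintro D S T ⟨_, _⟩ ⟨_, _⟩ ⟨_, _⟩
    refine ⟨?_, ?_, ?_, ?_, ?_, ?_, ?_⟩ <;> linarith)
  obtain ⟨h5, n5, t5, D5⟩ := r5 (by
    obtain ⟨_, _, _, _⟩ := cL'
    rintro D S T ⟨_, _⟩ ⟨_, _⟩ ⟨_, _⟩
    refine ⟨?_, ?_, ?_, ?_, ?_, ?_, ?_⟩ <;> linarith)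
  clear r1 r2 r3 r4 r5 cU' cL' cU cL cM
  refine ⟨h1, h2, h3, h4, h5, n1, n2, n3, n4, n5, ?_⟩
  have p1 := n1.1
  have p2 := n2.1
  have p3 := n3.1
  have p4 := n4.1
  have p5 := n5.1
  replace t1 := t1.trans (mul_le_mul_of_nonneg_left D1 p1)
  replace t2 := t2.trans (mul_le_mul_of_nonneg_left D2 p2)
  replace t4 := t4.trans (mul_le_mul_of_nonneg_left D4 p4)
  replace t5 := t5.trans (mul_le_mul_of_nonneg_left D5 p5)
  refine arith l1 l2 (by linarith) (by linarith) p3 ((add_le_add t1 t5).trans_eq (by ring))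
    ((add_le_add t2 t4).trans_eq (by ring)) ?_ ?_
  · have hT := (Complex.re_le_norm _).trans (hd _ h.hT)
    simp only [w_tb, tb, Nat.reduceMod, dt, Complex.add_re, Complex.ofReal_re] at t3 y3 hT
    generalize (2 + 2 * c - 4 * c ^ 2) * s = y at t3 y3
    have : -M.re - c ≤ c * h3 := le_of_mul_le_mul_left (a := y) (by linarith) (by linarith)
    linarith
  · simp only [w_tb, tb, Nat.reduceMod, dt, Complex.add_re, Complex.add_im, Complex.ofReal_re,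
      Complex.ofReal_im]
    linear_combination ((-2 / 7 - 8 / 7 * c) * (U.im - L.im) - 2 / 7 * c * s * (U.re + L.re) +
      2 * (-4 / 7 - 10 / 7 * c) * l * s +
      2 * (-4 / 7 - 15 / 7 * c + 10 / 7 * c ^ 2 + 4 * c ^ 3) * s) * H80L.hc

theorem loc7 (hc : IsCompact C) (hC : Convex ℝ C) (hne : (interior C).Nonempty)
    (φ : ℂ →ₗ[ℝ] Plane) {D : ℝ} (D0 : 0 < D) (hD : ∀ z y, det2 (φ z) (φ y) = D * dt z y)
    (h1 : φ 1 ∈ C) (hd : ∀ z, φ z ∈ C → ‖z‖ ≤ 1) (inv : ∀ (k : ℕ) z, φ z ∈ C → φ (w ^ k * z) ∈ C)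
    {l : ℝ} {M U L : ℂ} (h : Con (φ ⁻¹' C) l M U L) (l1 : 0.9484 ≤ l) (l2 : l ≤ 0.9525)
    (cM : Cl M (-0.90097) 0 0.0041) (cU : Cl U (-0.43385) 0.80624 0.0041)
    (cL : Cl L (-0.43385) (-0.80624) 0.0041) :
    dn * (D * (2 * l * (U.im - L.im))) ≤ (volume C).toReal ∧
      ((volume C).toReal ≤ dn * (D * (2 * l * (U.im - L.im))) → C = φ '' Hc) := by
  have hV : ∀ j, φ (w ^ j) ∈ C := fun j => by simpa using inv j 1 h1
  have sub : φ '' Hc ⊆ C := image_subset_iff.2 (convexHull_min (by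
    rintro _ ⟨j, rfl⟩; exact hV j) (hC.linear_preimage φ))
  obtain ⟨h1, h2, h3, h4, h5, n1, n2, n3, n4, n5, k⟩ :=
    frame2 (hC.linear_preimage φ) hV hd h l1 l2 cM cU cL
  have tr : ∀ i e lo hi h, i ≤ 7 → Nr (φ ⁻¹' C) (w ^ i) (w ^ (i + 1)) lo hi h →
      Nr (φ ⁻¹' C) (w ^ e) (w ^ (e + 1)) lo hi h := by
    rintro i e lo hi h i7 ⟨p, t, t0, t1, m⟩
    refine ⟨p, t, t0, t1, ?_⟩
    have := inv (e + 7 - i) _ m
    rwa [mul_smul_comm, mul_add, mul_smul_comm, mul_smul_comm, ← pow_add, ← pow_add,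
      show e + 7 - i + i = e + 7 by omega, show e + 7 - i + (i + 1) = e + 1 + 7 by omega,
      pow_add w e 7, pow_add w (e + 1) 7, w7, mul_one, mul_one] at this
  have pos := w_pos φ D0 hD
  have sec := fun (C : Set Plane) hm hf => sectors (C := C) hm hf (fun n => φ (w ^ n))
    (fun n => by rw [pow_add, w7, mul_one]) pos
  have hf : volume C ≠ ⊤ := hc.measure_lt_top.ne
  have ds : ∀ e, det2 (φ (w ^ e)) (φ (w ^ (e + 1))) = D * s := fun e => by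
    rw [hD, dt_w, pow_one]; rfl
  have A1 := (Finset.sum_le_sum fun e _ => edge2 hC hf (sub ⟨0, Hc_zero, map_zero φ⟩) φ (hV e)
    (hV (e + 1)) (pos e 1 le_rfl (by norm_num)).le (tr 1 e _ _ _ (by norm_num) n1)
    (tr 2 e _ _ _ (by norm_num) n2) (tr 3 e _ _ _ (by norm_num) n3)
    (tr 4 e _ _ _ (by norm_num) n4) (tr 5 e _ _ _ (by norm_num) n5)).trans
    (sec C hc.measurableSet hf)
  simp only [ds, Finset.sum_const, Finset.card_range, nsmul_eq_mul, Nat.cast_ofNat] at A1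
  have k1 := mul_le_mul_of_nonneg_left k D0.le
  have q1 := mul_nonneg D0.le n1.1
  have q2 := mul_nonneg D0.le n2.1
  have q3 := mul_nonneg D0.le n3.1
  have q4 := mul_nonneg D0.le n4.1
  have q5 := mul_nonneg D0.le n5.1
  have k2 := mul_le_mul_of_nonneg_right s_bd.1 (show 0 ≤ 0.48 * (D * h1 + D * h5) +
    0.165 * (D * h2 + D * h4) + 0.388 * (D * h3) by linarith)
  refine ⟨by linarith, fun hle => ?_⟩
  have c' : IsCompact (φ '' Hc) := Hc_compact.image φ.continuous_of_finiteDimensional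
  have v' : Convex ℝ (φ '' Hc) := (convex_convexHull _ _).linear_image φ
  have m' : ∀ j, φ (w ^ j) ∈ φ '' Hc := fun j => ⟨_, Hc_mem j, rfl⟩
  refine eq_of_vol hC hne c' sub ?_
  rw [← ENNReal.toReal_le_toReal hf c'.measure_lt_top.ne]
  refine le_trans ?_ ((Finset.sum_le_sum (f := fun _ => D * s / 2)
    fun e _ => ?_).trans (sec _ c'.measurableSet c'.measure_lt_top.ne))
  · simp only [Finset.sum_const, Finset.card_range, nsmul_eq_mul, Nat.cast_ofNat]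
    linarith
  have m : (1 + 0 : ℝ) • ((1 - 1 : ℝ) • φ (w ^ e) + (1 : ℝ) • φ (w ^ (e + 1))) ∈ φ '' Hc := by
    simpa only [add_zero, sub_self, zero_smul, one_smul, zero_add] using m' (e + 1)
  have := fan3 v' c'.measure_lt_top.ne ⟨0, Hc_zero, map_zero φ⟩ (m' e) (m' (e + 1))
    (pos e 1 le_rfl (by norm_num)).le zero_le_one le_rfl le_rfl le_rfl le_rfl le_rfl le_rfl m m m
  rw [ds] at this
  linarith

end Pool.Agent.MP_5c967c_co.H80R
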