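import Pool.Agent.MP_5c967c_co.H80R.All
import Pool.Agent.MP_5c967c_co.H80R.Link
import Pool.Agent.MP_5c967c_co.H80R.Loc
import Pool.Agent.MP_5c967c_co.H80L.M
import Pool.Agent.MP_5c967c_co.H44.Link
import Pool.Agent.MP_5c967c_co.H44.All

/-! The regular heptagon minimises the packing density among convex discs with a rotational
symmetry. -/

namespace Pool.Agent.MP_5c967c_co.H80R

open H46 H80L Set MeasureTheory Real ComplexConjugate

variable {C : Set Plane} {D : ℝ} {p : ℕ}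

/-- the conclusion -/
def Res (C : Set Plane) : Prop := ENNReal.ofReal dn ≤ packingDensity C ∧
  (packingDensity C ≤ ENNReal.ofReal dn →
    ∃ ψ : ℂ →ₗ[ℝ] Plane, Function.Surjective ψ ∧ C = ψ '' Hc)

theorem fin_of (h : ENNReal.ofReal 0.892691 ≤ packingDensity C) : Res C := by
  have : ENNReal.ofReal dn < ENNReal.ofReal 0.892691 :=
    (ENNReal.ofReal_lt_ofReal_iff (by norm_num)).2 (by rw [dn]; linarith [c_bd.2, c2_bd.1])
  exact ⟨this.le.trans h, fun c => (this.not_ge (h.trans c)).elim⟩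

theorem ar_of (hC : Convex ℝ C) (hf : volume C ≠ ⊤) (φ : ℂ →ₗ[ℝ] Plane) (D0 : 0 < D)
    (hD : ∀ z y, det2 (φ z) (φ y) = D * dt z y) : Ar (φ ⁻¹' C) ((volume C).toReal / D) := by
  intro M y hy ht
  have e : ∀ a b, tri 0 (φ a) (φ b) = D * dt a b := fun a b => by rw [← hD]; simp [tri, det2]
  have h := (H44.fan M ((fun x => x + φ (y 0)) ⁻¹' C) (fun i => φ (y i - y 0))
    (hC.translate_preimage_left _) (by simpa using hy 0 M.zero_le)
    (fun i hi => by simpa using hy i hi)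
    fun i j h1 h2 => by rw [e]; exact mul_nonneg D0.le (ht i j h1 h2)).trans
    (measure_mono inter_subset_left)
  rw [measure_preimage_add_right, ENNReal.ofReal_le_iff_le_toReal hf] at h
  simp only [e, ← Finset.sum_div, ← Finset.mul_sum] at h
  rw [← mul_div_assoc, le_div_iff₀ D0]
  linarith

theorem big {K : Set ℂ} {A l : ℝ} {M U L : ℂ} (hp : 23 ≤ p) (hd : ∀ z ∈ K, ‖z‖ ≤ 1) (h1 : 1 ∈ K)
    (inv : ∀ (k : ℤ) z, ex (k * (2 * π / p)) * z ∈ K ↔ z ∈ K) (hA : Ar K A)
    (h : Con K l M U L) : 0.892691 * (2 * l * (U.im - L.im)) ≤ A := by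
  have p0 : (23 : ℝ) ≤ p := by exact_mod_cast hp
  have hT : p * (2 * π / p) = 2 * π := by field_simp
  have T0 : 0 < 2 * π / p := by positivity
  have T1 : 2 * π / p ≤ 0.2732 := by rw [div_le_iff₀ (by linarith)]; linarith [pi_lt_d4]
  obtain ⟨s, S, s1, s2⟩ := pot hA (r := 1) (by omega) one_pos hT inv (fun _ => 1) (fun _ => 0)
    (fun _ _ => ⟨h1, fun u hu => by simpa [ip, ex] using (Complex.re_le_norm u).trans (hd u hu)⟩)
    fun _ _ => by linarith [pi_pos]
  have s3 := s2 0 one_pos 0 one_pos 0 one_pos 0 1 0 (lex_le.2 (Or.inl (by simpa using T0)))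
  generalize 2 * π / p = T at *
  simp [dt, ex] at s3
  have s4 := mul_le_mul_of_nonneg_left ((sin_ge_sub_cube T0.le).trans s3) (by linarith : (0 : ℝ) ≤ p)
  have s5 : 3.1 ≤ A := by
    have : p * (T - T ^ 3 / 6) = 2 * π * (1 - T ^ 2 / 6) := by rw [← hT]; ring
    nlinarith [pi_gt_d4, pow_le_pow_left₀ T0.le T1 2]
  have sq : ∀ z ∈ K, z.re ^ 2 + z.im ^ 2 ≤ 1 := fun z hz => by
    have := pow_le_one₀ (n := 2) (norm_nonneg _) (hd z hz)
    rw [Complex.sq_norm, Complex.normSq_apply] at this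
    linarith
  have a1 := sq _ h.hM
  have a2 := sq _ h.hT
  have a3 := sq _ h.hU
  have a4 := sq _ h.hU'
  have a5 := sq _ h.hL
  have a6 := sq _ h.hL'
  simp only [Complex.add_re, Complex.add_im, Complex.ofReal_re, Complex.ofReal_im, add_zero]
    at a2 a4 a6
  have l1 : l ^ 2 ≤ 1 := by nlinarith [sq_nonneg (M.re + l), sq_nonneg M.im]
  have b1 : U.im ^ 2 + l ^ 2 / 4 ≤ 1 := by nlinarith [sq_nonneg (U.re + l / 2)]
  have b2 : L.im ^ 2 + l ^ 2 / 4 ≤ 1 := by nlinarith [sq_nonneg (L.re + l / 2)]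
  nlinarith [sq_nonneg (U.im - 0.866 * l), sq_nonneg (L.im + 0.866 * l)]

theorem core0 (hc : IsCompact C) (hC : Convex ℝ C) (hne : (interior C).Nonempty)
    (φ : ℂ →ₗ[ℝ] Plane) (D0 : 0 < D) (hD : ∀ z y, det2 (φ z) (φ y) = D * dt z y)
    (hp : p.Prime) (p2 : p ≠ 2) (hd : ∀ z ∈ φ ⁻¹' C, ‖z‖ ≤ 1) (h1 : 1 ∈ φ ⁻¹' C)
    (inv : ∀ (k : ℤ) z, ex (k * (2 * π / p)) * z ∈ φ ⁻¹' C ↔ z ∈ φ ⁻¹' C)
    (cK : IsCompact (φ ⁻¹' C)) (iK : (interior (φ ⁻¹' C)).Nonempty)
    (H0 : ∃ l M n, Base (φ ⁻¹' C) l M n ∧ key 1 0 ≤ key (M + (2 * l : ℝ)) n) : Res C := by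
  have vK := hC.linear_preimage φ
  have hA := ar_of hC hc.measure_lt_top.ne φ D0 hD
  have lp : ∀ {K l M U L}, Con K l M U L → 0 ≤ l := fun h => by
    simpa using h.mx _ h.hM 0 (by simpa using h.hM)
  by_cases har : ∀ t l M U L, Con (Kr (φ ⁻¹' C) t) l M U L →
    (volume C).toReal / D ≤ 0.892691 * (2 * l * (U.im - L.im))
  swap
  · push Not at har
    obtain ⟨t, l, M, U, L, h, h'⟩ := har
    refine fin_of (bridge hc hC hne (φ ∘ₗ LinearMap.mulLeft ℝ (ex t)) D0
      (fun z y => (hD _ _).trans (congrArg _ (dt_ex t z y))) (lp h) h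
      (con_pos (kr_cvx vK t) (kr_body cK iK t).2 h) (by norm_num) ?_)
    rw [lt_div_iff₀ D0] at h'
    linarith
  have lk := fun (P : Par) (w : WF P) hq (e : P.p = p) => link w hq cK vK iK hd h1 (by
    rwa [show P.G * P.γ = 2 * π / p by
      rw [eq_div_iff (by exact_mod_cast hp.ne_zero), ← w.pg, e, mul_comm]]) hA H0 har
  rcases le_or_gt 23 p with h | h
  · obtain ⟨l, M, U, L, l0, h'⟩ := exists_con cK vK ⟨1, h1⟩
    refine fin_of (bridge hc hC hne φ D0 hD l0 h' (con_pos vK iK h') (by norm_num) ?_)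
    have := big h hd h1 inv hA h'
    rw [le_div_iff₀ D0] at this
    linarith
  have : p = 3 ∨ p = 5 ∨ p = 7 ∨ p = 11 ∨ p = 13 ∨ p = 17 ∨ p = 19 := by
    clear lk inv
    revert hp p2
    revert p
    decide
  rcases this with rfl | rfl | rfl | rfl | rfl | rfl | rfl
  · exact have ⟨g, h, _⟩ := lk P3 w3 (by decide) rfl; (no3 g h).elim
  · exact have ⟨g, h, _⟩ := lk P5 w5 (by decide) rfl; (no5 g h).elim
  swap
  · exact have ⟨g, h, _⟩ := lk P11 w11 (by decide) rfl; (no11 g h).elim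
  swap
  · exact have ⟨g, h, _⟩ := lk P13 w13 (by decide) rfl; (no13 g h).elim
  swap
  · exact have ⟨g, h, _⟩ := lk P17 w17 (by decide) rfl; (no17 g h).elim
  swap
  · exact have ⟨g, h, _⟩ := lk P19 w19 (by decide) rfl; (no19 g h).elim
  obtain ⟨g, h, con⟩ := lk P7 w7 (by decide) rfl
  have b := (no7 g h).2
  simp only [box, List.forall_mem_cons, cv, H44.val, H44.cf, H44.dg, show P7.n = 8 from rfl,
    Finset.sum_range_succ, Finset.sum_range_zero, g.v0] at b
  norm_num at b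
  obtain ⟨b1, b2, b3, b4, b5, b6, b7, b8, b9, b10, b11, b12, b13, b14⟩ := b
  obtain ⟨k1, k2⟩ := loc7 hc hC hne φ D0 hD h1 hd (fun k z hz => by
      have := (inv k z).2 hz
      rwa [show ex ((k : ℤ) * (2 * π / (7 : ℕ))) = w ^ k by
        rw [w_pow, ex]; push_cast; congr 2 <;> ring] at this) con (by linarith) (by linarith)
    ⟨by linarith, by linarith, by linarith, by linarith⟩
    ⟨by linarith, by linarith, by linarith, by linarith⟩
    ⟨by linarith, by linarith, by linarith, by linarith⟩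
  have P0 := con_pos vK iK con
  have br := fun ρ => bridge hc hC hne φ D0 hD (lp con) con P0 (ρ := ρ)
  have d0 := dn_bd.1
  refine ⟨br _ (by linarith) k1, fun hle => ⟨φ, surj φ D0.ne' hD, k2 ?_⟩⟩
  have q := mul_pos D0 P0
  have := (br _ (by positivity) (div_mul_cancel₀ _ q.ne').le).trans hle
  rwa [ENNReal.ofReal_le_ofReal_iff (by linarith), div_le_iff₀ q] at this

theorem Sup.mir {K : Set ℂ} {x : ℂ} {ν : ℝ} (h : Sup K x ν) :
    Sup (conj ⁻¹' K) (conj x) (-ν) :=
  ⟨by simpa using h.1, fun z hz => by simpa [ip, ex] using h.2 _ hz⟩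

theorem Base.mir {K : Set ℂ} {l n : ℝ} {M : ℂ} (h : Base K l M n) :
    Base (conj ⁻¹' K) l (conj M) (-n) := by
  obtain ⟨a, b, e, a1, a2, b1, b2, m⟩ := h.mid
  refine ⟨h.l0, by simpa [map_ofNat] using h.s0.mir, by convert h.s3.mir.turn using 1; ring,
    by linarith [h.w2], by linarith [h.w1], fun p hp t ht => h.mx _ hp t (by simpa using ht),
    conj b, conj a, by simp [e, add_comm, map_ofNat], by simpa, by simpa [map_ofNat] using b2,
    by simpa, by simpa [map_ofNat] using a2, fun z hz hz' => ?_⟩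
  have := m _ hz (by simpa [map_ofNat] using hz')
  simp only [Complex.conj_im] at this ⊢
  constructor <;> linarith [this.1, this.2]

theorem core1 (hc : IsCompact C) (hC : Convex ℝ C) (hne : (interior C).Nonempty)
    (φ : ℂ →ₗ[ℝ] Plane) (D0 : D ≠ 0) (hD : ∀ z y, det2 (φ z) (φ y) = D * dt z y)
    (hp : p.Prime) (p2 : p ≠ 2) (hd : ∀ z ∈ φ ⁻¹' C, ‖z‖ ≤ 1) (h1 : 1 ∈ φ ⁻¹' C)
    (inv : ∀ (k : ℤ) z, ex (k * (2 * π / p)) * z ∈ φ ⁻¹' C ↔ z ∈ φ ⁻¹' C) : Res C := by
  have bd : ∀ (φ : ℂ →ₗ[ℝ] Plane), Function.Surjective φ → (∀ z ∈ φ ⁻¹' C, ‖z‖ ≤ 1) →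
      IsCompact (φ ⁻¹' C) ∧ (interior (φ ⁻¹' C)).Nonempty := fun φ sj hd =>
    ⟨(isCompact_closedBall 0 1).of_isClosed_subset
      (hc.isClosed.preimage φ.continuous_of_finiteDimensional)
      fun z hz => mem_closedBall_zero_iff.2 (hd z hz), (hne.preimage sj).mono
      (preimage_interior_subset_interior_preimage φ.continuous_of_finiteDimensional)⟩
  obtain ⟨l, M, n, b⟩ := exists_base (bd φ (surj φ D0 hD) hd).1 (hC.linear_preimage φ)
    (bd φ (surj φ D0 hD) hd).2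
  wlog H : key 1 0 ≤ key (M + (2 * l : ℝ)) n generalizing φ D M n
  · refine this (φ ∘ₗ Complex.conjAe.toLinearMap) (D := -D) (neg_ne_zero.2 D0)
      (fun z y => (hD _ _).trans (by simp [dt]; ring)) (fun z hz => by simpa using hd (conj z) hz)
      (by simpa using h1) (fun k z => ?_) _ _ b.mir ?_
    · have := inv (-k) (conj z)
      simp only [mem_preimage, LinearMap.comp_apply] at this ⊢
      convert this using 3 <;> simp [ex, Complex.ext_iff]
    · rcases lex_le.1 (le_of_not_ge H) with h | ⟨rfl, h⟩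
      · exact lex_le.2 (Or.inl (by linarith))
      · exact lex_le.2 (Or.inr ⟨by simp, by simpa [dt, ex] using h⟩)
  obtain ⟨cK, iK⟩ := bd φ (surj φ D0 hD) hd
  rcases D0.lt_or_gt with h | h
  swap
  · exact core0 hc hC hne φ h hD hp p2 hd h1 inv cK iK ⟨l, M, n, b, H⟩
  have e : (H46.flip.toLinearEquiv.toLinearMap ∘ₗ φ) ⁻¹' (H46.flip '' C) = φ ⁻¹' C := by
    ext z
    exact H46.flip.injective.mem_set_image
  obtain ⟨k1, k2⟩ := core0 (C := H46.flip '' C) (D := -D) (hc.image H46.flip.continuous)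
    (hC.linear_image H46.flip.toLinearEquiv.toLinearMap)
    (by rw [show H46.flip '' C = H46.flip.toIsometryEquiv '' C from rfl, interior_iso]
        exact hne.image _) (H46.flip.toLinearEquiv.toLinearMap ∘ₗ φ) (neg_pos.2 h)
    (fun z y => by
      rw [neg_mul, ← hD]
      change det2 (H46.flip _) (H46.flip _) = _
      simp only [det2, flip0, flip1]
      ring) hp p2 (e ▸ hd) (e ▸ h1) (e ▸ inv) (e ▸ cK) (e ▸ iK) (e ▸ ⟨l, M, n, b, H⟩)
  rw [show H46.flip '' C = H46.flip.toIsometryEquiv '' C from rfl, pd_iso] at k1 k2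
  refine ⟨k1, fun h => ?_⟩
  obtain ⟨ψ, sj, e⟩ := k2 h
  refine ⟨H46.flip.symm.toLinearEquiv.toLinearMap ∘ₗ ψ, H46.flip.symm.surjective.comp sj, ?_⟩
  rw [LinearMap.coe_comp, image_comp, ← e, image_image]
  simp

theorem main (C : Set Plane) (S : Plane ≃ᵃ[ℝ] Plane) (θ : ℝ) (hc : IsCompact C) (hC : Convex ℝ C)
    (hne : (interior C).Nonempty) (hθ : ∀ k : ℤ, θ ≠ k * (2 * π))
    (hs : ∀ x : Plane, x ∈ S '' C ↔
      !₂[cos θ * x 0 - sin θ * x 1, sin θ * x 0 + cos θ * x 1] ∈ S '' C) :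
    packingDensity H80.Hept ≤ packingDensity C ∧
      (packingDensity C = packingDensity H80.Hept → ∃ T : Plane ≃ᵃ[ℝ] Plane, C = T '' H80.Hept) := by
  obtain ⟨K, hK⟩ : ∃ K, K = io ⁻¹' (S '' C) := ⟨_, rfl⟩
  have cK : IsCompact K := hK ▸ io.toHomeomorph.isCompact_preimage.2
    (hc.image S.toAffineMap.continuous_of_finiteDimensional)
  let L : Plane →ₗ[ℝ] Plane := S.symm.linear.toLinearMap
  have mK : ∀ z, L (io z) + S.symm 0 ∈ C ↔ z ∈ K := fun z => by
    have : L (io z) + S.symm 0 = S.symm (io z) := by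
      simpa [L] using (S.symm.map_vadd 0 (io z)).symm
    rw [this, hK, mem_preimage]
    exact ⟨fun h => ⟨_, h, S.apply_symm_apply _⟩, fun ⟨x, hx, e⟩ => by
      rwa [← e, S.symm_apply_apply]⟩
  have sL : ∀ x, ∃ z, L (io z) = x := S.symm.linear.surjective.comp io.surjective
  generalize S.symm 0 = O at mK
  let Γ : AddSubgroup ℝ :=
    { carrier := {t | ∀ z, ex t * z ∈ K ↔ z ∈ K}
      zero_mem' := fun z => by rw [ex_zero, one_mul]
      add_mem' := fun ha hb z => by rw [ex_add, mul_assoc, ha, hb]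
      neg_mem' := fun h z => by rw [← h, kr_inv] }
  have g1 : θ ∈ Γ := fun z => by
    rw [hK, mem_preimage, mem_preimage, hs (io z)]
    congr! 1
    ext i
    fin_cases i <;> simp [io0, io1, ex, add_comm]
  have g2 : 2 * π ∈ Γ := fun z => by rw [ex_two_pi, one_mul]
  have sym : (∀ z ∈ K, ex π * z ∈ K) → packingDensity H80.Hept ≤ packingDensity C ∧
      (packingDensity C = packingDensity H80.Hept → ∃ T : Plane ≃ᵃ[ℝ] Plane, C = T '' H80.Hept) := by
    intro h
    have h1 := H44.main H44.cl_all C hc hC hne O fun x hx => by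
      obtain ⟨z, e⟩ := sL (x - O)
      have := (mK _).2 (h z ((mK z).1 (by rwa [e, sub_add_cancel])))
      rwa [ex_pi, neg_one_mul, map_neg, map_neg, e, neg_sub, sub_add_eq_add_sub] at this
    have h2 : ENNReal.ofReal dn < ENNReal.ofReal (9 / 10) :=
      (ENNReal.ofReal_lt_ofReal_iff (by norm_num)).2 (by linarith [dn_bd.2])
    rw [H80.main]
    exact ⟨h2.le.trans h1, fun e => (h2.not_ge (h1.trans e.le)).elim⟩
  rcases Γ.dense_or_cyclic with h | ⟨a, h⟩
  · refine sym fun z hz => ?_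
    have : closure (Γ : Set ℝ) ⊆ {t | ex t * z ∈ K} := closure_minimal (fun t ht => (ht z).2 hz)
      (cK.isClosed.preimage (f := fun t => ex t * z) (by
        simp only [ex, Complex.mk_eq_add_mul_I]; fun_prop))
    exact this (h π)
  obtain ⟨p, hp, g3⟩ : ∃ p : ℕ, p.Prime ∧ 2 * π / p ∈ Γ := by
    rw [h, AddSubgroup.mem_closure_singleton] at g1 g2
    obtain ⟨j, rfl⟩ := g1
    obtain ⟨k, g2⟩ := g2
    obtain ⟨p, hp, u, hu⟩ := Int.exists_prime_and_dvd (n := k) (fun e => by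
      rcases Int.natAbs_eq_iff.1 e with rfl | rfl
      · exact hθ j (by rw [← g2]; simp)
      · exact hθ (-j) (by rw [← g2]; simp))
    refine ⟨p.natAbs, Int.prime_iff_natAbs_prime.1 hp, ?_⟩
    rw [h, AddSubgroup.mem_closure_singleton]
    refine ⟨p.sign * u, ?_⟩
    rw [eq_div_iff (by exact_mod_cast Int.natAbs_ne_zero.2 hp.ne_zero), ← g2, hu]
    conv_rhs => rw [← Int.sign_mul_natAbs p]
    simp only [zsmul_eq_mul, Int.cast_mul, Int.cast_natCast]
    ring
  rcases eq_or_ne p 2 with rfl | p2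
  · exact sym fun z hz => by simpa using (g3 z).2 hz
  have ⟨q, hq⟩ := hne
  obtain ⟨z0, e0⟩ := sL (q - O)
  obtain ⟨V, hV, mV⟩ := cK.exists_isMaxOn ⟨z0, (mK _).1 (by
    rw [e0, sub_add_cancel]; exact interior_subset hq)⟩ continuous_norm.continuousOn
  let φ : ℂ →ₗ[ℝ] Plane := L ∘ₗ io.toLinearEquiv.toLinearMap ∘ₗ LinearMap.mulLeft ℝ V
  let f : Plane ≃ᵢ Plane := IsometryEquiv.addRight (-O)
  have mf : ∀ z, z ∈ φ ⁻¹' (f '' C) ↔ V * z ∈ K := fun z => by
    rw [← mK]
    exact ⟨fun ⟨x, hx, e⟩ => by rwa [add_neg_eq_iff_eq_add.1 e] at hx,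
      fun h => ⟨_, h, add_neg_cancel_right _ _⟩⟩
  have V0 : 0 < ‖V‖ := by
    refine (norm_nonneg V).lt_of_ne' fun e => ?_
    obtain ⟨t, t0, ht⟩ := open_move _ isOpen_interior q hq !₂[1, 0]
    obtain ⟨z1, e1⟩ := sL (q + t • !₂[1, 0] - O)
    have a0 := mV ((mK z0).1 (by rw [e0, sub_add_cancel]; exact interior_subset hq))
    have a1 := mV ((mK z1).1 (by rw [e1, sub_add_cancel]; exact interior_subset ht))
    simp only [mem_ofPred_eq, e, norm_le_zero_iff] at a0 a1
    rw [a1, ← a0, e0] at e1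
    have := congrArg (· 0) e1
    simp at this
    linarith
  have L0 : det2 (L !₂[1, 0]) (L !₂[0, 1]) ≠ 0 := fun h => by
    have := det2_map L (S.symm.linear.symm !₂[1, 0]) (S.symm.linear.symm !₂[0, 1])
    rw [h] at this
    simp [L, det2] at this
  obtain ⟨k1, k2⟩ := core1 (C := f '' C) (hc.image f.continuous) (by
      rw [show f '' C = (fun x => -O + x) '' C from image_congr fun x _ => add_comm x (-O)]
      exact hC.translate _) (by rw [interior_iso]; exact hne.image _) φ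
    (mul_ne_zero L0 (pow_pos V0 2).ne') (fun z y => by
      refine (det2_map L _ _).trans ?_
      rw [mul_assoc, Complex.sq_norm]
      congr 1
      simp [det2, io0, io1, dt, Complex.normSq_apply]
      ring) hp p2
    (fun z hz => by
      have : ‖V * z‖ ≤ ‖V‖ := mV ((mf z).1 hz)
      rwa [norm_mul, mul_le_iff_le_one_right V0] at this)
    (by rwa [mf, mul_one]) fun k z => by
      rw [mf, mf, mul_left_comm, ← zsmul_eq_mul]
      exact Γ.zsmul_mem g3 k _
  rw [pd_iso] at k1 k2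
  rw [H80.main]
  refine ⟨k1, fun h => ?_⟩
  obtain ⟨ψ, sj, e⟩ := k2 h.le
  replace sj : Function.Surjective (ψ ∘ₗ io.toLinearEquiv.symm.toLinearMap) :=
    sj.comp io.symm.surjective
  refine ⟨(LinearEquiv.ofBijective _ ⟨LinearMap.injective_iff_surjective.2 sj, sj⟩).toAffineEquiv.trans
    (AffineEquiv.constVAdd ℝ Plane O), ?_⟩
  rw [← io_Hc, image_image]
  refine image_injective.2 f.injective (e.trans ?_)
  rw [image_image]
  refine image_congr fun z _ => ?_
  change ψ z = O + ψ (io.symm (io z)) + -O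
  rw [io.symm_apply_apply, add_neg_cancel_comm]

end Pool.Agent.MP_5c967c_co.H80R
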