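import Pool.Agent.MP_5c967c_co.H44.Snd1
import Pool.Agent.MP_5c967c_co.H80R.Chk

/-! Soundness of the checker: packed quadratic forms with digits of 128 bits. -/

namespace Pool.Agent.MP_5c967c_co.H80R

open H44 Finset

/-- a packed quadratic form -/
def QR (v : ℕ → ℝ) (n : ℕ) (T : ℤ) (x : ℝ) (S : ℕ) : Prop :=
  ∃ c : ℕ → ℕ → ℤ, (∀ i j, |c i j| ≤ S) ∧
    T = ∑ i ∈ range n, ∑ j ∈ range n, c i j * (2 ^ (128 * n * i) * 2 ^ (128 * j)) ∧
    x = ∑ i ∈ range n, ∑ j ∈ range n, (c i j : ℝ) * (v i * v j)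

variable {v : ℕ → ℝ} {n s : ℕ} {T T' : ℤ} {x x' : ℝ} {S S' : ℕ}

theorem QR.cast (h : QR v n T x S) (h1 : T = T') (h2 : x = x') (h3 : S ≤ S') :
    QR v n T' x' S' := by
  obtain ⟨c, a1, a2, a3⟩ := h
  exact ⟨c, fun i j => (a1 i j).trans (by exact_mod_cast h3), h1 ▸ a2, h2 ▸ a3⟩

theorem QR.zero : QR v n 0 0 0 := ⟨fun _ _ => 0, by simp, by simp, by simp⟩

theorem QR.add_mul (h : QR v n T x S) (h' : QR v n T' x' S') (μ : ℤ) :
    QR v n (T + μ * T') (x + μ * x') (S + μ.natAbs * S') := by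
  obtain ⟨c, a1, rfl, rfl⟩ := h
  obtain ⟨c', b1, rfl, rfl⟩ := h'
  refine ⟨fun i j => c i j + μ * c' i j, fun i j => ?_, ?_, ?_⟩
  · refine (abs_add_le _ _).trans ?_
    rw [abs_mul]
    push_cast
    exact add_le_add (a1 i j) (mul_le_mul_of_nonneg_left (b1 i j) (by positivity))
  · simp only [mul_sum, ← sum_add_distrib]
    exact sum_congr rfl fun i _ => sum_congr rfl fun j _ => by ring
  · simp only [mul_sum, ← sum_add_distrib]
    exact sum_congr rfl fun i _ => sum_congr rfl fun j _ => by push_cast; ring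

theorem QR.add (h : QR v n T x S) (h' : QR v n T' x' S') :
    QR v n (T + T') (x + x') (S + S') :=
  (h.add_mul h' 1).cast (by ring) (by simp) (by simp)

theorem QR.sub (h : QR v n T x S) (h' : QR v n T' x' S') :
    QR v n (T - T') (x - x') (S + S') :=
  (h.add_mul h' (-1)).cast (by ring) (by simp [sub_eq_add_neg]) (by simp)

theorem lmul (h : LRep v n (128 * n) T x S) (h' : LRep v n 128 T' x' S') :
    QR v n (T * T') (x * x') (S * S') := by
  obtain ⟨c, a1, rfl, rfl⟩ := h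
  obtain ⟨c', b1, rfl, rfl⟩ := h'
  refine ⟨fun i j => c i * c' j, fun i j => ?_, ?_, ?_⟩
  · rw [abs_mul]
    push_cast
    exact mul_le_mul (a1 i) (b1 j) (abs_nonneg _) (by positivity)
  · rw [sum_mul_sum]
    exact sum_congr rfl fun i _ => sum_congr rfl fun j _ => by ring
  · rw [sum_mul_sum]
    exact sum_congr rfl fun i _ => sum_congr rfl fun j _ => by push_cast; ring

theorem QR.const (hn : 0 < n) (h0 : v 0 = 1) (q : ℕ) : QR v n q q q := by
  refine ⟨fun i j => if i = 0 then if j = 0 then q else 0 else 0, fun i j => ?_, ?_, ?_⟩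
  · dsimp only
    split_ifs <;> simp
  · rw [sum_eq_single 0, sum_eq_single 0] <;> simp +contextual [hn.ne']
  · rw [sum_eq_single 0, sum_eq_single 0] <;> simp +contextual [hn.ne', h0]

theorem dom_sound (h : QR v n T x S) (hS : S < 2 ^ 127) (τ : ℕ)
    (hd : H80R.dom n (128 * n) τ (T + (ones (128 * n) n * (ones 128 n <<< 127) : ℕ)).toNat = true) :
    0 ≤ x := by
  obtain ⟨c, a1, a2, rfl⟩ := h
  have hS' : (S : ℤ) < 2 ^ 127 := by exact_mod_cast hS
  have hf : ∀ i j, ((c i j + 2 ^ 127).toNat : ℤ) = c i j + 2 ^ 127 := fun i j =>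
    Int.toNat_of_nonneg (by linarith [(abs_le.1 (a1 i j)).1])
  have hlt : ∀ i j, (c i j + 2 ^ 127).toNat < 2 ^ 128 := fun i j => by
    have := (abs_le.1 (a1 i j)).2
    zify
    rw [hf]
    linarith
  have hA : (T + (ones (128 * n) n * (ones 128 n <<< 127) : ℕ)).toNat = ∑ i ∈ range n,
      (∑ j ∈ range n, (c i j + 2 ^ 127).toNat * 2 ^ (128 * j)) * 2 ^ (128 * n * i) := by
    rw [← Int.toNat_natCast (∑ i ∈ range n, _)]
    congr 1
    rw [a2, ones_eq, ones_eq, Nat.shiftLeft_eq]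
    simp only [Nat.cast_mul, Nat.cast_sum, Nat.cast_pow, Nat.cast_ofNat, Nat.cast_one, hf]
    rw [sum_mul (range n), ← sum_add_distrib]
    refine sum_congr rfl fun i _ => ?_
    rw [sum_mul, sum_mul, mul_sum, ← sum_add_distrib]
    exact sum_congr rfl fun j _ => by ring
  rw [hA] at hd
  have hrow : ∀ i < n, look (128 * n) (∑ i ∈ range n,
      (∑ j ∈ range n, (c i j + 2 ^ 127).toNat * 2 ^ (128 * j)) * 2 ^ (128 * n * i)) i =
      ∑ j ∈ range n, (c i j + 2 ^ 127).toNat * 2 ^ (128 * j) := fun i hi => by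
    rw [look_eq]
    exact dg_sum _ n _ (fun i _ => sum_lt 128 n _ fun j _ => hlt i j) i hi
  have hent : ∀ i, ∀ j < n, look 128 (∑ j ∈ range n, (c i j + 2 ^ 127).toNat * 2 ^ (128 * j)) j =
      (c i j + 2 ^ 127).toNat := fun i j hj => by
    rw [look_eq]
    exact dg_sum _ n _ (fun j _ => hlt i j) j hj
  have hd' := allLt_eq _ _ hd
  refine dom_nonneg (fun i j => (c i j : ℝ)) τ (by positivity) (fun i hi => ?_)
    fun i hi j hj => ?_
  · have h1 := hd' i hi
    rw [frc_eq, band_eq, hrow i hi, hent i i hi] at h1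
    have h2 : 340282366920938463463374607431768211456 + n * τ ≤ 2 * (c i i + 2 ^ 127).toNat :=
      Nat.le_of_ble_eq_true h1.1
    zify at h2
    rw [hf] at h2
    have h3 : (n : ℤ) * τ ≤ 2 * c i i := by linarith
    exact_mod_cast h3
  · have h1 := hd' i hi
    rw [frc_eq, band_eq] at h1
    have h2 := allLt_eq _ _ h1.2 j hj
    rw [frc_eq, band_eq, hrow i hi, hrow j (hj.trans hi), hent i j (hj.trans hi), hent j i hi]
      at h2
    have h3 : (c i j + 2 ^ 127).toNat + (c j i + 2 ^ 127).toNat ≤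
      340282366920938463463374607431768211456 + τ := Nat.le_of_ble_eq_true h2.1
    have h4 : 340282366920938463463374607431768211456 ≤
      (c i j + 2 ^ 127).toNat + (c j i + 2 ^ 127).toNat + τ := Nat.le_of_ble_eq_true h2.2
    zify at h3 h4
    rw [hf, hf] at h3 h4
    have h5 : |c i j + c j i| ≤ τ := abs_le.2 ⟨by linarith, by linarith⟩
    exact_mod_cast h5

theorem sqs_sound {B : ℕ} {G : ℝ} (k : ℕ → ℤ → Bool) (hk : ∀ m Q, k m Q = true → m ≤ n) :
    ∀ (ls : List ℕ) (m : ℕ) (Q : ℤ), H80R.sqs (128 * n) ls m Q k = true →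
      m ≤ n ∧ ((∃ x, x ≤ G ∧ QR v n Q x (B + m * 2 ^ 62)) →
        ∃ m Q, (∃ x, x ≤ G ∧ QR v n Q x (B + m * 2 ^ 62)) ∧ k m Q = true)
  | [], m, Q, h => ⟨hk m Q h, fun hA => ⟨m, Q, hA, h⟩⟩
  | a :: ls, m, Q, h => by
    have e : H80R.sqs (128 * n) (a :: ls) m Q k = H80R.sqs (128 * n) ls (m + 1)
        (Q - pk 32 (128 * n) (m + 1) a * pk 32 128 (m + 1) a) k := by
      simp only [H80R.sqs, frc_eq, frcI_eq]; rfl
    rw [e] at h
    obtain ⟨h1, h2⟩ := sqs_sound (B := B) (G := G) k hk ls _ _ h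
    refine ⟨by omega, fun ⟨x, hx, hQ⟩ => h2 ⟨x - val v (m + 1) 32 a * val v (m + 1) 32 a,
      by linarith [mul_self_nonneg (val v (m + 1) 32 a)], ?_⟩⟩
    exact (hQ.sub (lmul (pk_rep (by norm_num) h1 a) (pk_rep (by norm_num) h1 a))).cast rfl rfl
      (by omega)

theorem ladd (h : LRep v n s T x S) (h' : LRep v n s T' x' S') (μ : ℤ) :
    LRep v n s (T + μ * T') (x + μ * x') (S + μ.natAbs * S') := by
  rcases Int.natAbs_eq μ with e | e
  · exact (h.add_mul h' μ.natAbs).cast (by rw [← e]) (by rw [← Int.cast_natCast, ← e]) le_rfl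
  · exact (h.add_mul h'.neg μ.natAbs).cast (by rw [mul_neg, ← neg_mul, ← e])
      (by rw [mul_neg, ← neg_mul, ← Int.cast_natCast, ← Int.cast_neg, ← e]) le_rfl

theorem lsub (h : LRep v n s T x S) (h' : LRep v n s T' x' S') :
    LRep v n s (T - T') (x - x') (S + S') :=
  (ladd h h' (-1)).cast (by ring) (by simp [sub_eq_add_neg]) (by simp)

theorem lone {i : ℕ} (hi : i < n) : LRep v n s (2 ^ (s * i)) (v i) 1 := by
  refine ⟨fun j => if j = i then 1 else 0, fun j => ?_, ?_, ?_⟩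
  · dsimp only
    split_ifs <;> simp
  · rw [sum_eq_single i] <;> simp +contextual [hi]
  · rw [sum_eq_single i] <;> simp +contextual [hi]

theorem lconst (hn : 0 < n) (h0 : v 0 = 1) (μ : ℤ) : LRep v n s μ μ μ.natAbs :=
  (ladd LRep.zero (lone hn) μ).cast (by simp) (by simp [h0]) (by simp)

theorem digs (B : ℤ) : ∀ (n : ℕ) (c : ℕ → ℤ) (k : ℤ), (∀ i, |c i| < B) →
    ∑ i ∈ range n, c i * B ^ i = k * B ^ n → k = 0 ∧ ∀ i < n, c i = 0
  | 0, _, _, _, h => ⟨by simpa using h.symm, fun _ h => absurd h (by simp)⟩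
  | n + 1, c, k, hc, h => by
    rw [sum_range_succ'] at h
    have e : ∑ i ∈ range n, c (i + 1) * B ^ (i + 1) = (∑ i ∈ range n, c (i + 1) * B ^ i) * B := by
      rw [sum_mul]
      exact sum_congr rfl fun i _ => by ring
    have h0 : c 0 = 0 := Int.eq_zero_of_abs_lt_dvd (m := B)
      ⟨k * B ^ n - ∑ i ∈ range n, c (i + 1) * B ^ i, by linear_combination h - e⟩ (hc 0)
    obtain ⟨h1, h2⟩ := digs B n (fun i => c (i + 1)) k (fun i => hc _)
      (mul_right_cancel₀ ((abs_nonneg _).trans_lt (hc 0)).ne' (by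
        linear_combination h - e - h0))
    exact ⟨h1, fun i hi => by
      rcases i with _ | i
      exacts [h0, h2 i (by omega)]⟩

theorem flow {w : ℕ} (h : LRep v (n + 1) 128 T x S) (hS : S < 2 ^ 128)
    (e : T = w * 2 ^ (128 * n)) : x = w * v n := by
  obtain ⟨c, a1, a2, rfl⟩ := h
  rw [sum_range_succ] at a2 ⊢
  obtain ⟨h1, h2⟩ := digs (2 ^ 128) n c (w - c n) (fun i => (a1 i).trans_lt (by exact_mod_cast hS))
    (by simp only [← pow_mul]; linear_combination e - a2)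
  rw [sum_eq_zero fun i hi => by simp [h2 i (mem_range.1 hi)], ← sub_eq_zero.1 h1]
  simp

/-- the accumulator -/
def Acc (v : ℕ → ℝ) (n : ℕ) (G : ℝ) (Q : ℤ) (M : ℕ) : Prop :=
  ∃ x, x ≤ G ∧ QR v n Q x (1 + M * 2 ^ 74)

variable {O A c : ℕ}

theorem grp_sound (hT : ∀ j < c, ∃ x, 0 ≤ x ∧ LRep v n 128 ((dg (128 * n) A j : ℤ) - O) x (2 ^ 37))
    (hc : 0 < c) (k : ℕ → ℕ → Bool) :
    ∀ f g u m : ℕ, (∃ y, 0 ≤ y ∧ LRep v n 128 ((u : ℤ) - (m * O : ℕ)) y (m * 2 ^ 37)) →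
      grp (128 * n) A c f g u m k = true →
      ∃ u m : ℕ, (∃ y, 0 ≤ y ∧ LRep v n 128 ((u : ℤ) - (m * O : ℕ)) y (m * 2 ^ 37)) ∧
        k u m = true := by
  intro f
  induction f with
  | zero => intro _ _ _ _ h; simp [grp] at h
  | succ f ih =>
    rintro (_ | g) u m ⟨y, hy, hr⟩ h
    · exact ⟨u, m, ⟨y, hy, hr⟩, h⟩
    have e : grp (128 * n) A c (f + 1) (g + 1) u m k = grp (128 * n) A c f ((g + 1) >>> 40)
        (u + mulr (g + 1) * look (128 * n) A ((g + 1) % 256 % c)) (m + mulr (g + 1)) k := by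
      simp only [grp, frc_eq]; rfl
    rw [e, look_eq] at h
    obtain ⟨x, hx, hr'⟩ := hT _ (Nat.mod_lt ((g + 1) % 256) hc)
    exact ih _ _ _ ⟨y + mulr (g + 1) * x, by positivity, (hr.add_mul hr' (mulr (g + 1))).cast
      (by push_cast; ring) rfl (by rw [add_mul])⟩ h

theorem prods_sound {G : ℝ}
    (hT : ∀ j < c, ∃ x, 0 ≤ x ∧ LRep v n 128 ((dg (128 * n) A j : ℤ) - O) x (2 ^ 37)) (hc : 0 < c)
    (k : ℤ → ℕ → Bool) : ∀ (gs : List ℕ) (H : List ℤ) (Q : ℤ) (M : ℕ),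
      (∀ h ∈ H, ∃ x, 0 ≤ x ∧ LRep v n (128 * n) h x (2 ^ 37)) → Acc v n G Q M →
      prods (128 * n) O A c gs H Q M k = true → ∃ Q M, Acc v n G Q M ∧ k Q M = true := by
  intro gs
  induction gs with
  | nil => exact fun _ Q M _ hA h => ⟨Q, M, hA, h⟩
  | cons g gs ih =>
    rintro (_ | ⟨a, H⟩) Q M hH ⟨x, hx, hQ⟩ h
    · simp [prods] at h
    rcases g with _ | g
    · exact ih H Q M (fun a ha => hH a (List.mem_cons_of_mem _ ha)) ⟨x, hx, hQ⟩ h
    have e : prods (128 * n) O A c ((g + 1) :: gs) (a :: H) Q M k =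
        grp (128 * n) A c 256 (g + 1) 0 0 fun u m =>
          prods (128 * n) O A c gs H (Q - a * Int.subNatNat u (m * O)) (M + m) k := by
      simp only [prods, frc_eq, frcI_eq]; rfl
    rw [e] at h
    obtain ⟨u, m, ⟨y, hy, hr⟩, h⟩ := grp_sound hT hc _ _ _ _ _
      ⟨0, le_rfl, LRep.zero.cast (by simp) rfl (by simp)⟩ h
    obtain ⟨z, hz, ha⟩ := hH a List.mem_cons_self
    refine ih H _ _ (fun a ha => hH a (List.mem_cons_of_mem _ ha))
      ⟨x - z * y, by linarith [mul_nonneg hz hy], ?_⟩ h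
    exact (hQ.sub (lmul ha hr)).cast (by rw [Int.subNatNat_eq_coe]) rfl (by omega)

end Pool.Agent.MP_5c967c_co.H80R
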