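import Pool.Agent.MP_5c967c_co.H80L.J

/-! Boundary points with a supporting direction, their cyclic order, and potentials. -/

namespace Pool.Agent.MP_5c967c_co.H80R

open H80L Real Finset
open Complex hiding sin cos exp

/-- unit vector -/
noncomputable def ex (t : ℝ) : ℂ := ⟨cos t, sin t⟩

/-- inner product -/
def ip (z y : ℂ) : ℝ := z.re * y.re + z.im * y.im

/-- `x` is a point of `K` with outer normal of direction `ν` -/
def Sup (K : Set ℂ) (x : ℂ) (ν : ℝ) : Prop := x ∈ K ∧ ∀ z ∈ K, ip (ex ν) z ≤ ip (ex ν) x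

/-- position in the cyclic order -/
noncomputable def key (x : ℂ) (ν : ℝ) : ℝ ×ₗ ℝ := toLex (ν, dt (ex ν) x)

theorem ex_add (a b : ℝ) : ex (a + b) = ex a * ex b := by
  simp only [ex, Complex.ext_iff, mul_re, mul_im, Real.cos_add, Real.sin_add]
  exact ⟨trivial, by ring⟩

theorem ex_zero : ex 0 = 1 := by simp [ex, Complex.ext_iff]

theorem ex_two_pi : ex (2 * π) = 1 := by simp [ex, Complex.ext_iff]

theorem ex_pi : ex π = -1 := by simp [ex, Complex.ext_iff]

theorem norm_ex (t : ℝ) : ‖ex t‖ = 1 := by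
  rw [← sq_eq_sq₀ (norm_nonneg _) zero_le_one, Complex.sq_norm, normSq_apply]
  simp only [ex]
  nlinarith [Real.cos_sq_add_sin_sq t]

theorem ip_rot (t : ℝ) (z y : ℂ) : ip (ex t * z) (ex t * y) = ip z y := by
  simp only [ip, ex, mul_re, mul_im]
  linear_combination (z.re * y.re + z.im * y.im) * Real.cos_sq_add_sin_sq t

theorem dt_ex (t : ℝ) (z y : ℂ) : dt (ex t * z) (ex t * y) = dt z y := by
  simp only [dt, ex, mul_re, mul_im]
  linear_combination (z.re * y.im - z.im * y.re) * Real.cos_sq_add_sin_sq t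

theorem decomp (t : ℝ) (z : ℂ) : z = ex t * ⟨ip (ex t) z, dt (ex t) z⟩ := by
  simp only [ip, dt, ex, Complex.ext_iff, mul_re, mul_im]
  exact ⟨by linear_combination -z.re * Real.cos_sq_add_sin_sq t,
    by linear_combination -z.im * Real.cos_sq_add_sin_sq t⟩

theorem lex_le {a b c d : ℝ} : toLex (a, b) ≤ toLex (c, d) ↔ a < c ∨ a = c ∧ b ≤ d :=
  Prod.Lex.toLex_le_toLex

theorem polar (z : ℂ) : z = ‖z‖ * ex (arg z) := by
  conv_lhs => rw [← norm_mul_cos_add_sin_mul_I z]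
  congr 1
  simp [ex, Complex.ext_iff, ← ofReal_cos, ← ofReal_sin]

variable {K : Set ℂ} {x y z : ℂ} {ν μ : ℝ}

theorem Sup.rot {K' : Set ℂ} (h : Sup K x ν) (t : ℝ) (hK : ∀ z, ex t * z ∈ K' ↔ z ∈ K) :
    Sup K' (ex t * x) (ν + t) := by
  refine ⟨(hK _).2 h.1, fun z hz => ?_⟩
  have e : z = ex t * (ex (-t) * z) := by rw [← mul_assoc, ← ex_add, add_neg_cancel, ex_zero, one_mul]
  rw [e] at hz ⊢
  rw [add_comm, ex_add, ip_rot, ip_rot]
  exact h.2 _ ((hK _).1 hz)

theorem key_rot (t : ℝ) : key (ex t * x) (ν + t) ≤ key (ex t * y) (μ + t) ↔ key x ν ≤ key y μ := by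
  simp only [key, lex_le, add_comm _ t, ex_add, dt_ex, add_lt_add_iff_left, add_right_inj]

theorem key_fst (h : key x ν ≤ key y μ) : ν ≤ μ := (lex_le.1 h).elim le_of_lt fun h => h.1.le

/-- the direction of a chord -/
def Ch (d : ℂ) (a b : ℝ) : Prop := ∃ s κ : ℝ, 0 ≤ s ∧ a ≤ κ ∧ κ ≤ b ∧ d = s * (I * ex κ)

theorem chord (hx : Sup K x ν) (hy : Sup K y μ) (h : key x ν ≤ key y μ) : Ch (y - x) ν μ := by
  have h1 := hx.2 y hy.1
  have h2 := hy.2 x hx.1
  rcases lex_le.1 h with h | ⟨rfl, h⟩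
  · obtain ⟨d, hd⟩ : ∃ d : ℂ, d = ⟨dt (ex ν) (y - x), -ip (ex ν) (y - x)⟩ := ⟨_, rfl⟩
    have e : y - x = ‖d‖ * (I * ex (ν + arg d)) := by
      rw [ex_add, show ‖d‖ * (I * (ex ν * ex (arg d))) = ex ν * (I * (‖d‖ * ex (arg d))) by ring,
        ← polar, decomp ν (y - x)]
      congr 1
      simp [hd, Complex.ext_iff]
    have a0 : 0 ≤ arg d := arg_nonneg_iff.2 (by simp only [hd, ip, sub_re, sub_im] at h1 ⊢; linarith)
    rcases (norm_nonneg d).eq_or_lt with h0 | h0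
    · exact ⟨0, ν, le_rfl, le_rfl, h.le, by rw [e, ← h0]; simp⟩
    refine ⟨_, _, h0.le, by linarith, ?_, e⟩
    by_contra hc
    have h3 : 0 < sin (ν + arg d - μ) :=
      sin_pos_of_pos_of_lt_pi (by linarith) (by linarith [arg_le_pi d])
    have h4 : ip (ex μ) (y - x) = -(‖d‖ * sin (ν + arg d - μ)) := by
      rw [e, Real.sin_sub]; simp [ip, ex]; ring
    simp only [ip, sub_re, sub_im] at h2 h4
    nlinarith [mul_pos h0 h3]
  · refine ⟨dt (ex ν) (y - x), ν, by simp only [dt, sub_re, sub_im] at h ⊢; linarith, le_rfl,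
      le_rfl, ?_⟩
    conv_lhs => rw [decomp ν (y - x), show ip (ex ν) (y - x) = 0 by
      simp only [ip, sub_re, sub_im] at h1 h2 ⊢; linarith]
    simp [Complex.ext_iff]; constructor <;> ring

theorem Ch.dt {d d' : ℂ} {a b a' b' : ℝ} (h : Ch d a b) (h' : Ch d' a' b') (h1 : b ≤ a')
    (h2 : b' ≤ a + π) : 0 ≤ dt d d' := by
  obtain ⟨s, κ, s0, k1, k2, rfl⟩ := h
  obtain ⟨s', κ', s0', k1', k2', rfl⟩ := h'
  have := sin_nonneg_of_nonneg_of_le_pi (x := κ' - κ) (by linarith) (by linarith)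
  have e : H80L.dt (s * (I * ex κ)) (s' * (I * ex κ')) = s * s' * sin (κ' - κ) := by
    rw [Real.sin_sub]; simp [H80L.dt, ex]; ring
  rw [e]
  positivity

theorem Ch.ip {d : ℂ} {a b g : ℝ} (h : Ch d a b) (h1 : g ≤ a) (h2 : b ≤ g + π) :
    ip (ex g) d ≤ 0 := by
  have := Ch.dt (d := I * ex g) ⟨1, g, zero_le_one, le_rfl, le_rfl, by simp⟩ h h1 h2
  simp only [H80L.dt, H80R.ip, mul_re, mul_im, I_re, I_im] at this ⊢
  linarith

theorem tri3 {a b c α β γ : _} (h1 : Ch (b - a) α β) (h2 : Ch (c - b) β γ)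
    (h3 : Ch (a - c) γ (α + 2 * π)) : 0 ≤ dt (b - a) (c - a) := by
  obtain ⟨s, κ, s0, k1, k2, e1⟩ := h1
  obtain ⟨s', κ', s0', k1', k2', e2⟩ := h2
  have c1 : Ch (b - a) κ κ := ⟨s, κ, s0, le_rfl, le_rfl, e1⟩
  have c2 : Ch (c - b) κ' κ' := ⟨s', κ', s0', le_rfl, le_rfl, e2⟩
  rcases le_total κ' (κ + π) with h | h
  · have := c1.dt c2 (by linarith) h
    simp only [dt, sub_re, sub_im] at this ⊢
    linarith
  · obtain ⟨s3, κ3, s03, k13, k23, e3⟩ := h3
    have := c2.dt (a' := κ3) (b' := κ3) ⟨s3, κ3, s03, le_rfl, le_rfl, e3⟩ (by linarith) (by linarith)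
    simp only [dt, sub_re, sub_im] at this ⊢
    linarith

theorem Sup.turn (h : Sup K x ν) : Sup K x (ν + 2 * π) := by
  simpa only [ex_two_pi, one_mul] using h.rot (K' := K) (2 * π) (by simp [ex_two_pi])

theorem key_eq (hx : Sup K x ν) (hy : Sup K y μ) (h : key x ν = key y μ) : x = y := by
  obtain ⟨rfl, h2⟩ := Prod.mk.inj (toLex.injective h)
  rw [decomp ν x, decomp ν y, h2, le_antisymm (hx.2 y hy.1) (hy.2 x hx.1)]

/-- every convex polygon in `K` has area at most `A` -/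
def Ar (K : Set ℂ) (A : ℝ) : Prop := ∀ (M : ℕ) (y : ℕ → ℂ), (∀ i ≤ M, y i ∈ K) →
  (∀ i j, i ≤ j → j ≤ M → 0 ≤ dt (y i - y 0) (y j - y 0)) →
  ∑ i ∈ range M, dt (y i - y 0) (y (i + 1) - y 0) ≤ 2 * A

theorem seq {A T : ℝ} (hA : Ar K A) {p r : ℕ} (hq : 0 < p * r) (hT : p * T = 2 * π) (Z : ℕ → ℂ)
    (N : ℕ → ℝ) (hs : ∀ n, Sup K (Z n) (N n)) (hm : Monotone fun n => key (Z n) (N n))
    (hZ : ∀ n, Z (n + r) = ex T * Z n) (hN : ∀ n, N (n + r) = N n + T) :
    ∃ S : ℕ → ℝ, (∀ n a, S (n + a * r) = S n + a * S r) ∧ p * S r ≤ 2 * A ∧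
      ∀ n n' j, key (Z n) (N n) ≤ key (Z n') (N n') → dt (Z j) (Z n' - Z n) ≤ S n' - S n := by
  have z1 : ∀ a n : ℕ, Z (n + a * r) = ex (a * T) * Z n ∧ N (n + a * r) = N n + a * T := by
    intro a n
    induction a with
    | zero => simp [ex_zero]
    | succ a ih =>
      rw [add_mul, one_mul, ← add_assoc, hZ, hN, ih.1, ih.2, ← mul_assoc, ← ex_add]
      push_cast
      exact ⟨by ring_nf, by ring⟩
  have z2 : Function.Periodic Z (p * r) := fun n => by rw [(z1 p n).1, hT, ex_two_pi, one_mul]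
  have t3 : ∀ a b c, a ≤ b → b ≤ c → c ≤ a + p * r → 0 ≤ dt (Z b - Z a) (Z c - Z a) := by
    intro a b c h1 h2 h3
    have := chord (hs _) (hs _) (hm h3)
    rw [z2, (z1 p a).2, hT] at this
    exact tri3 (chord (hs _) (hs _) (hm h1)) (chord (hs _) (hs _) (hm h2)) this
  have s1 : ∀ n, ∑ i ∈ range (n + r), dt (Z i) (Z (i + 1)) =
      ∑ i ∈ range n, dt (Z i) (Z (i + 1)) + ∑ i ∈ range r, dt (Z i) (Z (i + 1)) := by
    intro n
    rw [add_comm, sum_range_add, add_comm]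
    congr 1
    exact sum_congr rfl fun i _ => by
      rw [add_comm r, add_right_comm, hZ, hZ, dt_ex]
  have s2 : ∀ n a : ℕ, ∑ i ∈ range (n + a * r), dt (Z i) (Z (i + 1)) =
      ∑ i ∈ range n, dt (Z i) (Z (i + 1)) + a * ∑ i ∈ range r, dt (Z i) (Z (i + 1)) := by
    intro n a
    induction a with
    | zero => simp
    | succ a ih => rw [add_mul, one_mul, ← add_assoc, s1, ih]; push_cast; ring
  refine ⟨fun n => ∑ i ∈ range n, dt (Z i) (Z (i + 1)), s2, ?_, fun n n' j h => ?_⟩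
  · have := hA (p * r) Z (fun i _ => (hs i).1) fun i j h1 h2 => t3 0 i j (Nat.zero_le _) h1 (by omega)
    have e : ∀ n, ∑ i ∈ range n, dt (Z i - Z 0) (Z (i + 1) - Z 0) =
        ∑ i ∈ range n, dt (Z i) (Z (i + 1)) + dt (Z n) (Z 0) := fun n => by
      induction n with
      | zero => simp [dt, mul_comm]
      | succ n ih => rw [sum_range_succ, sum_range_succ, ih]; simp only [dt, sub_re, sub_im]; ring
    have e2 := s2 0 p
    have e3 := z2 0
    rw [zero_add] at e2 e3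
    rw [e, e2, e3] at this
    simpa [dt, mul_comm] using this
  rcases le_total n n' with h1 | h1
  · clear h
    induction n', h1 using Nat.le_induction with
    | base => simp [dt]
    | succ k hk ih =>
      have h2 := t3 k (k + 1) (k + 1 + (j + (p * r - 1) * (k + 1)) % (p * r)) (by omega) (by omega)
        (by have := Nat.mod_lt (j + (p * r - 1) * (k + 1)) hq; omega)
      have h3 : Z (k + 1 + (j + (p * r - 1) * (k + 1)) % (p * r)) = Z j := by
        rw [← z2.map_mod_nat, Nat.add_mod_mod, ← z2.map_mod_nat j]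
        congr 1
        obtain ⟨u, hu⟩ := Nat.exists_eq_add_of_lt hq
        rw [hu, zero_add, Nat.add_sub_cancel,
          show k + 1 + (j + u * (k + 1)) = j + (u + 1) * (k + 1) by ring, Nat.add_mul_mod_self_left]
      rw [h3] at h2
      simp only [sum_range_succ, dt, sub_re, sub_im] at ih h2 ⊢
      linarith
  · suffices Z n = Z n' ∧ ∑ i ∈ range n, dt (Z i) (Z (i + 1)) =
        ∑ i ∈ range n', dt (Z i) (Z (i + 1)) by
      simp only [this.1, this.2, sub_self]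
      simp [dt]
    induction n, h1 using Nat.le_induction with
    | base => exact ⟨rfl, rfl⟩
    | succ k hk ih =>
      obtain ⟨i1, i2⟩ := ih ((hm k.le_succ).trans h)
      have i3 := key_eq (hs _) (hs _) (h.antisymm (hm (by omega)))
      exact ⟨i3, by rw [sum_range_succ, i2, i1, i3]; simp [dt, mul_comm]⟩

theorem pot {A T : ℝ} (hA : Ar K A) {p r : ℕ} (hp : 0 < p) (hr : 0 < r) (hT : p * T = 2 * π)
    (hK : ∀ (k : ℤ) z, ex (k * T) * z ∈ K ↔ z ∈ K) (z : ℕ → ℂ) (ν : ℕ → ℝ)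
    (hs : ∀ i < r, Sup K (z i) (ν i)) (h0 : ∀ i < r, -π ≤ ν i) :
    ∃ (s : ℕ → ℝ) (S : ℝ), p * S ≤ 2 * A ∧ ∀ i < r, ∀ j < r, ∀ l < r, ∀ a b c : ℕ,
      key (ex (a * T) * z i) (ν i + a * T) ≤ key (ex (b * T) * z j) (ν j + b * T) →
      dt (ex (c * T) * z l) (ex (b * T) * z j - ex (a * T) * z i) ≤
        s j + b * S - (s i + a * S) := by
  have T0 : 0 < T := (mul_pos_iff_of_pos_left (by exact_mod_cast hp : (0 : ℝ) < p)).1
    (by rw [hT]; positivity)
  obtain ⟨f, hf⟩ : ∃ f : ℕ → ℕ, ∀ i < r, f i * T ≤ ν i + π ∧ ν i + π < (f i + 1) * T :=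
    ⟨fun i => ⌊(ν i + π) / T⌋₊, fun i hi => ⟨(le_div_iff₀ T0).1 (Nat.floor_le
      (div_nonneg (by linarith [h0 i hi]) T0.le)), (div_lt_iff₀ T0).1 (Nat.lt_floor_add_one _)⟩⟩
  let k : Fin r → ℝ ×ₗ ℝ := fun i => key (ex (-(f i * T)) * z i) (ν i + -(f i * T))
  let σ : ℕ → Fin r := fun n => Tuple.sort k ⟨n % r, Nat.mod_lt _ hr⟩
  have eσ : ∀ n a, σ (n + a * r) = σ n := fun n a => by simp [σ]
  obtain ⟨S, s1, s2, s3⟩ := seq hA (Nat.mul_pos hp hr) hT
    (fun n => ex ((((n / r : ℕ) : ℤ) - f (σ n) : ℤ) * T) * z (σ n))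
    (fun n => ν (σ n) + (((n / r : ℕ) : ℤ) - f (σ n) : ℤ) * T)
    (fun n => (hs _ (σ n).2).rot _ (hK _)) (fun n n' h => by
      rcases (Nat.div_le_div_right (c := r) h).eq_or_lt with h1 | h1
      · have h2 : k (σ n) ≤ k (σ n') := Tuple.monotone_sort k (show n % r ≤ n' % r by
          have := Nat.div_add_mod n r
          have := Nat.div_add_mod n' r
          rw [h1] at *
          omega)
        have := (key_rot ((n / r : ℕ) * T)).2 h2
        have e : ∀ a : ℕ, ((((n' / r : ℕ) : ℤ) - a : ℤ) : ℝ) * T = (n' / r : ℕ) * T + -(a * T) :=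
          fun a => by rw [Int.cast_sub, Int.cast_natCast, Int.cast_natCast]; ring
        simp only [← mul_assoc, ← ex_add, h1, e] at this ⊢
        convert this using 1 <;> congr 1 <;> ring
      · refine lex_le.2 (Or.inl ?_)
        have h2 : ((n / r : ℕ) : ℝ) + 1 ≤ (n' / r : ℕ) := by exact_mod_cast h1
        simp only [Int.cast_sub, Int.cast_natCast]
        nlinarith [(hf _ (σ n).2).2, (hf _ (σ n').2).1])
    (fun n => by
      have := eσ n 1
      rw [one_mul] at this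
      simp only [this, Nat.add_div_right _ hr, ← mul_assoc, ← ex_add, Int.cast_sub,
        Int.cast_natCast, Nat.cast_succ, Int.cast_add, Int.cast_one]
      congr 2
      ring)
    (fun n => by
      have := eσ n 1
      rw [one_mul] at this
      simp only [this, Nat.add_div_right _ hr, Int.cast_sub, Int.cast_natCast, Nat.cast_succ,
        Int.cast_add, Int.cast_one]
      ring)
  have ix : ∀ i < r, ∃ n, ∀ a : ℕ, (σ (n + a * r) : ℕ) = i ∧ (n + a * r) / r = f i + a := by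
    intro i hi
    refine ⟨(Tuple.sort k).symm ⟨i, hi⟩ + f i * r, fun a => ⟨?_, ?_⟩⟩
    · rw [eσ, eσ]
      simp [σ, Nat.mod_eq_of_lt ((Tuple.sort k).symm ⟨i, hi⟩).2]
    · rw [add_assoc, ← add_mul, Nat.add_mul_div_right _ _ hr,
        Nat.div_eq_of_lt ((Tuple.sort k).symm ⟨i, hi⟩).2, zero_add]
  choose! n hn using ix
  refine ⟨fun i => S (n i), S r, s2, fun i hi j hj l hl a b c h => ?_⟩
  have := s3 (n i + a * r) (n j + b * r) (n l + c * r)
  simp only [hn i hi, hn j hj, hn l hl, s1, Nat.cast_add, add_sub_cancel_left, Int.cast_natCast]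
    at this
  exact this h

end Pool.Agent.MP_5c967c_co.H80R
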