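import Pool.Agent.MP_5c967c_co.H80R.Snd1
import Pool.Agent.MP_5c967c_co.H80R.Sup

/-! Soundness of the checker: the geometric data, the order table, the coordinates. -/

namespace Pool.Agent.MP_5c967c_co.H80R

open H44 H80L Real
open Complex hiding sin cos exp

/-- the unit of angle -/
noncomputable def Par.γ (P : Par) : ℝ := 2 * π / P.NG

/-- consistency of the parameters -/
structure WF (P : Par) : Prop where
  hp : 0 < P.p
  hN : 0 < P.N
  hG : 0 < P.G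
  eG : P.G * P.p = P.NG
  eq : 4 * P.q = P.NG
  er : P.r = 6 * P.N + 1
  em : P.m = P.r + 2 * P.G
  en : P.n = 7 * P.N + 1
  eL : P.m ∣ P.Lm
  n64 : P.n ≤ 64
  ct : ∀ k < P.NG, |(look 32 P.CT k : ℝ) - 2 ^ 31 - 2 ^ 30 * cos (k * P.γ)| ≤ 2

/-- first coordinate of an item -/
noncomputable def cA (v : ℕ → ℝ) (t : ℕ) : ℝ := look 2 1030 (t % 6) * v (7 * (t / 6) + 1) +
  v (7 * (t / 6) + 1 + look 3 185049 (t % 6)) + (look 5 406851984 (t % 6) - 8)

/-- second coordinate of an item -/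
noncomputable def cB (v : ℕ → ℝ) (t : ℕ) : ℝ :=
  v (7 * (t / 6) + 1 + look 3 185049 (t % 6) + 1) + (look 4 1150968 (t % 6) - 8)

/-- the geometric data -/
structure Geo (P : Par) where
  K : Set ℂ
  A : ℝ
  v : ℕ → ℝ
  x : ℕ → ℂ
  ν : ℕ → ℝ
  S : ℕ → ℝ
  v0 : v 0 = 1
  x0 : x 0 = 1
  ν0 : ν 0 = 0
  xs : ∀ a k : ℕ, x (a + k * P.m) = ex (k * (P.G * P.γ)) * x a
  νs : ∀ a k : ℕ, ν (a + k * P.m) = ν a + k * (P.G * P.γ)
  mkr : ∀ h, ν (mk P h) = (h / 2 : ℕ) * P.γ ∧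
    dt (ex (ν (mk P h))) (x (mk P h)) = if h % 2 = 0 then -2 else 2
  sup : ∀ a, a % P.m < P.r → Sup K (x a) (ν a)
  dsc : ∀ z ∈ K, ‖z‖ ≤ 1
  crd : ∀ t < 6 * P.N, 8 * x (t + 1) = ex ((t / 6 : ℕ) * P.γ) * ⟨cA v t, cB v t⟩
  opp : ∀ c, ν (hi P c) = ν (lo P c) + π
  pt : ∀ a b c, a % P.m < P.r → b % P.m < P.r → c % P.m < P.r →
    key (x a) (ν a) ≤ key (x b) (ν b) → dt (x c) (x b - x a) ≤
      S (b % P.m) + (b / P.m : ℕ) * S P.m - (S (a % P.m) + (a / P.m : ℕ) * S P.m)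
  A0 : 0 ≤ A
  sA : P.p * S P.m ≤ 2 * A
  ar : ∀ j < P.N, 32000000 * A ≤
    892691 * ((v (7 * j + 1) + 8) * (v (7 * j + 5) + 14 - v (7 * j + 7)))

variable {P : Par} (g : Geo P)

/-- position in the cyclic order -/
noncomputable def Geo.k (a : ℕ) : ℝ ×ₗ ℝ := key (g.x a) (g.ν a)

/-- the relation stored at a position of the table -/
def Geo.R (i : ℕ) : Prop := g.k (i / (2 * P.Lm) + P.Lm) ≤ g.k (i % (2 * P.Lm))

/-- a valid table -/
def Geo.Val (T : ℕ) : Prop := ∀ i, T.testBit i = true → g.R i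

theorem Geo.sh (a b k : ℕ) : g.k (a + k * P.m) ≤ g.k (b + k * P.m) ↔ g.k a ≤ g.k b := by
  simp only [Geo.k, g.xs, g.νs, key_rot]

theorem bit_eq {T i : ℕ} (h : bit T i = true) : T.testBit i = true := by
  have : 1 = T >>> i % 2 := Nat.eq_of_beq_eq_true h
  rw [Nat.testBit, Nat.one_and_eq_mod_two, ← this]
  rfl

theorem mod_eq (a b : ℕ) : a.mod b = a % b := rfl

theorem div_eq (a b : ℕ) : a.div b = a / b := rfl

theorem real_eq {a : ℕ} (h : real P a = true) : a % P.m < P.r := Nat.le_of_ble_eq_true h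

variable {g} (w : WF P) {T a b : ℕ}
include w

theorem pos_sound {k : ℕ → Bool} (h : pos P a b k = true) :
    ∃ i, k i = true ∧ (g.R i ↔ g.k a ≤ g.k b) := by
  simp only [pos, frc_eq, band_eq] at h
  obtain ⟨h1, h2, h3⟩ := h
  refine ⟨_, h3, ?_⟩
  have h1 : a ≤ P.Lm := Nat.le_of_ble_eq_true h1
  have h2 : b + 1 ≤ P.Lm := Nat.le_of_ble_eq_true h2
  obtain ⟨L, hL⟩ := w.eL
  have e := Nat.div_add_mod a P.m
  have h4 : a / P.m ≤ L := Nat.div_le_of_le_mul (hL ▸ h1)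
  obtain ⟨u, rfl⟩ := Nat.exists_eq_add_of_le h4
  rw [mul_add, mul_comm _ u] at hL
  have h5 : b + P.Lm + a % P.m - a < 2 * P.Lm := by omega
  show g.R (a % P.m * (2 * P.Lm) + (b + P.Lm + a % P.m - a)) ↔ _
  rw [Geo.R, add_comm (_ * _), Nat.add_mul_div_right _ _ (by omega), Nat.add_mul_mod_self_right,
    Nat.div_eq_of_lt h5, Nat.mod_eq_of_lt h5, ← g.sh a b u]
  congr! 2 <;> omega

theorem le_sound (hT : g.Val T) (h : le P T a b = true) : g.k a ≤ g.k b := by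
  obtain ⟨i, h1, h2⟩ := pos_sound (g := g) w h
  exact h2.1 (hT i (bit_eq h1))

theorem put_sound {k : ℕ → Bool} (hT : g.Val T) (hab : g.k a ≤ g.k b)
    (h : put P T a b k = true) : ∃ T, g.Val T ∧ k T = true := by
  obtain ⟨i, h1, h2⟩ := pos_sound (g := g) w h
  rw [frc_eq] at h1
  refine ⟨_, fun j hj => ?_, h1⟩
  have hj : (T ||| 1 <<< i).testBit j = true := hj
  rw [Nat.testBit_or, Bool.or_eq_true, Nat.one_shiftLeft] at hj
  exact hj.elim (hT j) fun hj => by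
    rw [Nat.testBit_two_pow, decide_eq_true_eq] at hj
    exact hj ▸ h2.2 hab

theorem puts_sound {k : ℕ → Bool} : ∀ (l : List (ℕ × ℕ)) (T : ℕ), g.Val T →
    (∀ a ∈ l, g.k a.1 ≤ g.k a.2) → puts P l k T = true → ∃ T, g.Val T ∧ k T = true
  | [], T, hT, _, h => ⟨T, hT, h⟩
  | a :: l, T, hT, hl, h => by
    obtain ⟨T, hT, h⟩ := put_sound w hT (hl a List.mem_cons_self) h
    exact puts_sound l T hT (fun a ha => hl a (List.mem_cons_of_mem _ ha)) h

theorem WF.γ0 : 0 < P.γ := by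
  have : 0 < P.NG := w.eG ▸ Nat.mul_pos w.hG w.hp
  unfold Par.γ
  positivity

theorem WF.q2 : P.q * P.γ = π / 2 := by
  have : 0 < P.NG := w.eG ▸ Nat.mul_pos w.hG w.hp
  have h : (P.q : ℝ) ≠ 0 := by have := w.eq; exact_mod_cast (by omega : P.q ≠ 0)
  rw [Par.γ, ← w.eq]
  push_cast
  field_simp
  norm_num

theorem WF.ng : P.NG * P.γ = 2 * π := by
  rw [← w.eq]
  push_cast
  linarith [w.q2]

theorem WF.pg : P.p * (P.G * P.γ) = 2 * π := by
  rw [← w.ng, ← w.eG]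
  push_cast
  ring

theorem WF.lohi (c : ℕ) : lo P c % P.m < P.r ∧ hi P c % P.m < P.r := by
  have h1 := Nat.mod_lt c w.hN
  have h2 := w.er
  have h3 := w.em
  have h4 := Nat.mod_lt (c / P.N) two_pos
  have e : ∀ a b, b < P.r → (a * P.m + b) % P.m < P.r := fun a b h => by
    rw [Nat.mul_add_mod_self_right, Nat.mod_eq_of_lt (by omega)]; exact h
  exact ⟨e _ (6 * (c % P.N) + 1 + 3 * (c / P.N % 2)) (by omega),
    e _ (6 * (c % P.N) + 1 + 3 * (1 - c / P.N % 2)) (by omega)⟩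

omit w in
theorem Geo.sg (h : a % P.m < P.r) : |dt (ex (g.ν a)) (g.x a)| ≤ 1 := by
  have := (abs_im_le_norm (⟨ip (ex (g.ν a)) (g.x a), dt (ex (g.ν a)) (g.x a)⟩ : ℂ))
  have h2 := g.dsc _ (g.sup a h).1
  rw [decomp (g.ν a) (g.x a), norm_mul, norm_ex, one_mul] at h2
  exact this.trans h2

omit w in
theorem le_mk (h : a % P.m < P.r) : g.k a ≤ g.k (mk P b) ↔
    g.ν a < (b / 2 : ℕ) * P.γ ∨ g.ν a = (b / 2 : ℕ) * P.γ ∧ b % 2 = 1 := by
  have := abs_le.1 (Geo.sg (g := g) h)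
  rw [Geo.k, Geo.k, key, key, lex_le, (g.mkr b).2, (g.mkr b).1]
  refine or_congr_right (and_congr_right fun _ => ?_)
  split_ifs with h
  exacts [⟨fun _ => by linarith, by omega⟩, ⟨fun _ => by omega, fun _ => by linarith⟩]

omit w in
theorem mk_le (h : a % P.m < P.r) : g.k (mk P b) ≤ g.k a ↔
    (b / 2 : ℕ) * P.γ < g.ν a ∨ (b / 2 : ℕ) * P.γ = g.ν a ∧ b % 2 = 0 := by
  have := abs_le.1 (Geo.sg (g := g) h)
  rw [Geo.k, Geo.k, key, key, lex_le, (g.mkr b).2, (g.mkr b).1]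
  refine or_congr_right (and_congr_right fun _ => ?_)
  split_ifs with h
  exacts [⟨fun _ => h, fun _ => by linarith⟩, ⟨fun _ => by linarith, fun c => (h c).elim⟩]

theorem WF.half (b : ℕ) : ((b + P.NG) / 2 : ℕ) * P.γ = (b / 2 : ℕ) * P.γ + π ∧
    (b + P.NG) % 2 = b % 2 := by
  have := w.eq
  rw [show (b + P.NG) / 2 = b / 2 + 2 * P.q by omega]
  push_cast
  exact ⟨by linarith [w.q2], by omega⟩

theorem step_sound {ty : ℕ} {k : ℕ → Bool} (hT : g.Val T) (h : step P T ty a b k = true) :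
    ∃ T, g.Val T ∧ k T = true := by
  rcases ty with _ | _ | ty
  · simp only [step, frc_eq, Nat.rec_zero, band_eq] at h
    obtain ⟨h1, h2, h⟩ := h
    have h1 : b < 2 * P.Lm := Nat.le_of_ble_eq_true h1
    have r0 : ∀ i j, j < 2 * P.Lm → (g.R (i * (2 * P.Lm) + j) ↔ g.k (i + P.Lm) ≤ g.k j) :=
      fun i j h => by
        rw [Geo.R, add_comm (_ * _), Nat.add_mul_div_right _ _ (by omega),
          Nat.add_mul_mod_self_right, Nat.div_eq_of_lt h, Nat.mod_eq_of_lt h, zero_add]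
    have h2 := (r0 a b h1).1 (hT _ (bit_eq h2))
    refine ⟨_, fun j hj => ?_, h⟩
    have hj : (T ||| ((((T >>> (2 * P.Lm * (b % P.m)) % 1 <<< (2 * P.Lm)) <<< (b - b % P.m)) >>>
      P.Lm) % 1 <<< (2 * P.Lm)) <<< (a * (2 * P.Lm))).testBit j = true := hj
    simp only [Nat.testBit_or, Bool.or_eq_true, Nat.one_shiftLeft, Nat.testBit_shiftLeft,
      Nat.testBit_mod_two_pow, Nat.testBit_shiftRight, Bool.and_eq_true, decide_eq_true_eq] at hj
    refine hj.elim (hT j) fun ⟨j1, j2, j3, j4, j5⟩ => ?_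
    obtain ⟨j, rfl⟩ := Nat.exists_eq_add_of_le j1
    rw [Nat.add_sub_cancel_left] at j2 j3 j4 j5
    have h3 := (r0 _ _ j4).1 (hT _ (mul_comm (2 * P.Lm) _ ▸ j5))
    obtain ⟨L, hL⟩ := w.eL
    have e := Nat.div_add_mod b P.m
    rw [← g.sh _ _ (b / P.m)] at h3
    refine (r0 _ _ j2).2 (h2.trans ((g.sh _ _ L).1 ?_))
    rw [mul_comm] at e hL
    convert h3 using 2 <;> omega
  · simp only [step, Nat.rec_zero, band_eq] at h
    refine put_sound w hT ?_ h.2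
    have := (le_mk (w.lohi a).1).1 (le_sound w hT h.1)
    rw [le_mk (w.lohi a).2, g.opp, show b.add P.NG = b + P.NG from rfl, (w.half b).1,
      (w.half b).2]
    simpa using this
  · simp only [step, band_eq] at h
    refine put_sound w hT ?_ h.2
    have := (mk_le (w.lohi a).1).1 (le_sound w hT h.1)
    rw [mk_le (w.lohi a).2, g.opp, show b.add P.NG = b + P.NG from rfl, (w.half b).1,
      (w.half b).2]
    simpa using this

theorem der_sound {k : ℕ → Bool} : ∀ f c T : ℕ, g.Val T → der P k f c T = true →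
    ∃ T, g.Val T ∧ k T = true
  | 0, _, _, _, h => by simp [der] at h
  | f + 1, 0, T, hT, h => ⟨T, hT, h⟩
  | f + 1, c + 1, T, hT, h => by
    have e : der P k (f + 1) (c + 1) T = step P T ((c + 1) % 4) ((c + 1) >>> 2 % 1024)
        ((c + 1) >>> 12 % 4096) (der P k f ((c + 1) >>> 24)) := by
      simp only [der, frc_eq]; rfl
    obtain ⟨T, hT, h⟩ := step_sound w hT (e ▸ h)
    exact der_sound f _ T hT h

theorem bad_sound {h h' : ℕ} (ha : a % P.m < P.r) (hh : h' ≤ h) (h1 : g.k (mk P h) ≤ g.k a)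
    (h2 : g.k a ≤ g.k (mk P h')) : False := by
  rw [mk_le ha] at h1
  rw [le_mk ha] at h2
  have h3 : ((h' / 2 : ℕ) : ℝ) * P.γ ≤ (h / 2 : ℕ) * P.γ :=
    mul_le_mul_of_nonneg_right (by exact_mod_cast Nat.div_le_div_right hh) w.γ0.le
  rcases h1 with h1 | ⟨h1, h4⟩ <;> rcases h2 with h2 | ⟨h2, h5⟩ <;> try linarith
  have : h / 2 = h' / 2 := by exact_mod_cast mul_right_cancel₀ w.γ0.ne' (h1.trans h2)
  omega

/-- a packed form which approximates a real number -/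
def LA (g : Geo P) (s : ℕ) (T : ℤ) (y : ℝ) (k : ℕ) : Prop :=
  ∃ X, LRep g.v P.n s T X (k * 2 ^ 35) ∧ |X - 2 ^ 33 * y| ≤ 32 * (k : ℝ)

theorem WF.trig (ρ : ℕ) : ∃ c : ℤ, (look 32 P.CT (ρ % P.NG) : ℤ) = c + 2 ^ 31 ∧
    |c - 2 ^ 30 * cos (ρ * P.γ)| ≤ 2 ∧ c.natAbs ≤ 2 ^ 30 + 2 := by
  have h := w.ct _ (Nat.mod_lt ρ (w.eG ▸ Nat.mul_pos w.hG w.hp))
  have e : cos ((ρ % P.NG : ℕ) * P.γ) = cos (ρ * P.γ) := by
    conv_rhs => rw [← Nat.mod_add_div ρ P.NG]
    push_cast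
    rw [add_mul, mul_right_comm, w.ng, mul_comm (2 * π), Real.cos_add_nat_mul_two_pi]
  rw [e] at h
  refine ⟨look 32 P.CT (ρ % P.NG) - 2 ^ 31, by ring, by exact_mod_cast h, ?_⟩
  have h1 := abs_le.1 h
  have h2 : |(look 32 P.CT (ρ % P.NG) : ℝ) - 2 ^ 31| ≤ 2 ^ 30 + 2 := abs_le.2
    ⟨by linarith [Real.neg_one_le_cos (ρ * P.γ)], by linarith [Real.cos_le_one (ρ * P.γ)]⟩
  zify
  exact_mod_cast h2

theorem xq_sound (s c : ℕ) (ha : a % P.m < P.r) : ∃ U O : ℕ, (∀ k, xq P s a c k = k U O) ∧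
    LA g s (U - O) (ex (c * P.γ) * g.x a).re 1 := by
  have e := g.xs (a % P.m) (a / P.m)
  rw [Nat.mod_add_div'] at e
  have n0 : 0 < P.n := by have := w.en; omega
  have hx := g.dsc _ (g.sup (a % P.m) (by rwa [Nat.mod_mod])).1
  simp only [xq, frc_eq]
  rw [show Nat.mod a P.m = a % P.m from rfl, e]
  generalize a % P.m = t at *
  obtain ⟨ρ, hρ⟩ : ∃ ρ, ρ = a / P.m * P.G + (t - 1) / 6 + c := ⟨_, rfl⟩
  rw [show (((a.div P.m).mul P.G).add (t.pred.div 6)).add c = ρ from hρ.symm]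
  obtain ⟨x, x1, x2, x3⟩ := w.trig ρ
  rcases t with _ | t
  · refine ⟨8 * look 32 P.CT (ρ % P.NG), 17179869184, fun k => by simp only [xp, frc_eq]; rfl,
      _, (lconst n0 g.v0 (8 * x)).cast (by push_cast; omega) rfl (by omega), ?_⟩
    rw [g.x0, mul_one, ← ex_add, show c * P.γ + (a / P.m : ℕ) * (P.G * P.γ) = ρ * P.γ by
      rw [hρ]; push_cast; simp; ring]
    have := abs_le.1 x2
    simp only [ex]
    push_cast
    rw [abs_le]
    constructor <;> linarith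
  obtain ⟨y, y1, y2, y3⟩ := w.trig (ρ + P.q)
  have t6 : t < 6 * P.N := by have := w.er; omega
  have e2 := g.crd t t6
  have hb : look 2 1030 (t % 6) ≤ 2 ∧ look 3 185049 (t % 6) ≤ 5 ∧ look 5 406851984 (t % 6) ≤ 16 ∧
      look 4 1150968 (t % 6) ≤ 16 := by
    have := Nat.mod_lt t (by norm_num : 0 < 6)
    generalize t % 6 = e at *
    revert e
    decide +kernel
  have en := w.en
  have fA := ladd (ladd (lconst (s := s) n0 g.v0 (look 5 406851984 (t % 6) - 8))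
    (lone (i := 7 * (t / 6) + 1) (by omega)) (look 2 1030 (t % 6)))
    (lone (i := 7 * (t / 6) + 1 + look 3 185049 (t % 6)) (by omega)) 1
  have fB := ladd (lconst (s := s) n0 g.v0 (look 4 1150968 (t % 6) - 8))
    (lone (i := 7 * (t / 6) + 1 + look 3 185049 (t % 6) + 1) (by omega)) 1
  refine ⟨_, _, fun k => by simp only [xp, frc_eq]; rfl, x * cA g.v t + y * cB g.v t,
    (ladd (ladd LRep.zero (fA.cast rfl rfl (S' := 11) (by omega)) x)
      (fB.cast rfl rfl (S' := 9) (by omega)) y).cast ?_ (by simp [cA, cB]; ring) (by omega), ?_⟩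
  · simp only [Nat.add_eq, Nat.mul_eq, Nat.shiftLeft_eq', Nat.shiftLeft_eq, Nat.succ_eq_add_one,
      mod_eq, div_eq]
    push_cast
    rw [x1, y1]
    ring
  have h8 : ‖(⟨cA g.v t, cB g.v t⟩ : ℂ)‖ ≤ 8 := by
    have := congrArg norm e2
    rw [norm_mul, norm_mul, norm_ex, one_mul] at this
    simp only [Complex.norm_ofNat] at this
    linarith
  have hA : |cA g.v t| ≤ 8 := (abs_re_le_norm (⟨_, cB g.v t⟩ : ℂ)).trans h8
  have hB : |cB g.v t| ≤ 8 := (abs_im_le_norm (⟨cA g.v t, _⟩ : ℂ)).trans h8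
  have e3 : 8 * (ex (c * P.γ) * (ex ((a / P.m : ℕ) * (P.G * P.γ)) * g.x (t + 1))) =
      ex (ρ * P.γ) * ⟨cA g.v t, cB g.v t⟩ := by
    rw [mul_left_comm, mul_left_comm 8, e2, ← mul_assoc, ← mul_assoc, ← ex_add, ← ex_add, hρ]
    push_cast
    congr 2
    ring
  have e4 := congrArg re e3
  rw [Nat.cast_add, add_mul, w.q2, Real.cos_add_pi_div_two] at y2
  generalize ex (c * P.γ) * (ex ((a / P.m : ℕ) * (P.G * P.γ)) * g.x (t + 1)) = z at *
  simp only [ex, mul_re, re_ofNat, im_ofNat] at e4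
  rw [show x * cA g.v t + y * cB g.v t - 2 ^ 33 * z.re = (x - 2 ^ 30 * cos (ρ * P.γ)) * cA g.v t +
    (y - 2 ^ 30 * -sin (ρ * P.γ)) * cB g.v t by linear_combination -2 ^ 30 * e4]
  refine (abs_add_le _ _).trans ?_
  rw [abs_mul, abs_mul]
  have := mul_le_mul x2 hA (abs_nonneg _) zero_le_two
  have := mul_le_mul y2 hB (abs_nonneg _) zero_le_two
  push_cast
  linarith

theorem two_sound (s c d : ℕ) (ha : a % P.m < P.r) (hb : b % P.m < P.r) :
    ∃ U O : ℕ, (∀ k, two P s a c b d k = k U O) ∧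
      LA g s (U - O) ((ex (c * P.γ) * g.x a).re - (ex (d * P.γ) * g.x b).re) 2 := by
  obtain ⟨U, O, h1, X, h2, h3⟩ := xq_sound (g := g) w s c ha
  obtain ⟨U', O', h1', X', h2', h3'⟩ := xq_sound (g := g) w s d hb
  refine ⟨U + O', O + U', fun k => by simp only [two, h1, h1', frc_eq]; rfl, X - X',
    (lsub h2 h2').cast (by push_cast; ring) rfl (by omega), ?_⟩
  rw [abs_le] at *
  push_cast at *
  constructor <;> linarith [h3.1, h3.2, h3'.1, h3'.2]

end Pool.Agent.MP_5c967c_co.H80R
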