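import Pool.Agent.MP_5c967c_co.H80R.Snd2

/-! Soundness of the checker: the constraints. -/

namespace Pool.Agent.MP_5c967c_co.H80R

open H44 H80L Real
open Complex hiding sin cos exp

variable {P : Par} {g : Geo P} {T a b : ℕ}

/-- the value of a cut -/
noncomputable def cv (v : ℕ → ℝ) (n c : ℕ) : ℝ := (1 - 2 * (c % 2 : ℕ)) * val v n 16 (c / 2)

theorem cutv_eq (s n e : ℕ) :
    cutv s n e = ((1048576 : ℕ) - (2097152 : ℕ) * (e % 2 : ℕ)) * pk 16 s n (e / 2) := by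
  unfold cutv
  generalize 2097152 = u
  generalize 1048576 = t
  rw [Int.subNatNat_eq_coe]
  rfl

theorem nth_sound {k : ℕ → Bool} : ∀ (l : List ℕ) (i : ℕ), nth l i k = true →
    ∃ a ∈ l, k a = true
  | [], _, h => by simp [nth] at h
  | a :: _, 0, h => ⟨a, List.mem_cons_self, h⟩
  | _ :: l, i + 1, h => (nth_sound l i h).imp fun _ h => ⟨List.mem_cons_of_mem _ h.1, h.2⟩

theorem ex_nat (k : ℕ) : ex (k * (2 * π)) = 1 := by
  simpa [ex, Complex.ext_iff] using Real.sin_add_nat_mul_two_pi 0 k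

theorem pe {U X u x : ℝ} (h1 : |U - 2 ^ 33 * u| ≤ 64) (h2 : |X - 2 ^ 33 * x| ≤ 64) (h3 : |u| ≤ 2)
    (h4 : |x| ≤ 2) : |U * X - 2 ^ 66 * (u * x)| ≤ 2 ^ 42 := by
  rw [show U * X - 2 ^ 66 * (u * x) = (U - 2 ^ 33 * u) * (X - 2 ^ 33 * x) +
    2 ^ 33 * ((U - 2 ^ 33 * u) * x + (X - 2 ^ 33 * x) * u) by ring]
  have a1 := mul_le_mul h1 h2 (abs_nonneg _) (by norm_num)
  have a2 := mul_le_mul h1 h4 (abs_nonneg _) (by norm_num)
  have a3 := mul_le_mul h2 h3 (abs_nonneg _) (by norm_num)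
  rw [← abs_mul, abs_le] at a1 a2 a3
  rw [abs_le]
  constructor <;> linarith [a1.1, a1.2, a2.1, a2.2, a3.1, a3.2]

theorem Geo.ch (ha : a % P.m < P.r) (hb : b % P.m < P.r) (h : g.k a ≤ g.k b) :
    Ch (g.x b - g.x a) (g.ν a) (g.ν b) := chord (g.sup a ha) (g.sup b hb) h

theorem Geo.n2 (ha : a % P.m < P.r) (hb : b % P.m < P.r) : ‖g.x b - g.x a‖ ≤ 2 := by
  linarith [norm_sub_le (g.x b) (g.x a), g.dsc _ (g.sup a ha).1, g.dsc _ (g.sup b hb).1]

variable (w : WF P)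
include w

theorem WF.n0 : 0 < P.n := by have := w.en; omega

theorem WF.co (z : ℂ) : (ex ((0 : ℕ) * P.γ) * z).re = z.re ∧
    (ex ((Nat.mul 3 P.q : ℕ) * P.γ) * z).re = z.im := by
  have : ((Nat.mul 3 P.q : ℕ) : ℝ) * P.γ = π + π / 2 := by
    rw [Nat.mul_eq]; push_cast; linarith [w.q2]
  rw [this]
  simp [ex, Real.cos_add, Real.sin_add]

theorem win {c : ℕ} (h1 : g.k (mk P (Nat.mul 2 c)) ≤ g.k a)
    (h2 : g.k b ≤ g.k (mk P (Nat.succ (Nat.add (Nat.mul 2 c) P.NG)))) :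
    c * P.γ ≤ g.ν a ∧ g.ν b ≤ c * P.γ + π := by
  have h3 := key_fst h1
  have h4 := key_fst h2
  have := w.eq
  rw [(g.mkr _).1, show Nat.mul 2 c / 2 = c by simp] at h3
  rw [(g.mkr _).1, show Nat.succ (Nat.add (Nat.mul 2 c) P.NG) / 2 = c + 2 * P.q by
    simp only [Nat.mul_eq, Nat.add_eq]; omega] at h4
  push_cast at h4
  exact ⟨h3, by linarith [w.q2]⟩

theorem lin_sound {ty c : ℕ} (hT : g.Val T) (h : lok P T (ty + 3) a b c = true) :
    a % P.m < P.r ∧ b % P.m < P.r ∧ ip (ex (c * P.γ)) (g.x b - g.x a) ≤ 0 := by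
  simp only [lok, band_eq] at h
  obtain ⟨hb, ha, h⟩ := h
  have ha := real_eq ha
  have hb := real_eq hb
  refine ⟨ha, hb, ?_⟩
  rcases ty with _ | d
  · simp only [Nat.rec_zero, band_eq] at h
    have := win w (le_sound w hT h.1) (le_sound w hT h.2.2)
    exact (Geo.ch ha hb (le_sound w hT h.2.1)).ip this.1 this.2
  simp only [band_eq] at h
  obtain ⟨h1, h2, h3, h4, h5⟩ := h
  have h1 : 0 = b % P.m := Nat.eq_of_beq_eq_true h1
  have h2 : (d : ℝ) ≤ P.p := by exact_mod_cast Nat.le_of_ble_eq_true h2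
  have h3 : 2 * c = (2 * (b / P.m) + d) * P.G := Nat.eq_of_beq_eq_true h3
  have h5 : g.k a ≤ g.k (b + d * P.m) := le_sound w hT h5
  have e := Nat.div_add_mod' b P.m
  rw [← h1, add_comm] at e
  have e1 := g.xs 0 (b / P.m)
  have e2 := g.νs 0 (b / P.m)
  rw [e, g.x0, mul_one] at e1
  rw [e, g.ν0, zero_add] at e2
  have e3 : c * P.γ = g.ν b + d * (P.G * P.γ) / 2 := by
    have : (2 * c : ℝ) = (2 * (b / P.m : ℕ) + d) * P.G := by exact_mod_cast h3
    linear_combination P.γ / 2 * this - e2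
  have d1 : d * (P.G * P.γ) ≤ 2 * π := w.pg ▸
    mul_le_mul_of_nonneg_right h2 (mul_nonneg P.G.cast_nonneg w.γ0.le)
  rcases le_total (g.ν a) (c * P.γ) with h | h
  · have := (Geo.ch hb ha (le_sound w hT h4)).ip (g := c * P.γ - π) (by linarith) (by linarith)
    simp only [ip, ex, Real.cos_sub_pi, Real.sin_sub_pi, sub_re, sub_im] at this ⊢
    linarith
  · have := (Geo.ch ha (by rwa [Nat.add_mul_mod_self_right]) h5).ip h (by rw [g.νs]; linarith)
    rw [g.xs, e1, ← e2, ← ex_add, show d * (P.G * P.γ) + g.ν b = c * P.γ + d * (P.G * P.γ) / 2 by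
      linarith] at this
    rw [e1, ← e2, show g.ν b = c * P.γ - d * (P.G * P.γ) / 2 by linarith]
    simp only [ip, ex, Real.cos_sub, Real.sin_sub, Real.cos_add, Real.sin_add, sub_re, sub_im]
      at this ⊢
    linarith

theorem lval_sound {cs : List ℕ} {ty c s : ℕ} {k : ℤ → Bool} (hT : g.Val T)
    (hc : ∀ c ∈ cs, 0 ≤ cv g.v P.n c) (h : lok P T ty a b c = true)
    (h' : lval P cs ty a b c s k = true) :
    ∃ z, (∃ x, 0 ≤ x ∧ LRep g.v P.n s z x (2 ^ 37)) ∧ k z = true := by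
  have fin : ∀ (U O : ℕ) (y : ℝ), 0 ≤ y → LA g s (U - O) y 2 →
      ∃ x, 0 ≤ x ∧ LRep g.v P.n s (Int.subNatNat (U + 2048) O) x (2 ^ 37) :=
    fun U O y y0 ⟨X, h1, h2⟩ => ⟨X + 2048, by push_cast at h2; linarith [(abs_le.1 h2).1],
      (ladd h1 (lconst w.n0 g.v0 2048) 1).cast (by rw [Int.subNatNat_eq_coe]; push_cast; ring)
        (by norm_num) (by norm_num)⟩
  rcases ty with _ | _ | _ | ty
  · exact ⟨_, ⟨_, by norm_num, (lconst w.n0 g.v0 8589934592).cast rfl rfl (by norm_num)⟩, h'⟩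
  · obtain ⟨e, he, h'⟩ := nth_sound cs a h'
    rw [frcI_eq] at h'
    refine ⟨_, ⟨2 ^ 20 * cv g.v P.n e, by have := hc e he; positivity,
      (ladd LRep.zero (pk_rep (w := 16) (by norm_num) le_rfl (e / 2))
        (1048576 - 2097152 * (e % 2 : ℕ))).cast ?_ ?_ (by omega)⟩, h'⟩
    · rw [cutv_eq, zero_add, Nat.cast_ofNat, Nat.cast_ofNat]
    · simp only [cv, Int.cast_sub, Int.cast_mul, Int.cast_natCast, Int.cast_ofNat]; ring
  · simp only [lok, band_eq] at h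
    obtain ⟨U, O, h1, h2⟩ := two_sound (g := g) (a := 0) w s 0 (Nat.mul P.NG.pred c)
      (by have := w.er; rw [Nat.zero_mod]; omega) (real_eq h.1)
    simp only [lval, frc_eq, frcI_eq, Nat.rec_zero, h1] at h'
    refine ⟨_, fin U O _ ?_ h2, h'⟩
    rw [(w.co _).1, g.x0, one_re, sub_nonneg]
    refine (re_le_norm _).trans ?_
    rw [norm_mul, norm_ex, one_mul]
    exact g.dsc _ (g.sup _ (real_eq h.1)).1
  · obtain ⟨ha, hb, h⟩ := lin_sound w hT h
    obtain ⟨U, O, h1, h2⟩ := two_sound (g := g) w s (Nat.mul P.NG.pred c) (Nat.mul P.NG.pred c)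
      ha hb
    simp only [lval, frc_eq, frcI_eq, h1] at h'
    refine ⟨_, fin U O _ ?_ h2, h'⟩
    have e : ex ((Nat.mul P.NG.pred c : ℕ) * P.γ) = ex (-(c * P.γ)) := by
      rw [← mul_one (ex (-_)), ← ex_nat c, ← ex_add, ← w.ng, Nat.mul_eq, Nat.pred_eq_sub_one,
        Nat.cast_mul, Nat.cast_sub (w.eG ▸ Nat.mul_pos w.hG w.hp)]
      congr 1
      push_cast
      ring
    rw [e]
    simp only [ip, ex, Real.cos_neg, Real.sin_neg, mul_re, sub_re, sub_im] at h ⊢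
    linarith

theorem mkL_sound {cs : List ℕ} {W O : ℕ} (hT : g.Val T) (hc : ∀ c ∈ cs, 0 ≤ cv g.v P.n c) :
    ∀ (ls : List ℕ) (k : ℕ → ℕ → List ℤ → Bool), mkL P T cs W O ls k = true →
      ∃ A c H, (∀ j < c, ∃ x, 0 ≤ x ∧ LRep g.v P.n 128 ((dg W A j : ℤ) - O) x (2 ^ 37)) ∧
        (∀ h ∈ H, ∃ x, 0 ≤ x ∧ LRep g.v P.n W h x (2 ^ 37)) ∧ k A c H = true
  | [], k, h => ⟨0, 0, [], by simp, by simp, h⟩
  | d :: ls, k, h => by
    obtain ⟨A, c, H, h1, h2, h⟩ := mkL_sound hT hc ls _ h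
    simp only [frc_eq, band_eq] at h
    obtain ⟨z, hz, h3⟩ := lval_sound w hT hc h.1 h.2
    obtain ⟨z', hz', h3⟩ := lval_sound w hT hc h.1 h3
    generalize e : Int.add z' (Int.ofNat O) = u at h3
    rcases u with u | u
    swap
    · simp at h3
    simp only [band_eq] at h3
    have h4 : u < 2 ^ W := by
      have : 0 = u >>> W := Nat.eq_of_beq_eq_true h3.1
      rw [Nat.shiftRight_eq_div_pow] at this
      exact (Nat.div_eq_zero_iff_lt (by positivity)).1 this.symm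
    refine ⟨_, _, _, fun j hj => ?_, fun h hh => ?_, h3.2⟩
    · rw [show u.add (A.shiftLeft W) = u + A * 2 ^ W from congrArg _ (Nat.shiftLeft_eq _ _)]
      rcases j with _ | j
      · rw [dg_cons_zero _ h4, show (u : ℤ) - O = z' from sub_eq_of_eq_add e.symm]
        exact hz'
      · rw [dg_cons_succ _ _ h4]
        exact h1 j (by omega)
    · exact (List.mem_cons.1 hh).elim (· ▸ hz) (h2 h)

theorem disc_sound {G : ℝ} {k : ℤ → ℕ → Bool} (f : ℕ) : ∀ (c : ℕ) (Q : ℤ) (M : ℕ),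
    Acc g.v P.n G Q M → disc P (128 * P.n) k f c Q M = true →
      ∃ Q M, Acc g.v P.n G Q M ∧ k Q M = true := by
  induction f with
  | zero => intro _ _ _ _ h; simp [disc] at h
  | succ f ih =>
    rintro (_ | c) Q M ⟨x, hx, hQ⟩ h
    · exact ⟨Q, M, ⟨x, hx, hQ⟩, h⟩
    simp only [disc, frc_eq, frcI_eq, band_eq] at h ih
    obtain ⟨ha, h⟩ := h
    have ha := real_eq ha
    generalize Nat.mod _ 2048 = a at ha h
    obtain ⟨x1, y1, e1, X1, r1, a1⟩ := xq_sound (g := g) w (128 * P.n) 0 ha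
    obtain ⟨x2, y2, e2, X2, r2, a2⟩ := xq_sound (g := g) w (128 * P.n) (Nat.mul 3 P.q) ha
    obtain ⟨x3, y3, e3, X3, r3, a3⟩ := xq_sound (g := g) w 128 0 ha
    obtain ⟨x4, y4, e4, X4, r4, a4⟩ := xq_sound (g := g) w 128 (Nat.mul 3 P.q) ha
    rw [e1, e2, e3, e4] at h
    refine ih _ _ _ ⟨_, ?_, (hQ.add_mul (((lmul r1 r3).add (lmul r2 r4)).sub
      (QR.const w.n0 g.v0 73786985090931228672)) (mu (c + 1))).cast
      (by simp only [Int.subNatNat_eq_coe]; rfl) rfl (by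
        simp only [Nat.add_eq, Int.natAbs_natCast]; omega)⟩ h
    have hn := g.dsc _ (g.sup a ha).1
    have h1 := (abs_re_le_norm _).trans hn
    have h2 := (abs_im_le_norm _).trans hn
    rw [(w.co _).1] at a1 a3
    rw [(w.co _).2] at a2 a4
    have b1 := abs_le.1 (pe (a1.trans (by norm_num)) (a3.trans (by norm_num)) (by linarith)
      (by linarith))
    have b2 := abs_le.1 (pe (a2.trans (by norm_num)) (a4.trans (by norm_num)) (by linarith)
      (by linarith))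
    have h3 := Complex.sq_norm (g.x a)
    rw [normSq_apply] at h3
    have h4 := pow_le_one₀ (n := 2) (norm_nonneg _) hn
    refine add_le_of_nonpos_right (mul_nonpos_of_nonneg_of_nonpos (by positivity) ?_) |>.trans hx
    push_cast
    linarith [b1.2, b2.2]

theorem cell_sound {c : ℕ} {k : ℤ → ℕ → ℕ → Bool} : ∀ (N : ℕ) (Q : ℤ) (M S : ℕ), N ≤ P.N →
    (∃ B, 32000000 * g.A * S ≤ 892691 * B ∧ Acc g.v P.n (-1 - 2 ^ 62 * B) Q M) →
    cell (128 * P.n) c k N Q M S = true → ∃ Q M, ∃ S : ℕ,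
      (∃ B, 32000000 * g.A * S ≤ 892691 * B ∧ Acc g.v P.n (-1 - 2 ^ 62 * B) Q M) ∧ k Q M S = true
  | 0, Q, M, S, _, hA, h => ⟨Q, M, S, hA, h⟩
  | j + 1, Q, M, S, hj, ⟨B, hB, x, hx, hQ⟩, h => by
    have ih := cell_sound (c := c) (k := k) j
    simp only [cell, frc_eq, frcI_eq] at h ih
    generalize look 64 c j = μ at h
    have en := w.en
    have r := lmul (ladd (lconst w.n0 g.v0 8) (lone (i := 7 * j + 1) (by omega)) 1)
      (ladd (ladd (lconst w.n0 g.v0 14) (lone (i := 7 * j + 5) (by omega)) 1)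
        (lone (i := 7 * j + 7) (by omega)) (-1))
    refine ih _ _ _ (by omega) ⟨B + μ * ((g.v (7 * j + 1) + 8) *
      (g.v (7 * j + 5) + 14 - g.v (7 * j + 7))), ?_, _, ?_,
      (hQ.add_mul r (-(μ * 2 ^ 62 : ℕ))).cast ?_ rfl ?_⟩ h
    · have := mul_le_mul_of_nonneg_left (g.ar j hj) μ.cast_nonneg
      rw [Nat.add_eq]
      push_cast
      linarith
    · push_cast
      linarith
    · simp only [Nat.add_eq, Nat.mul_eq, Nat.shiftLeft_eq', Nat.shiftLeft_eq, Nat.succ_eq_add_one,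
        Int.subNatNat_eq_coe, Int.mul_def, Int.sub_eq_add_neg, Int.ofNat_eq_natCast]
      show _ = Q - _
      push_cast
      rw [add_assoc (7 * j), add_assoc (7 * j)]
      generalize (2 : ℤ) ^ (128 * (7 * j + 5)) = u
      generalize (2 : ℤ) ^ (128 * (7 * j + 7)) = u
      ring
    · simp only [Nat.add_eq, Int.natAbs_neg, Int.natAbs_natCast, Int.reduceAbs]
      omega

end Pool.Agent.MP_5c967c_co.H80R
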