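import Pool.Agent.MP_5c967c_co.H80R.Snd3

/-! Soundness of the checker: determinant constraints, leaves and trees. -/

namespace Pool.Agent.MP_5c967c_co.H80R

open H44 H80L Real
open Complex hiding sin cos exp

variable {P : Par} {g : Geo P} {T a b : ℕ}

/-- the potential -/
noncomputable def Geo.Φ (g : Geo P) (a : ℕ) : ℝ := g.S (a % P.m) + (a / P.m : ℕ) * g.S P.m

/-- the invariant of the second factors -/
def EI (g : Geo P) (U W D : ℝ) (x x' y y' M S : ℕ) : Prop := ∃ X Y,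
  LRep g.v P.n 128 (x - x') X (M * 2 ^ 36) ∧ LRep g.v P.n 128 (y - y') Y (M * 2 ^ 36) ∧ S ≤ M ∧
    W * X - U * Y - M * 2 ^ 43 ≤ 2 ^ 66 * (S * D)

theorem LA.two {s : ℕ} {z : ℤ} {y : ℝ} (h : LA g s z y 1) : LA g s z y 2 := by
  obtain ⟨X, h1, h2⟩ := h
  exact ⟨X, h1.cast rfl rfl (by norm_num), h2.trans (by norm_num)⟩

variable (w : WF P)
include w

theorem two_co (s : ℕ) (ha : a % P.m < P.r) (hb : b % P.m < P.r) :
    (∃ U O : ℕ, (∀ k, two P s b 0 a 0 k = k U O) ∧ LA g s (U - O) (g.x b - g.x a).re 2) ∧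
    ∃ U O : ℕ, (∀ k, two P s b (Nat.mul 3 P.q) a (Nat.mul 3 P.q) k = k U O) ∧
      LA g s (U - O) (g.x b - g.x a).im 2 :=
  ⟨by simpa only [(w.co _).1, sub_re] using two_sound (g := g) w s 0 0 hb ha,
    by simpa only [(w.co _).2, sub_im] using
      two_sound (g := g) w s (Nat.mul 3 P.q) (Nat.mul 3 P.q) hb ha⟩

theorem dok_sound {ty x y c : ℕ} (hT : g.Val T) (ha : a % P.m < P.r) (hb : b % P.m < P.r)
    (hx : x % P.m < P.r) (hab : g.k a ≤ g.k b) (h : dok P T ty a b x y c = true) :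
    y % P.m < P.r ∧ 0 ≤ dt (g.x b - g.x a) (g.x y - g.x x) := by
  simp only [dok, band_eq] at h
  obtain ⟨hy, h1, h2, h⟩ := h
  have hy := real_eq hy
  refine ⟨hy, (Geo.ch ha hb hab).dt (Geo.ch hx hy (le_sound w hT h2))
    (key_fst (le_sound w hT h1)) ?_⟩
  rcases ty with _ | ty
  · simp only [Nat.rec_zero, band_eq] at h
    have := win w (le_sound w hT h.1) (le_sound w hT h.2)
    linarith [this.1, this.2]
  · simp only [band_eq] at h
    linarith [key_fst (le_sound w hT h.1), key_fst (le_sound w hT h.2), g.opp c]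

theorem ent_sound {U W : ℝ} {k : ℕ → ℕ → ℕ → ℕ → ℕ → ℕ → Bool} (hT : g.Val T)
    (ha : a % P.m < P.r) (hb : b % P.m < P.r) (hab : g.k a ≤ g.k b)
    (hU : |U - 2 ^ 33 * (g.x b - g.x a).re| ≤ 64) (hW : |W - 2 ^ 33 * (g.x b - g.x a).im| ≤ 64)
    (f : ℕ) : ∀ c x x' y y' M S : ℕ, EI g U W (g.Φ b - g.Φ a) x x' y y' M S →
      ent P T a b k f c x x' y y' M S = true →
      ∃ x x' y y' M S, EI g U W (g.Φ b - g.Φ a) x x' y y' M S ∧ k x x' y y' M S = true := by
  induction f with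
  | zero => intro _ _ _ _ _ _ _ _ h; simp [ent] at h
  | succ f ih =>
    rintro (_ | c) x x' y y' M S hE h
    · exact ⟨_, _, _, _, _, _, hE, h⟩
    have st : ∀ (μ u u' z z' e : ℕ) (d : ℂ), ‖d‖ ≤ 2 → LA g 128 (u - u') d.re 2 →
        LA g 128 (z - z') d.im 2 → e ≤ 1 → dt d (g.x b - g.x a) ≤ e * (g.Φ b - g.Φ a) →
        EI g U W (g.Φ b - g.Φ a) (x + μ * u) (x' + μ * u') (y + μ * z) (y' + μ * z') (M + μ)
          (S + e * μ) := by
      obtain ⟨X, Y, h1, h2, h3, h4⟩ := hE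
      intro μ u u' z z' e d hd ⟨X', a1, a2⟩ ⟨Y', b1, b2⟩ he h5
      have n2 := Geo.n2 (g := g) ha hb
      have c1 := abs_le.1 (pe hW (a2.trans (by norm_num)) ((abs_im_le_norm _).trans n2)
        ((abs_re_le_norm _).trans hd))
      have c2 := abs_le.1 (pe hU (b2.trans (by norm_num)) ((abs_re_le_norm _).trans n2)
        ((abs_im_le_norm _).trans hd))
      refine ⟨_, _, (h1.add_mul a1 μ).cast (by push_cast; ring) rfl (by omega),
        (h2.add_mul b1 μ).cast (by push_cast; ring) rfl (by omega), by nlinarith, ?_⟩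
      have := mul_le_mul_of_nonneg_left (show W * X' - U * Y' - 2 ^ 43 ≤
        2 ^ 66 * (e * (g.Φ b - g.Φ a)) by rw [dt] at h5; linarith [c1.2, c2.1]) μ.cast_nonneg
      push_cast
      linarith
    simp only [ent, frc_eq, band_eq] at h ih
    obtain ⟨hz, h⟩ := h
    have hz := real_eq hz
    generalize Nat.mod _ 2048 = z at hz h
    generalize Nat.mod (Nat.shiftRight _ 32) 4 = ty at h
    rcases ty with _ | _ | ty
    · obtain ⟨u, u', e1, a1⟩ := xq_sound (g := g) w 128 0 hz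
      obtain ⟨t, t', e2, a2⟩ := xq_sound (g := g) w 128 (Nat.mul 3 P.q) hz
      rw [(w.co _).1] at a1
      rw [(w.co _).2] at a2
      simp only [Nat.rec_zero, e1, e2] at h
      have := st (mu (c + 1)) u u' t t' 1 _ ((g.dsc _ (g.sup z hz).1).trans one_le_two) a1.two
        a2.two le_rfl (by rw [Nat.cast_one, one_mul]; exact g.pt a b z ha hb hz hab)
      rw [one_mul] at this
      exact ih _ _ _ _ _ _ _ this h
    · obtain ⟨⟨u, u', e1, a1⟩, t, t', e2, a2⟩ := two_co (g := g) w 128 ha hz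
      simp only [Nat.rec_zero, e1, e2, band_eq] at h
      have := Geo.ch hz (by rwa [Nat.add_eq, Nat.mul_eq, Nat.add_mul_mod_self_right])
        (le_sound w hT h.2.1)
      rw [Nat.add_eq, Nat.mul_eq, g.xs, g.νs, w.pg, ex_two_pi, one_mul] at this
      have := tri3 (Geo.ch ha hb hab) (Geo.ch hb hz (le_sound w hT h.1)) this
      have := st (mu (c + 1)) u u' t t' 0 _ (Geo.n2 ha hz) a1 a2 zero_le_one (by
        simp only [dt, Nat.cast_zero] at this ⊢; linarith)
      rw [zero_mul] at this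
      exact ih _ _ _ _ _ _ _ this h.2.2
    · simp only [band_eq] at h
      obtain ⟨hy, h1⟩ := dok_sound w hT ha hb hz hab h.1
      obtain ⟨⟨u, u', e1, a1⟩, t, t', e2, a2⟩ := two_co (g := g) w 128 hz hy
      simp only [e1, e2] at h
      have := st (mu (c + 1)) u u' t t' 0 _ (Geo.n2 hz hy) a1 a2 zero_le_one (by
        simp only [dt, Nat.cast_zero] at h1 ⊢; linarith)
      rw [zero_mul] at this
      exact ih _ _ _ _ _ _ _ this h.2

omit w in
theorem ev_rep (hm : 0 < P.m) (h : a < 2048) : LRep g.S (P.m + 1) 128 (ev P a) (g.Φ a) 2048 := by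
  have := Nat.mod_lt a hm
  have h2 := Nat.div_le_self a P.m
  refine ((lone (i := a % P.m) (by omega)).add_mul (lone (i := P.m) (by omega)) (a / P.m)).cast
    ?_ rfl (by omega)
  simp only [ev, Nat.add_eq, Nat.mul_eq, Nat.shiftLeft_eq', Nat.shiftLeft_eq, mod_eq, div_eq]
  push_cast
  ring

theorem dets_sound {G : ℝ} {k : ℤ → ℕ → ℕ → ℕ → Bool} (hT : g.Val T) (ds : List ℕ) :
    ∀ (Q : ℤ) (M F F' : ℕ), (∃ y, LRep g.S (P.m + 1) 128 (F - F') y (M * 4096) ∧
      Acc g.v P.n (G + 2 ^ 66 * y) Q M) → dets P T (128 * P.n) k ds Q M F F' = true →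
      ∃ Q, ∃ M F F' : ℕ, (∃ y, LRep g.S (P.m + 1) 128 (F - F') y (M * 4096) ∧
        Acc g.v P.n (G + 2 ^ 66 * y) Q M) ∧ k Q M F F' = true := by
  induction ds with
  | nil => exact fun Q M F F' hA h => ⟨Q, M, F, F', hA, h⟩
  | cons c ds ih =>
    intro Q M F F' ⟨y, hy, x, hx, hQ⟩ h
    simp only [dets, frc_eq, frcI_eq, band_eq] at h ih
    have a1 : Nat.mod c 2048 < 2048 := Nat.mod_lt _ (by norm_num)
    have b1 : Nat.mod (Nat.shiftRight c 11) 2048 < 2048 := Nat.mod_lt _ (by norm_num)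
    generalize Nat.mod c 2048 = a at h a1
    generalize Nat.mod (Nat.shiftRight c 11) 2048 = b at h b1
    obtain ⟨ha, hb, hab, h⟩ := h
    have ha := real_eq ha
    have hb := real_eq hb
    obtain ⟨⟨u, u', e1, U, r1, a2⟩, t, t', e2, W, r2, b2⟩ := two_co (g := g) w (128 * P.n) ha hb
    obtain ⟨z, z', s, s', M', S, ⟨X, Y, r3, r4, h1, h2⟩, h⟩ := ent_sound w hT ha hb
      (le_sound w hT hab) (a2.trans (by norm_num)) (b2.trans (by norm_num)) _ _ _ _ _ _ _ _
      ⟨0, 0, LRep.zero.cast (by simp) rfl (by simp), LRep.zero.cast (by simp) rfl (by simp), le_rfl,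
        by simp⟩ h
    simp only [e1, e2] at h
    have m0 : 0 < P.m := by have := w.em; have := w.er; omega
    refine ih _ _ _ _ ⟨_, (hy.add_mul (lsub (ev_rep m0 b1) (ev_rep m0 a1)) S).cast
      (by simp only [Nat.add_eq, Nat.mul_eq]; push_cast; ring) rfl
      (by simp only [Nat.add_eq]; omega), _, ?_, ((hQ.add (lmul r2 r3)).sub ((lmul r1 r4).add
        (QR.const w.n0 g.v0 (M' * 2 ^ 43)))).cast (by
          simp only [Int.subNatNat_eq_coe, Nat.shiftLeft_eq', Nat.shiftLeft_eq]; rfl) rfl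
        (by simp only [Nat.add_eq]; omega)⟩ h
    push_cast
    linarith

theorem leaf_sound {cs ls gs ds sq : List ℕ} {de ge sh τ : ℕ} (hT : g.Val T)
    (hc : ∀ c ∈ cs, 0 ≤ cv g.v P.n c) (h : leaf P T cs ls gs ds sq de ge sh τ = true) : False := by
  simp only [leaf, frc_eq] at h
  obtain ⟨A, c, H, h1, h2, h⟩ := mkL_sound w hT hc _ _ h
  rw [band_eq] at h
  obtain ⟨Q, M, hA, h⟩ := prods_sound (G := -1) h1 (Nat.le_of_ble_eq_true h.1) _ gs H _ _ h2
    ⟨_, by simp, (QR.zero.sub (QR.const w.n0 g.v0 1)).cast rfl rfl (by simp)⟩ h.2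
  obtain ⟨Q, M, hA, h⟩ := disc_sound w _ _ _ _ hA h
  obtain ⟨Q, M, S, ⟨B, hB, hA⟩, h⟩ := cell_sound w _ _ _ _ le_rfl ⟨0, by simp, by simpa using hA⟩ h
  obtain ⟨Q, M, F, F', ⟨y, hy, x, hx, hQ⟩, h⟩ := dets_sound (G := -1 - 2 ^ 62 * B) w hT _ _ _ _ _
    ⟨0, LRep.zero.cast (by simp) rfl (by simp), by simpa using hA⟩ h
  simp only [band_eq] at h
  obtain ⟨h3, h4, h5, h6, h⟩ := h
  generalize Nat.shiftRight _ _ = u at h3 h4
  have h3 : F = F' + u <<< (128 * P.m) := Nat.eq_of_beq_eq_true h3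
  have h4 : (u : ℝ) * 892691 ≤ S * P.p * 1000000 := by exact_mod_cast Nat.le_of_ble_eq_true h4
  have h5 : M ≤ 1125899906842624 := Nat.le_of_ble_eq_true h5
  have h6 : 2 ^ sh ≤ 2 ^ 56 := Nat.pow_le_pow_right two_pos (Nat.le_of_ble_eq_true h6)
  have e := flow (w := u) hy (by omega) (by rw [h3, Nat.shiftLeft_eq]; push_cast; ring)
  obtain ⟨m, R, ⟨z, hz, hR⟩, h⟩ := (sqs_sound (v := g.v) (B := 0) (G := 0) _ (fun m Q h =>
    Nat.le_of_ble_eq_true ((band_eq _ _).1 h).1) _ _ _ h).2 ⟨0, le_rfl, QR.zero.cast rfl rfl (by simp)⟩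
  rw [band_eq] at h
  have h7 : m ≤ 64 := (Nat.le_of_ble_eq_true h.1).trans w.n64
  have h8 := dom_sound (hQ.add_mul hR (1 <<< sh : ℕ)) (by
    rw [Int.natAbs_natCast, Nat.one_shiftLeft]
    have := Nat.mul_le_mul h6 (show 0 + m * 2 ^ 62 ≤ 2 ^ 68 by omega)
    omega) τ h.2
  have h9 : ((1 <<< sh : ℕ) : ℤ) * z ≤ 0 := mul_nonpos_of_nonneg_of_nonpos (by positivity) hz
  have p0 : (0 : ℝ) < P.p := by exact_mod_cast w.hp
  have k1 := mul_le_mul_of_nonneg_left g.sA u.cast_nonneg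
  have k2 := mul_le_mul_of_nonneg_left h4 g.A0
  have k3 := mul_le_mul_of_nonneg_left hB p0.le
  have k4 : P.p * (16 * y) ≤ P.p * B := by rw [e]; linarith
  linarith [le_of_mul_le_mul_left k4 p0]

/-- a state is satisfied -/
def Sat (g : Geo P) (s : ℕ × List ℕ) : Prop := g.Val s.1 ∧ ∀ c ∈ s.2, 0 ≤ cv g.v P.n c

omit w in
theorem mem_sound {c : ℕ} : ∀ l : List ℕ, mem c l = true → c ∈ l
  | [], h => by simp [mem] at h
  | a :: l, h => by
    rcases e : Nat.beq a c with _ | _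
    · exact List.mem_cons_of_mem _ (mem_sound l (by simpa only [mem, e] using h))
    · exact Nat.eq_of_beq_eq_true e ▸ List.mem_cons_self

omit w in
theorem ref_sound {cs : List ℕ} (h0 : Sat g (T, cs)) : ∀ (R : List (ℕ × List ℕ)) (i : ℕ),
    refOk T cs R i = true → ∃ s ∈ R, Sat g s
  | [], _, h => by simp [refOk] at h
  | _ :: R, i + 1, h => (ref_sound h0 R i h).imp fun _ h => ⟨List.mem_cons_of_mem _ h.1, h.2⟩
  | (a, l) :: R, 0, h => by
    simp only [refOk, Nat.rec_zero, band_eq] at h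
    refine ⟨_, List.mem_cons_self, fun i hi => h0.1 i ?_, fun c hc => h0.2 c ?_⟩
    · have : a = a &&& T := Nat.eq_of_beq_eq_true h.1
      rw [this, Nat.testBit_and, Bool.and_eq_true] at hi
      exact hi.2
    · replace h := h.2
      induction l with
      | nil => simp at hc
      | cons d l ih =>
        have h := (band_eq _ _).1 h
        exact (List.mem_cons.1 hc).elim (· ▸ mem_sound _ h.1) fun hc => ih hc h.2

theorem chk_sound {R : List (ℕ × List ℕ)} (t : Tr) : ∀ (cs : List ℕ) (T : ℕ), Sat g (T, cs) →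
    chk P R t cs T = true → ∃ s ∈ R, Sat g s := by
  induction t with
  | leaf => exact fun cs T h0 h => (leaf_sound w h0.1 h0.2 h).elim
  | ord a b _ _ i1 i2 =>
    intro cs T h0 h
    have h := (band_eq _ _).1 h
    rcases le_total (g.k a) (g.k b) with c | c
    · obtain ⟨T, hT, h⟩ := put_sound w h0.1 c h.1
      exact i1 cs T ⟨hT, h0.2⟩ h
    · obtain ⟨T, hT, h⟩ := put_sound w h0.1 c h.2
      exact i2 cs T ⟨hT, h0.2⟩ h
  | cut c _ _ i1 i2 =>
    intro cs T h0 h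
    have h := (band_eq _ _).1 h
    rw [frc_eq, frc_eq] at h
    rcases le_total 0 (val g.v P.n 16 c) with e | e
    · refine i1 (_ :: cs) T ⟨h0.1, List.forall_mem_cons.2 ⟨?_, h0.2⟩⟩ h.1
      simpa [cv] using e
    · refine i2 (_ :: cs) T ⟨h0.1, List.forall_mem_cons.2 ⟨?_, h0.2⟩⟩ h.2
      rw [cv, show (Nat.mul 2 c).succ % 2 = 1 by simp [Nat.add_mod],
        show (Nat.mul 2 c).succ / 2 = c by simp only [Nat.mul_eq]; omega]
      push_cast
      linarith
  | der c _ i =>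
    intro cs T h0 h
    obtain ⟨T, hT, h⟩ := der_sound w 1000000 c T h0.1 h
    exact i cs T ⟨hT, h0.2⟩ h
  | bad a c c' =>
    intro cs T h0 h
    simp only [chk, band_eq] at h
    exact (bad_sound w (real_eq h.1) (Nat.le_of_ble_eq_true h.2.1) (le_sound w h0.1 h.2.2.1)
      (le_sound w h0.1 h.2.2.2)).elim
  | ref i => exact fun cs T h0 h => ref_sound h0 R i h

theorem top_sound {R : List (ℕ × List ℕ)} {t : Tr} (h0 : ∀ a ∈ roots P, g.k a.1 ≤ g.k a.2)
    (h : top P R t = true) : ∃ s ∈ R, Sat g s := by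
  obtain ⟨T, hT, h⟩ := puts_sound w _ 0 (fun i hi => by simp at hi) h0 h
  exact chk_sound w t [] T ⟨hT, by simp⟩ h

end Pool.Agent.MP_5c967c_co.H80R
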