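import Pool.Agent.MP_5c967c_co.H80R.Snd4

/-! The table of cosines. -/

namespace Pool.Agent.MP_5c967c_co.H80R

open H44 Real Finset

/-- Taylor polynomial -/
def tc (x : ℚ) : ℚ := ∑ j ∈ range 20, (-1) ^ j * x ^ (2 * j) / (2 * j).factorial

theorem re_sum (x : ℝ) (n : ℕ) : (∑ m ∈ range (2 * n), (x * Complex.I) ^ m / m.factorial).re =
    ∑ j ∈ range n, (-1) ^ j * x ^ (2 * j) / (2 * j).factorial := by
  induction n with
  | zero => simp
  | succ n ih =>
    have e : (x * Complex.I) ^ (2 * n) = ((-1) ^ n * x ^ (2 * n) : ℝ) := by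
      rw [mul_pow, pow_mul Complex.I, Complex.I_sq]; push_cast; ring
    rw [mul_add, mul_one, sum_range_succ, sum_range_succ, sum_range_succ, Complex.add_re,
      Complex.add_re, ih, pow_succ, e, Complex.div_natCast_re, Complex.div_natCast_re,
      Complex.ofReal_re, ← mul_assoc, ← Complex.ofReal_mul]
    simp only [Complex.mul_re, Complex.I_re, Complex.I_im, Complex.ofReal_im, mul_zero, zero_mul,
      sub_zero, zero_div, add_zero]

theorem tc_err (x : ℚ) (h0 : 0 ≤ x) (h : x ≤ 7) : |cos x - tc x| ≤ 1 / 10 ^ 12 := by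
  have h0 : (0 : ℝ) ≤ x := by exact_mod_cast h0
  have h : (x : ℝ) ≤ 7 := by exact_mod_cast h
  have e : ‖((x : ℝ) : ℂ) * Complex.I‖ = x := by
    rw [norm_mul, Complex.norm_I, mul_one, Complex.norm_real, norm_of_nonneg h0]
  have h1 := (Complex.abs_re_le_norm _).trans (Complex.exp_bound' (x := ((x : ℝ) : ℂ) * Complex.I)
    (n := 2 * 20) (by rw [e]; push_cast; linarith))
  rw [Complex.sub_re, re_sum, Complex.exp_ofReal_mul_I_re, e] at h1
  have h2 := pow_le_pow_left₀ h0 h (2 * 20)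
  rw [tc]
  push_cast
  refine h1.trans ?_
  norm_num [Nat.factorial] at h2 ⊢
  linarith

theorem wf_of {P : Par} (h : 0 < P.p ∧ 0 < P.N ∧ 0 < P.G ∧ P.G * P.p = P.NG ∧ 4 * P.q = P.NG ∧
    P.r = 6 * P.N + 1 ∧ P.m = P.r + 2 * P.G ∧ P.n = 7 * P.N + 1 ∧ P.m ∣ P.Lm ∧ P.n ≤ 64 ∧
    ∀ k < P.NG, |(look 32 P.CT k : ℚ) - 2 ^ 31 -
      2 ^ 30 * tc (k / P.NG * 6.28318530717958647692)| ≤ 1) : WF P := by
  obtain ⟨h1, h2, h3, h4, h5, h6, h7, h8, h9, h10, h⟩ := h
  refine ⟨h1, h2, h3, h4, h5, h6, h7, h8, h9, h10, fun k hk => ?_⟩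
  have k1 : (k / P.NG : ℚ) ≤ 1 := div_le_one_of_le₀ (by exact_mod_cast hk.le) (by positivity)
  have k0 : (0 : ℚ) ≤ k / P.NG := by positivity
  have a1 := abs_le.1 (tc_err (k / P.NG * 6.28318530717958647692) (by positivity) (by linarith))
  have a2 : |(look 32 P.CT k : ℝ) - 2 ^ 31 -
      2 ^ 30 * tc (k / P.NG * 6.28318530717958647692)| ≤ 1 := by exact_mod_cast h k hk
  have k1 : (k / P.NG : ℝ) ≤ 1 := div_le_one_of_le₀ (by exact_mod_cast hk.le) (by positivity)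
  have k0 : (0 : ℝ) ≤ k / P.NG := by positivity
  have a3 := abs_le.1 ((abs_cos_sub_cos_le (k * P.γ)
    (k / P.NG * 6.28318530717958647692 : ℚ)).trans (show _ ≤ 1 / 10 ^ 12 by
      rw [Par.γ, mul_div_assoc', ← div_mul_eq_mul_div, abs_le]
      push_cast
      constructor <;> nlinarith [pi_gt_d20, pi_lt_d20]))
  rw [abs_le] at a2 ⊢
  constructor <;> linarith [a1.1, a1.2, a2.1, a2.2, a3.1, a3.2]

theorem nref {P : Par} {g : Geo P} {R : List (ℕ × List ℕ)} {s : ℕ × List ℕ} {t : Tr} (w : WF P)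
    (h : ∀ s ∈ R, ¬Sat g s) (c : chk P R t s.2 s.1 = true) : ¬Sat g s := fun h0 =>
  have ⟨s, h1, h2⟩ := chk_sound w t _ _ h0 c
  h s h1 h2

theorem fc {α : Type} {p : α → Prop} {a : α} {l : List α} (h : p a) (h' : ∀ x ∈ l, p x) :
    ∀ x ∈ a :: l, p x := List.forall_mem_cons.2 ⟨h, h'⟩

end Pool.Agent.MP_5c967c_co.H80R
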